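import Pool.Agent.Run7.h9.TC.Fin

/-! Triple correlations: all sequences and all test functions. -/
set_option autoImplicit false
open MeasureTheory Filter Topology Complex Set
open scoped ContDiff Real Manifold

namespace Pool.Agent.Run7.h9.TC

open Pool.Agent.W745.RW Pool.Agent.TH294.RS Pool.Agent.Y265.HY Pool.Agent.Y265.HY.PS
open Pool.Agent.Y265.HY.JC

noncomputable section

variable {Ω : Set ℂ} {lam mu nu : ℕ → ℝ} {u g k : ℕ → ℂ → ℝ} {C : ℝ}

lemma JT_swap (φ u g k : ℂ → ℝ) : JT φ g u k = JT φ u g k := by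
  unfold JT; congr 1; funext z; ring

lemma T3.sg0 (T : T3 Ω lam mu nu u g k C) (n : ℕ) : 0 < sg lam mu n :=
  div_pos (T.S.H.hpos n) (T.S.H'.hpos n)

lemma T3.sgb (T : T3 Ω lam mu nu u g k C) : 0 < 1 / √C ∧ ∀ n, sg lam mu n ∈ Set.Icc (1 / √C) (√C) := by
  have c0 : 0 < √C := by
    have h1 := T.S.hC' 0
    have h2 := T.S.H.hpos 0
    have h3 := T.S.H'.hpos 0
    by_contra hc
    push Not at hc
    nlinarith
  refine ⟨by positivity, fun n => ⟨?_, ?_⟩⟩
  · have h1 := T.S.hC' n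
    have h3 := T.S.H'.hpos n
    unfold sg
    rw [div_le_div_iff₀ c0 h3, one_mul, mul_comm]
    exact h1
  · exact (le_abs_self _).trans (T.S.rat n)

lemma T3.sg2 (T : T3 Ω lam mu nu u g k C) (n : ℕ) : sg lam mu n ^ 2 = mu n / lam n := by
  unfold sg
  rw [div_pow, hh2 T.D, hh2 T.D']
  have h1 := (T.D.lp n).ne'
  have h2 := (T.D'.lp n).ne'
  field_simp

/-- limits of the parameters, both orders of the first two frequencies -/
theorem T3.lim2 (T : T3 Ω lam mu nu u g k C) {φ : ℂ → ℝ} (hφ : TF Ω φ) (h0 : ∀ z, 0 ≤ φ z)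
    {σ R : ℝ} (hσ : Tendsto (sg lam mu) atTop (𝓝 σ)) (σ0 : 0 < σ)
    (hR : Tendsto (fun n => nu n / lam n) atTop (𝓝 R)) (hq : (qP σ).eval R ≠ 0) :
    Tendsto (fun n => JT φ (u n) (g n) (k n)) atTop (𝓝 0) := by
  by_cases σ1 : σ ≤ 1
  · exact T.lim hφ h0 hσ σ0 σ1 hR hq
  · push Not at σ1
    have h1 : Tendsto (sg mu lam) atTop (𝓝 σ⁻¹) := by
      refine (hσ.inv₀ σ0.ne').congr fun n => ?_
      unfold sg
      rw [inv_div]
    have h2 : Tendsto (fun n => nu n / mu n) atTop (𝓝 (R / σ ^ 2)) := by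
      refine (hR.div (hσ.pow 2) (by positivity)).congr fun n => ?_
      show nu n / lam n / sg lam mu n ^ 2 = _
      rw [T.sg2]
      have a1 := (T.D.lp n).ne'
      have a2 := (T.D'.lp n).ne'
      field_simp
    have h3 : (qP σ⁻¹).eval (R / σ ^ 2) ≠ 0 := by
      rw [qP_ev] at hq ⊢
      intro h
      apply hq
      have e : ((R / σ ^ 2) ^ 2 - (2 + 2 * σ⁻¹ ^ 2) * (R / σ ^ 2) + (1 - σ⁻¹ ^ 2) ^ 2) *
          ((R / σ ^ 2) ^ 2 - (1 - σ⁻¹ ^ 2) ^ 2) * σ ^ 8 =
          (R ^ 2 - (2 + 2 * σ ^ 2) * R + (1 - σ ^ 2) ^ 2) * (R ^ 2 - (1 - σ ^ 2) ^ 2) := by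
        field_simp
        ring
      rw [← e, h, zero_mul]
    have k1 := T.symm.lim hφ h0 h1 (by positivity) (inv_le_one_of_one_le₀ σ1.le) h2 h3
    exact k1.congr fun n => JT_swap _ _ _ _

/-- **Triple correlations** away from the exceptional parameters, nonnegative test functions -/
theorem T3.pos (T : T3 Ω lam mu nu u g k C) {φ : ℂ → ℝ} (hφ : TF Ω φ) (h0 : ∀ z, 0 ≤ φ z)
    {δ : ℝ} (hδ : 0 < δ) (h : ∀ᶠ n in atTop, δ * (1 + nu n / lam n) ^ 4 ≤
      |(qP (sg lam mu n)).eval (nu n / lam n)|) :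
    Tendsto (fun n => JT φ (u n) (g n) (k n)) atTop (𝓝 0) := by
  by_contra hcon
  rw [Filter.not_tendsto_iff_exists_frequently_notMem] at hcon
  obtain ⟨s, hs, hf⟩ := hcon
  obtain ⟨ns, hns', hnsf⟩ := extraction_of_frequently_atTop hf
  have hns := hns'.tendsto_atTop
  obtain ⟨τ, hτ, hτ2⟩ := sub_ratio (fun n => nu n / lam n)
    (fun n => div_nonneg (T.D.mp n).le (T.D.lp n).le) ns
  obtain ⟨b0, hb⟩ := T.sgb
  obtain ⟨σ, hσ, ρ, hρ, hρσ⟩ := isCompact_Icc.tendsto_subseq (s := Set.Icc (1 / √C) (√C))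
    (x := fun n => sg lam mu (ns (τ n))) (fun n => hb _)
  have σ0 : 0 < σ := lt_of_lt_of_le b0 hσ.1
  have hω : Tendsto (fun n => ns (τ (ρ n))) atTop atTop :=
    hns.comp (hτ.tendsto_atTop.comp hρ.tendsto_atTop)
  have T1 := T.cmp hω
  have hsg : Tendsto (sg (fun n => lam (ns (τ (ρ n)))) (fun n => mu (ns (τ (ρ n))))) atTop
    (𝓝 σ) := hρσ
  have key : Tendsto (fun n => JT φ (u (ns (τ (ρ n)))) (g (ns (τ (ρ n))))
      (k (ns (τ (ρ n))))) atTop (𝓝 0) := by
    rcases hτ2 with hR | ⟨R, hR0, hR⟩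
    · exact T1.inf hφ h0 hsg (hR.comp hρ.tendsto_atTop)
    · have hR' := hR.comp hρ.tendsto_atTop
      have hq : (qP σ).eval R ≠ 0 := by
        have c : Continuous fun p : ℝ × ℝ => (qP p.1).eval p.2 := by
          simp only [qP_ev]
          fun_prop
        have k1 := ((c.tendsto (σ, R)).comp (hsg.prodMk_nhds hR')).abs
        have k2 : Tendsto (fun n => δ * (1 + nu (ns (τ (ρ n))) / lam (ns (τ (ρ n)))) ^ 4) atTop
          (𝓝 (δ * (1 + R) ^ 4)) := ((hR'.const_add 1).pow 4).const_mul δ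
        have k3 := le_of_tendsto_of_tendsto k2 k1 (hω.eventually h)
        intro hz
        simp only [hz, abs_zero] at k3
        have : 0 < δ * (1 + R) ^ 4 := by positivity
        linarith
      exact T1.lim2 hφ h0 hsg σ0 hR' hq
  obtain ⟨n, hn⟩ := (key.eventually hs).exists
  exact hnsf _ hn

/-- **Triple correlations** away from the exceptional parameters -/
theorem T3.off (T : T3 Ω lam mu nu u g k C) {ψ : ℂ → ℝ} (hψ : TF Ω ψ)
    {δ : ℝ} (hδ : 0 < δ) (h : ∀ᶠ n in atTop, δ * (1 + nu n / lam n) ^ 4 ≤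
      |(qP (sg lam mu n)).eval (nu n / lam n)|) :
    Tendsto (fun n => JT ψ (u n) (g n) (k n)) atTop (𝓝 0) := by
  have D := T.D
  obtain ⟨χ, hχ, hχ0, -, hχ1⟩ := Pool.Agent.Y265.RW.cutoff D.op hψ.2.1 hψ.2.2
  obtain ⟨M', hM'⟩ := hψ.2.1.exists_bound_of_continuousOn hψ.1.continuous.continuousOn
  obtain ⟨M, hM⟩ : ∃ M, M = max M' 0 := ⟨_, rfl⟩
  have M0 : 0 ≤ M := by rw [hM]; exact le_max_right _ _
  have t1 : TF Ω (fun z => ψ z + M * χ z) := by
    refine ⟨hψ.1.add (contDiff_const.mul hχ.1), hψ.2.1.add (hχ.2.1.mul_left), ?_⟩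
    refine (tsupport_add _ _).trans (Set.union_subset hψ.2.2 ?_)
    exact (tsupport_mul_subset_right (f := fun _ : ℂ => M)).trans hχ.2.2
  have p1 : ∀ z, 0 ≤ ψ z + M * χ z := by
    intro z
    by_cases hz : z ∈ tsupport ψ
    · rw [hχ1 z hz, mul_one]
      have h1 := hM' z hz
      rw [Real.norm_eq_abs] at h1
      have h2 := neg_abs_le (ψ z)
      have h3 : M' ≤ M := by rw [hM]; exact le_max_left _ _
      linarith
    · rw [image_eq_zero_of_notMem_tsupport hz, zero_add]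
      exact mul_nonneg M0 (hχ0 z)
  have k1 := (T.pos t1 p1 hδ h).sub ((T.pos hχ hχ0 hδ h).const_mul M)
  rw [mul_zero, sub_zero] at k1
  refine k1.congr fun n => ?_
  have c0 : ContinuousOn (fun z => u n z * g n z * k n z) Ω :=
    ((D.us n).continuousOn.mul (T.D'.us n).continuousOn).mul (D.gs n).continuousOn
  have i1 : Integrable (fun z => (ψ z + M * χ z) * (u n z * g n z * k n z)) :=
    Pool.Agent.W311.RW.int_mul D.op t1 c0
  have i2 : Integrable (fun z => χ z * (u n z * g n z * k n z)) :=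
    Pool.Agent.W311.RW.int_mul D.op hχ c0
  simp only [JT]
  rw [← integral_const_mul, ← integral_sub i1 (i2.const_mul _)]
  congr 1; funext z
  ring

end

end Pool.Agent.Run7.h9.TC
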