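import Mathlib

/-!
# Algebra of the joint four-point functions of two ladders

`A` is the ring of Laurent polynomials in `x, y` (first ladder) and `u, w` (second ladder). A family
of values `D` on the monomials defines an `R`-linear functional `LL D` on `A`. If `D` satisfies the
translation relations `T`, `T'` and the null relation `N`, then the functional factors through the
quotient of `A` in which `r₁ = |x + s u|²` and its conjugate `r₁'` have sum `2 + 2 s² - X` and
product `(1 - s²)²`, `X = |x + y|²`.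
-/

set_option autoImplicit false

namespace Pool.Agent.Run7.h9.TC

open AddMonoidAlgebra

noncomputable section

/-- exponents -/
abbrev Ga := ℤ × ℤ × ℤ × ℤ

/-- power sums of the roots of `z² - t z + d` -/
def pw {A : Type*} [CommRing A] (t d : A) : ℕ → A
  | 0 => 2
  | 1 => t
  | (n + 2) => t * pw t d (n + 1) - d * pw t d n

lemma pw_add {A : Type*} [CommRing A] (a b : A) (k : ℕ) : pw (a + b) (a * b) k = a ^ k + b ^ k := by
  induction k using Nat.twoStepInduction with
  | zero => simp [pw]; norm_num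
  | one => simp [pw]
  | more n h1 h2 =>
    rw [pw, h1, h2]
    ring

lemma pw_map {A B : Type*} [CommRing A] [CommRing B] (f : A →+* B) (t d : A) (k : ℕ) :
    f (pw t d k) = pw (f t) (f d) k := by
  induction k using Nat.twoStepInduction with
  | zero => exact map_ofNat f 2
  | one => simp [pw]
  | more n h1 h2 => rw [pw, map_sub, map_mul, map_mul, h1, h2, pw]

section

variable {R : Type*} [CommRing R] {V : Type*} [AddCommGroup V] [Module R V]

/-- the linear functional with the given values on the monomials -/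
def LL {G : Type*} (D : G → V) : AddMonoidAlgebra R G →ₗ[R] V :=
  (Finsupp.linearCombination R D) ∘ₗ (coeffLinearEquiv R).toLinearMap

@[simp] lemma LL_single {G : Type*} (D : G → V) (m : G) (r : R) :
    LL D (single m r : AddMonoidAlgebra R G) = r • D m := by
  show Finsupp.linearCombination R D (Finsupp.single m r) = _
  rw [Finsupp.linearCombination_single]

lemma LL_comp {G : Type*} {V' : Type*} [AddCommGroup V'] [Module R V'] (f : V →ₗ[R] V') (D : G → V)
    (P : AddMonoidAlgebra R G) : LL (fun m => f (D m)) P = f (LL D P) := by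
  induction P using AddMonoidAlgebra.induction_linear with
  | zero => simp
  | add p q hp hq => rw [map_add, map_add, map_add, hp, hq]
  | single m r => rw [LL_single, LL_single, map_smul]

lemma LL_map {G G' : Type*} [AddMonoid G] [AddMonoid G'] (i : G →+ G') (D : G' → V)
    (P : AddMonoidAlgebra R G) :
    LL D (mapDomainRingHom R i P) = LL (fun m => D (i m)) P := by
  induction P using AddMonoidAlgebra.induction_linear with
  | zero => simp
  | add p q hp hq => rw [map_add, map_add, map_add, hp, hq]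
  | single m r =>
    rw [LL_single]
    show LL D (mapDomain i (single m r)) = _
    rw [mapDomain_single, LL_single]

/-- the kernel ideal of a functional -/
def ker' {G : Type*} [AddCommMonoid G] (D : G → V) : Ideal (AddMonoidAlgebra R G) where
  carrier := {P | ∀ Q, LL D (P * Q) = 0}
  add_mem' := fun {a b} ha hb Q => by rw [add_mul, map_add, ha, hb, add_zero]
  zero_mem' := fun Q => by rw [zero_mul, map_zero]
  smul_mem' := fun c x hx Q => by
    rw [smul_eq_mul, mul_comm c x, mul_assoc]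
    exact hx _

lemma mem_ker' {G : Type*} [AddCommMonoid G] {D : G → V} {P : AddMonoidAlgebra R G} :
    P ∈ ker' D ↔ ∀ Q, LL D (P * Q) = 0 := Iff.rfl

lemma ker_of {G : Type*} [AddCommMonoid G] {D : G → V} {P : AddMonoidAlgebra R G}
    (h : ∀ m, LL D (P * single m 1) = 0) : P ∈ ker' D := by
  intro Q
  induction Q using AddMonoidAlgebra.induction_linear with
  | zero => simp
  | add p q hp hq => rw [mul_add, map_add, hp, hq, add_zero]
  | single m r =>
    have e : P * single m r = r • (P * single m 1) := by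
      rw [← mul_smul_comm, smul_single', mul_one]
    rw [e, map_smul, h, smul_zero]

lemma ker_eq {G : Type*} [AddCommMonoid G] {D : G → V} {P P' : AddMonoidAlgebra R G}
    (h : P - P' ∈ ker' D) : LL D P = LL D P' := by
  have h1 := h 1
  rw [mul_one, map_sub] at h1
  exact sub_eq_zero.1 h1

/-- monomials -/
abbrev mn (a b c d : ℤ) : AddMonoidAlgebra R Ga := single (a, b, c, d) 1

lemma mn_mul (a b c d a' b' c' d' : ℤ) : (mn a b c d : AddMonoidAlgebra R Ga) * mn a' b' c' d' =
    mn (a + a') (b + b') (c + c') (d + d') := by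
  unfold mn
  rw [single_mul_single, one_mul]
  rfl

/-- the relations -/
structure Rel (s : R) (D : ℤ → ℤ → ℤ → ℤ → V) : Prop where
  sy : ∀ a b c d, D a b c d = D a b d c
  T : ∀ a b c d, D (a + 1) b c d + D a (b + 1) c d + s • (D a b (c + 1) d + D a b c (d + 1)) = 0
  T' : ∀ a b c d, D (a - 1) b c d + D a (b - 1) c d + s • (D a b (c - 1) d + D a b c (d - 1)) = 0
  N : ∀ a b c d, D (a + 1) (b + 1) (c - 1) (d - 1) + D (a - 1) (b - 1) (c + 1) (d + 1) =
    (2 : R) • D a b c d

/-- the uncurried values -/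
def Du (D : ℤ → ℤ → ℤ → ℤ → V) (m : Ga) : V := D m.1 m.2.1 m.2.2.1 m.2.2.2

@[simp] lemma LL_mn (D : ℤ → ℤ → ℤ → ℤ → V) (a b c d : ℤ) :
    LL (Du D) (mn a b c d : AddMonoidAlgebra R Ga) = D a b c d := by
  unfold mn
  rw [LL_single, one_smul]; rfl

/-- scalars -/
abbrev sc (r : R) : AddMonoidAlgebra R Ga := single 0 r

lemma sc_mul (r : R) (P : AddMonoidAlgebra R Ga) : sc r * P = r • P := by
  induction P using AddMonoidAlgebra.induction_linear with
  | zero => simp
  | add p q hp hq => rw [mul_add, hp, hq, smul_add]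
  | single m t =>
    unfold sc
    rw [single_mul_single, zero_add, smul_single']

variable (s : R)

/-- the variables -/
def vx : AddMonoidAlgebra R Ga := mn 1 0 0 0
def vx' : AddMonoidAlgebra R Ga := mn (-1) 0 0 0
def vy : AddMonoidAlgebra R Ga := mn 0 1 0 0
def vy' : AddMonoidAlgebra R Ga := mn 0 (-1) 0 0
def vu : AddMonoidAlgebra R Ga := mn 0 0 1 0
def vu' : AddMonoidAlgebra R Ga := mn 0 0 (-1) 0
def vw : AddMonoidAlgebra R Ga := mn 0 0 0 1
def vw' : AddMonoidAlgebra R Ga := mn 0 0 0 (-1)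

lemma one_mn : (1 : AddMonoidAlgebra R Ga) = mn 0 0 0 0 := rfl

lemma xx : (vx : AddMonoidAlgebra R Ga) * vx' = 1 := by
  unfold vx vx'; rw [mn_mul, one_mn]; norm_num
lemma yy : (vy : AddMonoidAlgebra R Ga) * vy' = 1 := by
  unfold vy vy'; rw [mn_mul, one_mn]; norm_num
lemma uu : (vu : AddMonoidAlgebra R Ga) * vu' = 1 := by
  unfold vu vu'; rw [mn_mul, one_mn]; norm_num
lemma ww : (vw : AddMonoidAlgebra R Ga) * vw' = 1 := by
  unfold vw vw'; rw [mn_mul, one_mn]; norm_num

/-- translation element -/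
def eT : AddMonoidAlgebra R Ga := vx + vy + sc s * (vu + vw)
def eT' : AddMonoidAlgebra R Ga := vx' + vy' + sc s * (vu' + vw')
/-- null element -/
def eN : AddMonoidAlgebra R Ga := 2 - vx * vy * (vu' * vw') - vx' * vy' * (vu * vw)
/-- the frequencies -/
def e1 : AddMonoidAlgebra R Ga := (vx + sc s * vu) * (vx' + sc s * vu')
def e2 : AddMonoidAlgebra R Ga := (vy + sc s * vw) * (vy' + sc s * vw')
def e1' : AddMonoidAlgebra R Ga := (vx + sc s * vw) * (vx' + sc s * vw')
def eX : AddMonoidAlgebra R Ga := (vx + vy) * (vx' + vy')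
def eY : AddMonoidAlgebra R Ga := sc s * sc s * ((vu + vw) * (vu' + vw'))

variable {s} {D : ℤ → ℤ → ℤ → ℤ → V}

lemma kT (h : Rel s D) : eT s ∈ ker' (Du D) := by
  refine ker_of fun m => ?_
  obtain ⟨a, b, c, d⟩ := m
  show LL (Du D) (eT s * mn a b c d) = 0
  have e : eT s * mn a b c d = mn (a + 1) b c d + mn a (b + 1) c d +
      s • (mn a b (c + 1) d + mn a b c (d + 1)) := by
    unfold eT vx vy vu vw
    rw [add_mul, add_mul, mul_assoc, add_mul, sc_mul, mn_mul, mn_mul, mn_mul, mn_mul]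
    simp only [zero_add, add_comm (1 : ℤ)]
  rw [e, map_add, map_add, map_smul, map_add, LL_mn, LL_mn, LL_mn, LL_mn]
  exact h.T a b c d

lemma kT' (h : Rel s D) : eT' s ∈ ker' (Du D) := by
  refine ker_of fun m => ?_
  obtain ⟨a, b, c, d⟩ := m
  show LL (Du D) (eT' s * mn a b c d) = 0
  have e : eT' s * mn a b c d = mn (a - 1) b c d + mn a (b - 1) c d +
      s • (mn a b (c - 1) d + mn a b c (d - 1)) := by
    unfold eT' vx' vy' vu' vw'
    rw [add_mul, add_mul, mul_assoc, add_mul, sc_mul, mn_mul, mn_mul, mn_mul, mn_mul]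
    simp only [zero_add, add_comm (-1 : ℤ), sub_eq_add_neg]
  rw [e, map_add, map_add, map_smul, map_add, LL_mn, LL_mn, LL_mn, LL_mn]
  exact h.T' a b c d

lemma kN (h : Rel s D) : (eN : AddMonoidAlgebra R Ga) ∈ ker' (Du D) := by
  refine ker_of fun m => ?_
  obtain ⟨a, b, c, d⟩ := m
  show LL (Du D) (eN * mn a b c d) = 0
  have e : (eN : AddMonoidAlgebra R Ga) * mn a b c d = (2 : R) • mn a b c d -
      mn (a + 1) (b + 1) (c - 1) (d - 1) - mn (a - 1) (b - 1) (c + 1) (d + 1) := by
    unfold eN vx vy vu vw vx' vy' vu' vw'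
    rw [sub_mul, sub_mul, mn_mul, mn_mul, mn_mul, mn_mul, mn_mul, mn_mul, mn_mul, mn_mul]
    simp only [zero_add, add_zero]
    rw [add_comm (1 : ℤ), add_comm (1 : ℤ), add_comm (-1 : ℤ), add_comm (-1 : ℤ)]
    simp only [← sub_eq_add_neg, add_comm (1 : ℤ), add_comm (-1 : ℤ)]
    congr 2
    · rw [two_mul, two_smul]
  rw [e, map_sub, map_sub, map_smul, LL_mn, LL_mn, LL_mn, ← h.N a b c d]
  abel

open Polynomial in
/-- the polynomial whose values at the two frequencies over `X` add up -/
def EM (s : R) (M : R[X]) : R[X] :=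
  M.sum fun k c => Polynomial.C c * pw (Polynomial.C (2 + 2 * s ^ 2) - Polynomial.X)
    (Polynomial.C ((1 - s ^ 2) ^ 2)) k

open Polynomial in
/-- the polynomial with zeros at the exceptional frequencies -/
def qP (s : R) : R[X] := (Polynomial.X ^ 2 - Polynomial.C (2 + 2 * s ^ 2) * Polynomial.X +
  Polynomial.C ((1 - s ^ 2) ^ 2)) * (Polynomial.X ^ 2 - Polynomial.C ((1 - s ^ 2) ^ 2))

open Polynomial in
def PP : R[X] := Polynomial.X * (4 - Polynomial.X)

open Polynomial in
def QQ (s : R) : R[X] := Polynomial.X * (Polynomial.C (4 * s ^ 2) - Polynomial.X)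

/-- exchange of `u` and `w` -/
def swp : Ga →+ Ga where
  toFun m := (m.1, m.2.1, m.2.2.2, m.2.2.1)
  map_zero' := rfl
  map_add' _ _ := rfl

/-- the corresponding automorphism -/
def tau : AddMonoidAlgebra R Ga →+* AddMonoidAlgebra R Ga := mapDomainRingHom R swp

lemma tau_single (m : Ga) (r : R) : tau (single m r) = single (swp m) r := by
  show mapDomain swp (single m r) = _
  rw [mapDomain_single]

lemma LL_tau (h : Rel s D) (P : AddMonoidAlgebra R Ga) : LL (Du D) (tau P) = LL (Du D) P := by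
  unfold tau
  rw [LL_map]
  congr 1
  congr 1
  funext m
  exact (h.sy _ _ _ _).symm

lemma tau_vx : tau (vx : AddMonoidAlgebra R Ga) = vx := tau_single _ _
lemma tau_vx' : tau (vx' : AddMonoidAlgebra R Ga) = vx' := tau_single _ _
lemma tau_vy : tau (vy : AddMonoidAlgebra R Ga) = vy := tau_single _ _
lemma tau_vy' : tau (vy' : AddMonoidAlgebra R Ga) = vy' := tau_single _ _
lemma tau_vu : tau (vu : AddMonoidAlgebra R Ga) = vw := tau_single _ _
lemma tau_vu' : tau (vu' : AddMonoidAlgebra R Ga) = vw' := tau_single _ _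
lemma tau_sc (r : R) : tau (sc r) = sc r := tau_single _ _

lemma alg_sc (r : R) : algebraMap R (AddMonoidAlgebra R Ga) r = sc r := rfl

lemma tau_e1 : tau (e1 s) = e1' s := by
  unfold e1 e1'
  rw [map_mul, map_add, map_add, map_mul, map_mul, tau_vx, tau_vx', tau_vu, tau_vu', tau_sc]

lemma tau_eX : tau (eX : AddMonoidAlgebra R Ga) = eX := by
  unfold eX
  rw [map_mul, map_add, map_add, tau_vx, tau_vx', tau_vy, tau_vy']

open Polynomial in
lemma tau_aeval (z : AddMonoidAlgebra R Ga) (M : R[X]) :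
    tau (Polynomial.aeval z M) = Polynomial.aeval (tau z) M := by
  rw [Polynomial.aeval_def, Polynomial.aeval_def, Polynomial.hom_eval₂]
  congr 1
  ext r : 1
  exact tau_sc r

/-- the projection to the quotient -/
abbrev pr (D : ℤ → ℤ → ℤ → ℤ → V) : AddMonoidAlgebra R Ga →+* AddMonoidAlgebra R Ga ⧸ ker' (Du D) :=
  Ideal.Quotient.mk (ker' (Du D))

lemma LL_pr {P P' : AddMonoidAlgebra R Ga} (h : pr D P = pr D P') : LL (Du D) P = LL (Du D) P' :=
  ker_eq (Ideal.Quotient.eq.1 h)

section rels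

variable (h : Rel s D)
include h

lemma pT : pr D (eT s) = 0 := Ideal.Quotient.eq_zero_iff_mem.2 (kT h)
lemma pT' : pr D (eT' s) = 0 := Ideal.Quotient.eq_zero_iff_mem.2 (kT' h)
lemma pN : pr D (eN : AddMonoidAlgebra R Ga) = 0 := Ideal.Quotient.eq_zero_iff_mem.2 (kN h)

lemma p12 : pr D (e1 s) = pr D (e2 s) := by
  have e : e1 s - e2 s = eT s * (vx' + sc s * vu') - (vy + sc s * vw) * eT' s := by
    unfold e1 e2 eT eT'; ring
  have h1 := congrArg (pr D) e
  rw [map_sub, map_sub, map_mul, map_mul, pT h, pT' h, zero_mul, mul_zero, sub_zero] at h1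
  exact sub_eq_zero.1 h1

lemma pXY : pr D eX = pr D (eY s) := by
  have e : (eX : AddMonoidAlgebra R Ga) - eY s = eT s * (vx' + vy') -
      (sc s * (vu + vw)) * eT' s := by
    unfold eX eY eT eT'; ring
  have h1 := congrArg (pr D) e
  rw [map_sub, map_sub, map_mul, map_mul, pT h, pT' h, zero_mul, mul_zero, sub_zero] at h1
  exact sub_eq_zero.1 h1

lemma psum : pr D (e1 s) + pr D (e1' s) = pr D (2 + 2 * (sc s * sc s) - eX) := by
  have e : e1 s + e1' s - (2 + 2 * (sc s * sc s) - eX) = eT s * vx' + vx * eT' s := by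
    have h1 := xx (R := R)
    have h2 := yy (R := R)
    have h3 := uu (R := R)
    have h4 := ww (R := R)
    unfold e1 e1' eX eT eT'
    linear_combination (1 : AddMonoidAlgebra R Ga) * h1 + h2 + sc s * sc s * h3 + sc s * sc s * h4
  have h1 := congrArg (pr D) e
  rw [map_sub, map_add, map_add, map_mul, map_mul, pT h, pT' h, zero_mul, mul_zero, add_zero] at h1
  exact sub_eq_zero.1 h1

lemma pprod : pr D (e1 s) * pr D (e1' s) = pr D ((1 - sc s * sc s) ^ 2) := by
  have e : e1 s * e1' s - (1 - sc s * sc s) ^ 2 = sc s * sc s * eN +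
      eT s * (vx * ((vx' + sc s * vu') * (vx' + sc s * vw'))) +
      ((sc s * sc s * (vu * vw) - vx * vy) * vx') * eT' s := by
    have h1 := xx (R := R)
    have h2 := yy (R := R)
    have h3 := uu (R := R)
    have h4 := ww (R := R)
    unfold e1 e1' eN eT eT'
    have k1 : vx * vy * (vx' * vy') = (1 : AddMonoidAlgebra R Ga) := by
      linear_combination (vy * vy') * h1 + h2
    have k2 : vu * vw * (vu' * vw') = (1 : AddMonoidAlgebra R Ga) := by
      linear_combination (vw * vw') * h3 + h4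
    linear_combination k1 + (sc s * sc s * (sc s * sc s)) * k2
  have h1 := congrArg (pr D) e
  rw [map_sub, map_add, map_add, map_mul _ (e1 s), map_mul _ (sc s * sc s), map_mul _ (eT s),
    map_mul _ _ (eT' s), pT h, pT' h, pN h] at h1
  simp only [zero_mul, mul_zero, add_zero] at h1
  exact sub_eq_zero.1 h1

open Polynomial in
lemma pEM (M : R[X]) : pr D (Polynomial.aeval (e1 s) M) + pr D (Polynomial.aeval (e1' s) M) =
    pr D (Polynomial.aeval eX (EM s M)) := by
  have k1 : (2 : AddMonoidAlgebra R Ga) + 2 * (sc s * sc s) - eX = Polynomial.aeval eX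
      (Polynomial.C (2 + 2 * s ^ 2) - Polynomial.X) := by
    rw [map_sub, Polynomial.aeval_X, Polynomial.aeval_C, map_add, map_mul, map_pow, map_ofNat,
      alg_sc]
    ring
  have k2 : ((1 : AddMonoidAlgebra R Ga) - sc s * sc s) ^ 2 = Polynomial.aeval eX
      (Polynomial.C ((1 - s ^ 2) ^ 2)) := by
    rw [Polynomial.aeval_C, map_pow, map_sub, map_one, map_pow, alg_sc]
    ring
  have k3 : ∀ k : ℕ, pr D (e1 s) ^ k + pr D (e1' s) ^ k = pr D (Polynomial.aeval eX
      (pw (Polynomial.C (2 + 2 * s ^ 2) - Polynomial.X) (Polynomial.C ((1 - s ^ 2) ^ 2)) k)) := by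
    intro k
    rw [← pw_add, psum h, pprod h, k1, k2]
    have := pw_map (A := R[X]) ((pr D).comp ((Polynomial.aeval (eX : AddMonoidAlgebra R Ga) :
      R[X] →ₐ[R] AddMonoidAlgebra R Ga) : R[X] →+* AddMonoidAlgebra R Ga))
      (Polynomial.C (2 + 2 * s ^ 2) - Polynomial.X) (Polynomial.C ((1 - s ^ 2) ^ 2)) k
    exact this.symm
  unfold EM
  rw [Polynomial.aeval_def, Polynomial.aeval_def, Polynomial.eval₂_eq_sum, Polynomial.eval₂_eq_sum,
    Polynomial.sum_def, Polynomial.sum_def, Polynomial.sum_def, map_sum, map_sum, map_sum, map_sum,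
    ← Finset.sum_add_distrib]
  refine Finset.sum_congr rfl fun k _ => ?_
  rw [map_mul, map_mul, map_mul, map_mul, map_pow, map_pow, ← mul_add, k3, Polynomial.aeval_C]

open Polynomial in
/-- the square of the main polynomial -/
lemma pF (G : R[X]) : pr D (Polynomial.aeval (e1 s) (qP s * G) ^ 2) =
    pr D (Polynomial.aeval eX (PP * QQ s) * Polynomial.aeval (e1 s) (Polynomial.X ^ 4 * G ^ 2)) := by
  have a1 := psum h
  have a2 := pprod h
  obtain ⟨z, hz⟩ : ∃ z, z = pr D (e1 s) := ⟨_, rfl⟩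
  obtain ⟨z', hz'⟩ : ∃ z, z = pr D (e1' s) := ⟨_, rfl⟩
  obtain ⟨x, hx⟩ : ∃ x, x = pr D (eX : AddMonoidAlgebra R Ga) := ⟨_, rfl⟩
  obtain ⟨t, ht⟩ : ∃ t, t = pr D (sc s) := ⟨_, rfl⟩
  obtain ⟨g, hg⟩ : ∃ g, g = pr D (Polynomial.aeval (e1 s) G) := ⟨_, rfl⟩
  rw [← hz, ← hz', map_sub, map_add, map_mul, map_mul, map_ofNat, ← hx, ← ht] at a1
  rw [← hz, ← hz', map_pow, map_sub, map_mul, map_one, ← ht] at a2
  have b1 : pr D (Polynomial.aeval (e1 s) (qP s)) =
      (z ^ 2 - (2 + 2 * t ^ 2) * z + (1 - t ^ 2) ^ 2) * (z ^ 2 - (1 - t ^ 2) ^ 2) := by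
    unfold qP
    simp only [map_mul, map_sub, map_add, map_pow, Polynomial.aeval_X, Polynomial.aeval_C, map_one,
      map_ofNat, alg_sc, ← hz, ← ht]
  have b2 : pr D (Polynomial.aeval eX (PP * QQ s)) = x * (4 - x) * (x * (4 * t ^ 2 - x)) := by
    unfold PP QQ
    simp only [map_mul, map_sub, map_pow, Polynomial.aeval_X, Polynomial.aeval_C,
      map_ofNat, alg_sc, ← hx, ← ht]
  have b3 : pr D (Polynomial.aeval (e1 s) (Polynomial.X ^ 4 * G ^ 2)) = z ^ 4 * g ^ 2 := by
    simp only [map_mul, map_pow, Polynomial.aeval_X, ← hz, ← hg]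
  rw [map_pow, map_mul, map_mul, map_mul, b1, b2, b3, ← hg]
  have c1 : z ^ 2 - (2 + 2 * t ^ 2) * z + (1 - t ^ 2) ^ 2 = -(x * z) := by
    linear_combination z * a1 - a2
  have c2 : z ^ 2 - (1 - t ^ 2) ^ 2 = z * (z - z') := by
    linear_combination a2
  have c3 : (z - z') ^ 2 = (4 - x) * (4 * t ^ 2 - x) := by
    linear_combination (z + z' + (2 + 2 * (t * t) - x)) * a1 - 4 * a2
  rw [c1, c2]
  linear_combination (x ^ 2 * z ^ 4 * g ^ 2) * c3

open Polynomial in
/-- **The joint power spectrum, algebraic form** -/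
theorem main_alg (G : R[X]) : (2 : R) • LL (Du D) (Polynomial.aeval (e1 s) (qP s * G) *
      Polynomial.aeval (e2 s) (qP s * G)) =
    LL (Du D) (Polynomial.aeval eX (PP : R[X]) *
      Polynomial.aeval (eY s) (QQ s * EM s (Polynomial.X ^ 4 * G ^ 2))) := by
  have q12 : ∀ M : R[X], pr D (Polynomial.aeval (e1 s) M) = pr D (Polynomial.aeval (e2 s) M) := by
    intro M
    rw [Polynomial.aeval_def, Polynomial.aeval_def, Polynomial.hom_eval₂, Polynomial.hom_eval₂,
      p12 h]
  have qXY : ∀ M : R[X], pr D (Polynomial.aeval (eX : AddMonoidAlgebra R Ga) M) =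
      pr D (Polynomial.aeval (eY s) M) := by
    intro M
    rw [Polynomial.aeval_def, Polynomial.aeval_def, Polynomial.hom_eval₂, Polynomial.hom_eval₂,
      pXY h]
  obtain ⟨Z, hZ⟩ : ∃ Z, Z = Polynomial.aeval (eX : AddMonoidAlgebra R Ga) (PP * QQ s) := ⟨_, rfl⟩
  obtain ⟨M, hM⟩ : ∃ M : R[X], M = Polynomial.X ^ 4 * G ^ 2 := ⟨_, rfl⟩
  have s1 : LL (Du D) (Polynomial.aeval (e1 s) (qP s * G) * Polynomial.aeval (e2 s) (qP s * G)) =
      LL (Du D) (Z * Polynomial.aeval (e1 s) M) := by
    refine LL_pr ?_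
    rw [hZ, hM, ← pF h, map_mul, ← q12, map_pow, sq]
  have s2 : LL (Du D) (Z * Polynomial.aeval (e1 s) M) =
      LL (Du D) (Z * Polynomial.aeval (e1' s) M) := by
    rw [← LL_tau h (Z * Polynomial.aeval (e1 s) M), map_mul, hZ, tau_aeval, tau_aeval, tau_eX,
      tau_e1]
  rw [s1, two_smul]
  nth_rewrite 2 [s2]
  rw [← map_add]
  refine LL_pr ?_
  rw [map_add, map_mul, map_mul, ← mul_add, pEM h, map_mul (pr D) (Polynomial.aeval eX PP), ← qXY,
    ← hM, map_mul (Polynomial.aeval eX) (QQ s), hZ, map_mul (Polynomial.aeval eX), map_mul, map_mul]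
  ring

end rels

end

end

end Pool.Agent.Run7.h9.TC
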