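import Pool.Agent.Run7.h9.TC.Wick
import Pool.Agent.Y265.HY.JC3

/-! The spectral integrals: continuity, and polynomials which pick a frequency. -/
set_option autoImplicit false
open MeasureTheory Filter Topology Polynomial

namespace Pool.Agent.Run7.h9.TC

open Pool.Agent.Y265.HY.JC (gI cnt)

noncomputable section

section maps

variable {R R' : Type*} [CommRing R] [CommRing R'] (f : R →+* R')

lemma EM_map (s : R) (M : R[X]) : (EM s M).map f = EM (f s) (M.map f) := by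
  have e1 : ∀ k, (pw (C (2 + 2 * s ^ 2) - X) (C ((1 - s ^ 2) ^ 2)) k : R[X]).map f =
      pw (C (2 + 2 * f s ^ 2) - X) (C ((1 - f s ^ 2) ^ 2)) k := by
    intro k
    have h := pw_map (Polynomial.mapRingHom f) (C (2 + 2 * s ^ 2) - X) (C ((1 - s ^ 2) ^ 2)) k
    rw [Polynomial.coe_mapRingHom] at h
    rw [h]
    have f2 : f 2 = 2 := map_ofNat f 2
    simp [f2]
  unfold EM
  rw [Polynomial.sum_def, Polynomial.sum_def, Polynomial.map_sum,
    Finset.sum_subset (Polynomial.support_map_subset f M)]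
  · refine Finset.sum_congr rfl fun k _ => ?_
    rw [Polynomial.map_mul, Polynomial.map_C, e1, Polynomial.coeff_map]
  · intro i _ hi
    rw [Polynomial.notMem_support_iff.1 hi, Polynomial.C_0, zero_mul]

lemma qP_map (s : R) : (qP s).map f = qP (f s) := by
  have f2 : f 2 = 2 := map_ofNat f 2
  unfold qP; simp [f2]
lemma QQ_map (s : R) : (QQ s).map f = QQ (f s) := by
  have f4 : f 4 = 4 := map_ofNat f 4
  unfold QQ; simp [f4]
lemma PP_map : (PP : R[X]).map f = PP := by unfold PP; simp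

end maps

lemma EM_ev (s : ℝ) (M : ℝ[X]) (Y : ℝ) : (EM s M).eval Y =
    ∑ k ∈ M.support, M.coeff k * pw (2 + 2 * s ^ 2 - Y) ((1 - s ^ 2) ^ 2) k := by
  unfold EM
  rw [Polynomial.sum_def, Polynomial.eval_finsetSum]
  refine Finset.sum_congr rfl fun k _ => ?_
  rw [Polynomial.eval_mul, Polynomial.eval_C]
  have h := pw_map (Polynomial.evalRingHom Y) (C (2 + 2 * s ^ 2) - X) (C ((1 - s ^ 2) ^ 2)) k
  rw [Polynomial.coe_evalRingHom] at h
  rw [h]
  simp

lemma EM_root {s : ℝ} (M : ℝ[X]) {Y a b : ℝ} (h1 : a + b = 2 + 2 * s ^ 2 - Y)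
    (h2 : a * b = (1 - s ^ 2) ^ 2) : (EM s M).eval Y = M.eval a + M.eval b := by
  rw [EM_ev, ← h1, ← h2, Polynomial.eval_eq_sum, Polynomial.eval_eq_sum, Polynomial.sum_def,
    Polynomial.sum_def, ← Finset.sum_add_distrib]
  refine Finset.sum_congr rfl fun k _ => ?_
  rw [pw_add]; ring

lemma pw_cont {T : Type*} [TopologicalSpace T] {t d : T → ℝ} (ht : Continuous t)
    (hd : Continuous d) (k : ℕ) : Continuous fun x => pw (t x) (d x) k := by
  induction k using Nat.twoStepInduction with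
  | zero => exact continuous_const
  | one => exact ht
  | more n h1 h2 => exact (ht.mul h2).sub (hd.mul h1)

/-- the second polynomial, real form -/
def RQ (G : ℝ[X]) (s : ℝ) : ℝ[X] :=
  (QQ s * EM s (X ^ 4 * G ^ 2)).comp (C (s * s) * X)

lemma RQ_ev (G : ℝ[X]) (s x : ℝ) : (RQ G s).eval x = (s * s * x) * (4 * s ^ 2 - s * s * x) *
    (EM s (X ^ 4 * G ^ 2)).eval (s * s * x) := by
  unfold RQ QQ
  simp only [Polynomial.eval_comp, Polynomial.eval_mul, Polynomial.eval_X, Polynomial.eval_C,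
    Polynomial.eval_sub]

lemma RQ_0 (G : ℝ[X]) (s : ℝ) : (RQ G s).eval 0 = 0 := by rw [RQ_ev]; simp
lemma RQ_4 (G : ℝ[X]) (s : ℝ) : (RQ G s).eval 4 = 0 := by rw [RQ_ev]; ring

lemma gI_RQ_cont (G : ℝ[X]) : Continuous fun s => gI (RQ G s) := by
  unfold gI
  refine continuous_const.mul ?_
  refine intervalIntegral.continuous_parametric_intervalIntegral_of_continuous' (μ := volume)
    (f := fun (s θ : ℝ) =>
    (RQ G s).eval (2 - 2 * Real.cos θ) ^ 2) ?_ _ _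
  simp only [Function.uncurry_def, RQ_ev, EM_ev]
  have c1 : Continuous fun p : ℝ × ℝ => p.1 * p.1 * (2 - 2 * Real.cos p.2) := by fun_prop
  refine Continuous.pow (((c1).mul (by fun_prop)).mul (continuous_finsetSum _ fun k _ =>
    continuous_const.mul (pw_cont ?_ ?_ k))) 2
  · fun_prop
  · fun_prop

lemma qP_ev (s x : ℝ) : (qP s).eval x = (x ^ 2 - (2 + 2 * s ^ 2) * x + (1 - s ^ 2) ^ 2) *
    (x ^ 2 - (1 - s ^ 2) ^ 2) := by
  unfold qP
  simp only [Polynomial.eval_mul, Polynomial.eval_sub, Polynomial.eval_add, Polynomial.eval_pow,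
    Polynomial.eval_X, Polynomial.eval_C]

lemma WI_cont (G : ℝ[X]) : Continuous fun s => WI (qP s * G) s := by
  unfold WI
  refine continuous_const.mul ?_
  refine intervalIntegral.continuous_parametric_intervalIntegral_of_continuous' (μ := volume)
    (f := fun (s θ : ℝ) =>
    (qP s * G).eval (1 + s ^ 2 + 2 * s * Real.cos θ) ^ 2) ?_ _ _
  simp only [Function.uncurry_def, Polynomial.eval_mul, qP_ev]
  have c1 : Continuous fun p : ℝ × ℝ => 1 + p.1 ^ 2 + 2 * p.1 * Real.cos p.2 := by fun_prop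
  have c2 : Continuous fun p : ℝ × ℝ => G.eval (1 + p.1 ^ 2 + 2 * p.1 * Real.cos p.2) :=
    G.continuous.comp c1
  fun_prop

/-- the base polynomial -/
def g0 (R : ℝ) : ℝ[X] := 1 - C (1 / (5 + R) ^ 2) * (X - C R) ^ 2

lemma g0_ev (R x : ℝ) : (g0 R).eval x = 1 - 1 / (5 + R) ^ 2 * (x - R) ^ 2 := by
  unfold g0; simp

lemma g0_R (R : ℝ) : (g0 R).eval R = 1 := by rw [g0_ev]; simp

lemma g0_bd {R : ℝ} (hR : 0 ≤ R) {x : ℝ} (hx : x ∈ Set.Icc (0 : ℝ) 4) :
    |(g0 R).eval x| ≤ 1 ∧ (x ≠ R → |(g0 R).eval x| < 1) := by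
  rw [g0_ev]
  have h1 : 0 ≤ 1 / (5 + R) ^ 2 * (x - R) ^ 2 := by positivity
  have h2 : 1 / (5 + R) ^ 2 * (x - R) ^ 2 < 1 := by
    rw [one_div, inv_mul_lt_iff₀ (by positivity), mul_one]
    have a1 := hx.1
    have a2 := hx.2
    nlinarith
  refine ⟨?_, fun hn => ?_⟩
  · rw [abs_le]; constructor <;> linarith
  · have h3 : 0 < 1 / (5 + R) ^ 2 * (x - R) ^ 2 := by
      have : x - R ≠ 0 := sub_ne_zero.2 hn
      positivity
    rw [abs_lt]; constructor <;> linarith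

lemma WI_lim {s R : ℝ} (hs : 0 < s) (hs1 : s ≤ 1) (hR : 0 ≤ R) :
    Tendsto (fun K : ℕ => WI (qP s * g0 R ^ K) s) atTop (𝓝 0) := by
  have hx : ∀ θ : ℝ, 1 + s ^ 2 + 2 * s * Real.cos θ ∈ Set.Icc (0 : ℝ) 4 := fun θ => by
    have a1 := Real.cos_le_one θ
    have a2 := Real.neg_one_le_cos θ
    constructor
    · nlinarith [sq_nonneg (1 - s)]
    · nlinarith
  have c0 : Continuous fun θ : ℝ => 1 + s ^ 2 + 2 * s * Real.cos θ := by fun_prop
  have c1 : ∀ P : ℝ[X], Continuous fun θ : ℝ => P.eval (1 + s ^ 2 + 2 * s * Real.cos θ) ^ 2 :=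
    fun P => (P.continuous.comp c0).pow 2
  have key : Tendsto (fun K : ℕ => ∫ θ in (0 : ℝ)..(2 * Real.pi),
      (qP s * g0 R ^ K).eval (1 + s ^ 2 + 2 * s * Real.cos θ) ^ 2) atTop
      (𝓝 (∫ _θ in (0 : ℝ)..(2 * Real.pi), (0 : ℝ))) := by
    refine intervalIntegral.tendsto_integral_filter_of_dominated_convergence
      (fun θ => (qP s).eval (1 + s ^ 2 + 2 * s * Real.cos θ) ^ 2)
      (Eventually.of_forall fun N => (c1 _).aestronglyMeasurable)
      (Eventually.of_forall fun N => ae_of_all _ fun θ _ => ?_)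
      ((c1 _).intervalIntegrable _ _) ?_
    · rw [Real.norm_eq_abs, abs_of_nonneg (sq_nonneg _), Polynomial.eval_mul, Polynomial.eval_pow,
        mul_pow]
      have h4 := (g0_bd hR (hx θ)).1
      have h5 : ((g0 R).eval (1 + s ^ 2 + 2 * s * Real.cos θ) ^ N) ^ 2 ≤ 1 := by
        rw [← sq_abs, abs_pow]
        exact pow_le_one₀ (by positivity) (pow_le_one₀ (abs_nonneg _) h4)
      exact mul_le_of_le_one_right (sq_nonneg _) h5
    · have h6 : ∀ᵐ θ : ℝ, θ ∉ {θ : ℝ | Real.cos θ = (R - 1 - s ^ 2) / (2 * s)} :=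
        measure_eq_zero_iff_ae_notMem.1 ((cnt _).measure_zero volume)
      filter_upwards [h6] with θ hθ _
      have h7 : 1 + s ^ 2 + 2 * s * Real.cos θ ≠ R := by
        intro h8
        apply hθ
        show Real.cos θ = _
        rw [eq_div_iff (by positivity)]
        linarith
      have h9 := (g0_bd hR (hx θ)).2 h7
      have h10 := tendsto_pow_atTop_nhds_zero_of_abs_lt_one h9
      have h11 := (h10.const_mul ((qP s).eval (1 + s ^ 2 + 2 * s * Real.cos θ))).pow 2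
      simp only [mul_zero, ne_eq, OfNat.ofNat_ne_zero, not_false_eq_true, zero_pow] at h11
      refine h11.congr fun N => ?_
      rw [Polynomial.eval_mul, Polynomial.eval_pow]
  have k2 := key.const_mul (1 / (2 * Real.pi))
  simpa [WI] using k2

/-- the two frequencies over `Y` -/
lemma roots {s : ℝ} (hs : 0 < s) (hs1 : s ≤ 1) {Y : ℝ} (hY0 : 0 ≤ Y) (hY : Y ≤ 4 * s ^ 2) :
    ∃ a b : ℝ, a + b = 2 + 2 * s ^ 2 - Y ∧ a * b = (1 - s ^ 2) ^ 2 ∧ a ∈ Set.Icc (0 : ℝ) 4 ∧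
      b ∈ Set.Icc (0 : ℝ) 4 := by
  have s2 : s ^ 2 ≤ 1 := by nlinarith
  have hd : 0 ≤ (4 - Y) * (4 * s ^ 2 - Y) := mul_nonneg (by nlinarith) (by linarith)
  obtain ⟨q, hq⟩ : ∃ q, q = √((4 - Y) * (4 * s ^ 2 - Y)) := ⟨_, rfl⟩
  have q0 : 0 ≤ q := by rw [hq]; exact Real.sqrt_nonneg _
  have q2 : q ^ 2 = (4 - Y) * (4 * s ^ 2 - Y) := by rw [hq]; exact Real.sq_sqrt hd
  have e : q ^ 2 = (2 + 2 * s ^ 2 - Y) ^ 2 - 4 * (1 - s ^ 2) ^ 2 := by rw [q2]; ring
  have t0 : 0 ≤ 2 + 2 * s ^ 2 - Y := by nlinarith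
  have qt : q ≤ 2 + 2 * s ^ 2 - Y := by
    refine abs_le_of_sq_le_sq' ?_ t0 |>.2
    rw [e]; nlinarith [sq_nonneg (1 - s ^ 2)]
  refine ⟨(2 + 2 * s ^ 2 - Y + q) / 2, (2 + 2 * s ^ 2 - Y - q) / 2, by ring, ?_, ⟨by linarith,
    by nlinarith⟩, ⟨by linarith, by nlinarith⟩⟩
  have : (2 + 2 * s ^ 2 - Y + q) / 2 * ((2 + 2 * s ^ 2 - Y - q) / 2) =
    ((2 + 2 * s ^ 2 - Y) ^ 2 - q ^ 2) / 4 := by ring
  rw [this, e]; ring

lemma MK_bd {R : ℝ} (hR : 0 ≤ R) {x : ℝ} (hx : x ∈ Set.Icc (0 : ℝ) 4) (K : ℕ) :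
    |(X ^ 4 * (g0 R ^ K) ^ 2 : ℝ[X]).eval x| ≤ 256 := by
  have h4 := (g0_bd hR hx).1
  rw [Polynomial.eval_mul, Polynomial.eval_pow, Polynomial.eval_X, Polynomial.eval_pow,
    Polynomial.eval_pow, abs_mul, abs_pow, abs_pow, abs_pow]
  have h5 : |x| ≤ 4 := by rw [abs_of_nonneg hx.1]; exact hx.2
  have h6 : |x| ^ 4 ≤ 4 ^ 4 := pow_le_pow_left₀ (abs_nonneg _) h5 4
  have h7 : (|(g0 R).eval x| ^ K) ^ 2 ≤ 1 :=
    pow_le_one₀ (by positivity) (pow_le_one₀ (abs_nonneg _) h4)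
  calc |x| ^ 4 * (|(g0 R).eval x| ^ K) ^ 2 ≤ 4 ^ 4 * 1 :=
        mul_le_mul h6 h7 (by positivity) (by positivity)
    _ = 256 := by norm_num

lemma MK_lim {R : ℝ} (hR : 0 ≤ R) {x : ℝ} (hx : x ∈ Set.Icc (0 : ℝ) 4) (hxR : x ≠ R ∨ x = 0) :
    Tendsto (fun K : ℕ => (X ^ 4 * (g0 R ^ K) ^ 2 : ℝ[X]).eval x) atTop (𝓝 0) := by
  simp only [Polynomial.eval_mul, Polynomial.eval_pow, Polynomial.eval_X]
  rcases hxR with h | h
  · have h9 := (g0_bd hR hx).2 h
    have h10 := tendsto_pow_atTop_nhds_zero_of_abs_lt_one h9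
    have h11 := (h10.pow 2).const_mul (x ^ 4)
    simpa using h11
  · rw [h]; simp

lemma gI_RQ_lim {s R : ℝ} (hs : 0 < s) (hs1 : s ≤ 1) (hR : 0 ≤ R) :
    Tendsto (fun K : ℕ => gI (RQ (g0 R ^ K) s)) atTop (𝓝 0) := by
  have hx : ∀ θ : ℝ, 0 ≤ s * s * (2 - 2 * Real.cos θ) ∧
      s * s * (2 - 2 * Real.cos θ) ≤ 4 * s ^ 2 := fun θ => by
    have a1 := Real.cos_le_one θ
    have a2 := Real.neg_one_le_cos θ
    have a3 : 0 < s * s := by positivity
    constructor <;> nlinarith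
  have key : Tendsto (fun K : ℕ => ∫ θ in (0 : ℝ)..(2 * Real.pi),
      (RQ (g0 R ^ K) s).eval (2 - 2 * Real.cos θ) ^ 2) atTop
      (𝓝 (∫ _θ in (0 : ℝ)..(2 * Real.pi), (0 : ℝ))) := by
    refine intervalIntegral.tendsto_integral_filter_of_dominated_convergence
      (fun θ => ((16 * 512 : ℝ)) ^ 2)
      (Eventually.of_forall fun N => Continuous.aestronglyMeasurable (((RQ (g0 R ^ N)
        s).continuous.comp (by fun_prop)).pow 2))
      (Eventually.of_forall fun N => ae_of_all _ fun θ _ => ?_)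
      (continuous_const.intervalIntegrable _ _) ?_
    · obtain ⟨y0, y1⟩ := hx θ
      obtain ⟨a, b, h1, h2, ha, hb⟩ := roots hs hs1 y0 y1
      rw [Real.norm_eq_abs, abs_pow, RQ_ev, EM_root _ h1 h2]
      refine pow_le_pow_left₀ (abs_nonneg _) ?_ 2
      have m1 := MK_bd hR ha N
      have m2 := MK_bd hR hb N
      have m3 := abs_add_le ((X ^ 4 * (g0 R ^ N) ^ 2 : ℝ[X]).eval a)
        ((X ^ 4 * (g0 R ^ N) ^ 2 : ℝ[X]).eval b)
      rw [abs_mul]
      have s2 : s ^ 2 ≤ 1 := by nlinarith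
      have y2 : |s * s * (2 - 2 * Real.cos θ) * (4 * s ^ 2 - s * s * (2 - 2 * Real.cos θ))| ≤
          16 := by
        rw [abs_of_nonneg (mul_nonneg y0 (by linarith))]
        nlinarith
      exact mul_le_mul y2 (m3.trans (by linarith)) (abs_nonneg _) (by norm_num)
    · have h6 : ∀ᵐ θ : ℝ, θ ∉ {θ : ℝ | Real.cos θ =
          (2 - (2 + 2 * s ^ 2 - (R ^ 2 + (1 - s ^ 2) ^ 2) / R) / (s * s)) / 2} :=
        measure_eq_zero_iff_ae_notMem.1 ((cnt _).measure_zero volume)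
      filter_upwards [h6] with θ hθ _
      obtain ⟨y0, y1⟩ := hx θ
      obtain ⟨a, b, h1, h2, ha, hb⟩ := roots hs hs1 y0 y1
      have sp : (0 : ℝ) < s * s := by positivity
      have h7 : ∀ x : ℝ, x ^ 2 - (2 + 2 * s ^ 2 - s * s * (2 - 2 * Real.cos θ)) * x +
          (1 - s ^ 2) ^ 2 = 0 → x ≠ R ∨ x = 0 := by
        intro x hx
        by_cases hx0 : x = 0
        · exact Or.inr hx0
        · refine Or.inl fun hxR => hθ ?_
          rw [hxR] at hx hx0
          show Real.cos θ = _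
          have e1 : s * s * (2 - 2 * Real.cos θ) = 2 + 2 * s ^ 2 - (R ^ 2 + (1 - s ^ 2) ^ 2) / R := by
            field_simp
            linarith
          rw [← e1]
          field_simp
          ring
      have q1 : a ≠ R ∨ a = 0 := h7 a (by rw [← h1, ← h2]; ring)
      have q2 : b ≠ R ∨ b = 0 := h7 b (by rw [← h1, ← h2]; ring)
      have l := (((MK_lim hR ha q1).add (MK_lim hR hb q2)).const_mul
        (s * s * (2 - 2 * Real.cos θ) * (4 * s ^ 2 - s * s * (2 - 2 * Real.cos θ)))).pow 2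
      simp only [add_zero, mul_zero, ne_eq, OfNat.ofNat_ne_zero, not_false_eq_true,
        zero_pow] at l
      refine l.congr fun N => ?_
      rw [RQ_ev, EM_root _ h1 h2]
  have k2 := key.const_mul (1 / Real.pi)
  simpa [gI] using k2

end

end Pool.Agent.Run7.h9.TC
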