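import Pool.Agent.Run7.h9.TC.Pow
import Pool.Agent.Run7.h9.TC.Lim

/-! Triple correlations: the three sequences. -/
set_option autoImplicit false
open MeasureTheory Filter Topology Complex Set
open scoped ContDiff Real Manifold

namespace Pool.Agent.Run7.h9.TC

open Pool.Agent.W745.RW Pool.Agent.TH294.RS Pool.Agent.Y265.HY Pool.Agent.Y265.HY.PS
open Pool.Agent.Y265.HY.JC
open Pool.Agent.TH294.RG (vv sL sL1 opP sL_it sR sL1_re)

noncomputable section

variable {Ω : Set ℂ} {lam mu nu : ℕ → ℝ} {u g k : ℕ → ℂ → ℝ} {C : ℝ}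

/-- `u`, `g` are quantum ergodic with comparable eigenvalues, `k` is a third sequence -/
structure T3 (Ω : Set ℂ) (lam mu nu : ℕ → ℝ) (u g k : ℕ → ℂ → ℝ) (C : ℝ) : Prop where
  D : JD Ω lam nu u k
  D' : JD Ω mu nu g k
  c1 : ∀ n, lam n ≤ C * mu n
  c2 : ∀ n, mu n ≤ C * lam n

lemma T3.symm (T : T3 Ω lam mu nu u g k C) : T3 Ω mu lam nu g u k C :=
  ⟨T.D', T.D, T.c2, T.c1⟩

lemma T3.cmp (T : T3 Ω lam mu nu u g k C) {σ : ℕ → ℕ} (hσ : Tendsto σ atTop atTop) :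
    T3 Ω (fun n => lam (σ n)) (fun n => mu (σ n)) (fun n => nu (σ n)) (fun n => u (σ n))
      (fun n => g (σ n)) (fun n => k (σ n)) C :=
  ⟨T.D.cmp hσ, T.D'.cmp hσ, fun _ => T.c1 _, fun _ => T.c2 _⟩

/-- the ladder -/
abbrev WW (lam : ℕ → ℝ) (u : ℕ → ℂ → ℝ) : ℤ → ℕ → ℂ → ℂ :=
  Pool.Agent.TH294.RS.ww Complex.im (hh lam) (fun n z => (u n z : ℂ))

lemma hh_cmp {a b : ℝ} (ha : 0 < a) (hb : 0 < b) (h : b ≤ C * a) :
    1 / √a ≤ √C * (1 / √b) := by
  have hC : 0 ≤ C := by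
    by_contra hc
    push Not at hc
    nlinarith
  have h1 : √b ≤ √C * √a := by
    rw [← Real.sqrt_mul hC]
    exact Real.sqrt_le_sqrt h
  have a1 := Real.sqrt_pos.2 ha
  have b1 := Real.sqrt_pos.2 hb
  rw [mul_one_div, div_le_div_iff₀ a1 b1, one_mul]
  exact h1

theorem T3.S (T : T3 Ω lam mu nu u g k C) :
    Sys2 Ω (hh lam) (hh mu) (WW lam u) (WW mu g) (√C) where
  H := T.D.sy
  H' := T.D'.sy
  BU := T.D.hU
  h0 := T.D.exx
  k0 := T.D'.exx
  hC := fun n => hh_cmp (T.D.lp n) (T.D'.lp n) (T.c2 n)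
  hC' := fun n => hh_cmp (T.D'.lp n) (T.D.lp n) (T.c1 n)

/-- the ratio of the frequencies -/
def sg (lam mu : ℕ → ℝ) (n : ℕ) : ℝ := hh lam n / hh mu n

lemma T3.sn (T : T3 Ω lam mu nu u g k C) (n : ℕ) : T.S.s.1 n = sg lam mu n := rfl

lemma T3.evs (T : T3 Ω lam mu nu u g k C) (n : ℕ) : evn n T.S.s = sg lam mu n := rfl

lemma LL_one (w v : ℤ → ℕ → ℂ → ℂ) (n : ℕ) (z : ℂ) :
    LL (p2 w v) (1 : A2) n z = w 0 n z * v 0 n z := by
  have : (1 : A2) = AddMonoidAlgebra.single 0 1 := rfl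
  rw [this, LL_single, one_smul]
  rfl

open Polynomial in
/-- the real form of `F(L)(u g)` -/
def ER (F : Rb[X]) (h : ℕ → ℝ) (u g : ℕ → ℂ → ℝ) (n : ℕ) (z : ℂ) : ℝ :=
  ∑ i ∈ F.support, (F.coeff i).1 n * (sR Complex.im (h n))^[i] (fun w => u n w * g n w) z

open Polynomial in
lemma Eo_re (D : JD Ω lam nu u k) {mu' nu' : ℕ → ℝ} {k' : ℕ → ℂ → ℝ} (D' : JD Ω mu' nu' g k')
    (h : ℕ → ℝ) (F : Rb[X]) (n : ℕ) {z : ℂ} (hz : z ∈ Ω) :
    Eo h F (WW lam u) (WW mu' g) n z = ((ER F h u g n z : ℝ) : ℂ) := by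
  unfold Eo opR ER
  push_cast
  refine Finset.sum_congr rfl fun i _ => ?_
  rw [sL_it, sL1_re D.op (show ContDiffOn ℝ ∞ Complex.im Ω from imCLM.contDiff.contDiffOn) _
    ((D.us n).mul (D'.us n)) (fun w _ => ?_) i z hz]
  rw [LL_one]
  show (u n w : ℂ) * (g n w : ℂ) = _
  push_cast; ring

open Polynomial in
lemma ER_sq (F : Rb[X]) (h : ℕ → ℝ) (u : ℕ → ℂ → ℝ) (n : ℕ) (z : ℂ) :
    ER F h u u n z = PF (F.map (evn n)) (h n) (u n) z := by
  rw [PF_map]
  unfold ER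
  refine Finset.sum_congr rfl fun i _ => ?_
  have e : (fun w => u n w * u n w) = fun w => u n w ^ 2 := by funext w; ring
  rw [PF_mono, e]

open Polynomial in
lemma ER_co (T : T3 Ω lam mu nu u g k C) (F : Rb[X]) (n : ℕ) :
    ContinuousOn (ER F (hh lam) u g n) Ω := by
  have c1 := ((good_Eo T.S F).sm T.S n).continuousOn
  have c2 := Complex.continuous_re.comp_continuousOn c1
  refine c2.congr fun z hz => ?_
  simp only [Function.comp_def]
  rw [Eo_re T.D T.D' _ F n hz, Complex.ofReal_re]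

open Polynomial in
/-- the polynomial -/
def FP (s : Rb) (G : ℝ[X]) : Rb[X] := qP s * G.map cst

open Polynomial in
lemma cst_map (G : ℝ[X]) (n : ℕ) : (G.map cst).map (evn n) = G := by
  rw [Polynomial.map_map]
  have : (evn n).comp cst = RingHom.id ℝ := by ext x; rfl
  rw [this, Polynomial.map_id]

open Polynomial in
lemma FP_map (s : Rb) (G : ℝ[X]) (n : ℕ) : (FP s G).map (evn n) = qP (s.1 n) * G := by
  unfold FP
  rw [Polynomial.map_mul, qP_map, cst_map]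
  rfl

open Polynomial in
lemma Rs_map (s : Rb) (G : ℝ[X]) (n : ℕ) :
    (Rs s (QQ s * EM s (Polynomial.X ^ 4 * (G.map cst) ^ 2))).map (evn n) = RQ G (s.1 n) := by
  unfold Rs RQ
  rw [Polynomial.map_comp, Polynomial.map_mul, QQ_map, EM_map, Polynomial.map_mul,
    Polynomial.map_pow, Polynomial.map_pow, Polynomial.map_X, cst_map, Polynomial.map_mul,
    Polynomial.map_C, Polynomial.map_X]
  rfl

open Polynomial in
/-- **The joint power spectrum**, real form -/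
theorem spec_re (T : T3 Ω lam mu nu u g k C) {φ : ℂ → ℝ} (hφ : TF Ω φ) (G : ℝ[X]) :
    Tendsto (fun n => 2 * (∫ z, φ z * ER (FP T.S.s G) (hh lam) u g n z ^ 2) -
      2 * ((∫ z, φ z) * WI (qP (sg lam mu n) * G) (sg lam mu n)) -
      ∫ z, φ z * (PF PP (hh lam n) (u n) z * PF (RQ G (sg lam mu n)) (hh mu n) (g n) z))
      atTop (𝓝 0) := by
  have key := spec T.S hφ (G.map cst)
  have k2 := (Complex.continuous_re.tendsto _).comp key
  rw [Complex.zero_re] at k2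
  refine k2.congr fun n => ?_
  have a1 : ∫ z, (φ z : ℂ) * (Eo (hh lam) (qP T.S.s * G.map cst) (WW lam u) (WW mu g) n z *
        Eo (hh lam) (qP T.S.s * G.map cst) (WW lam u) (WW mu g) n z) =
      ((∫ z, φ z * ER (FP T.S.s G) (hh lam) u g n z ^ 2 : ℝ) : ℂ) := by
    rw [← integral_complex_ofReal]
    congr 1; funext z
    by_cases hz : z ∈ Ω
    · rw [Eo_re T.D T.D' _ _ n hz]
      unfold FP
      push_cast; ring
    · rw [TF.zero hφ hz]; simp
  have a2 : ∫ z, (φ z : ℂ) * (Eo (hh lam) PP (WW lam u) (WW lam u) n z *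
        Eo (hh mu) (Rs T.S.s (QQ T.S.s * EM T.S.s (Polynomial.X ^ 4 * (G.map cst) ^ 2)))
        (WW mu g) (WW mu g) n z) =
      ((∫ z, φ z * (PF PP (hh lam n) (u n) z * PF (RQ G (sg lam mu n)) (hh mu n) (g n) z) : ℝ) :
        ℂ) := by
    rw [← integral_complex_ofReal]
    congr 1; funext z
    by_cases hz : z ∈ Ω
    · rw [Eo_re T.D T.D _ _ n hz, Eo_re T.D' T.D' _ _ n hz, ER_sq, ER_sq, Rs_map, PP_map]
      push_cast
      rfl
    · rw [TF.zero hφ hz]; simp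
  have e3 : (qP T.S.s * G.map cst).map (evn n) = qP (sg lam mu n) * G := FP_map T.S.s G n
  simp only [Function.comp_def]
  rw [a1, a2, e3, T.sn n, ← Complex.ofReal_mul, show (2 : ℂ) = ((2 : ℝ) : ℂ) by norm_num,
    ← Complex.ofReal_mul, ← Complex.ofReal_mul, ← Complex.ofReal_sub, ← Complex.ofReal_sub,
    Complex.ofReal_re]

open Polynomial in
/-- **The pairing**, real form -/
theorem pair_re (T : T3 Ω lam mu nu u g k C) {φ : ℂ → ℝ} (hφ : TF Ω φ) (F : Rb[X]) :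
    Tendsto (fun n => ((F.map (evn n)).eval (nu n / lam n) * (∫ z, φ z * (u n z * g n z * k n z)) -
      ∫ z, φ z * (ER F (hh lam) u g n z * k n z)) / (1 + nu n / lam n) ^ F.natDegree) atTop
      (𝓝 0) := by
  have D := T.D
  have eG : ∀ n, ∀ z ∈ Ω, (hh lam n : ℂ) ^ 2 * ((z.im : ℂ) ^ 2 *
      lap (fun w => ((k n w : ℝ) : ℂ)) z) = -(((nu n / lam n : ℝ) : ℂ) * (k n z : ℂ)) := by
    intro n z hz
    rw [Pool.Agent.TH294.RS.lap_re D.op (D.gs n) hz]
    have h1 := D.ge n z hz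
    have h2 := hh2 D n
    have h3 := (D.lp n).ne'
    have h4 : (hh lam n) ^ 2 * (z.im ^ 2 * lap (k n) z) = -(nu n / lam n * k n z) := by
      rw [h2]
      have : z.im ^ 2 * lap (k n) z = -(nu n * k n z) := by linarith
      rw [this]; field_simp
    exact_mod_cast h4
  have hE : QM Ω (hh lam) (hh mu) (WW lam u) (WW mu g)
      (LL (p2 (WW lam u) (WW mu g)) (1 : A2)) :=
    (QM.m2 (T.S.H.bd 0) (RP.W T.S.H' T.S.k0 0)).cg fun n z _ => by rw [LL_one]
  have key := pairR T.S (r := fun n => nu n / lam n)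
    (fun n => div_nonneg (D.mp n).le (D.lp n).le) D.lbg eG hE hφ F
  have k2 := (Complex.continuous_re.tendsto _).comp key
  rw [Complex.zero_re] at k2
  refine k2.congr fun n => ?_
  have a1 : ∫ z, (φ z : ℂ) * (LL (p2 (WW lam u) (WW mu g)) (1 : A2) n z *
      (k n z : ℂ)) = ((∫ z, φ z * (u n z * g n z * k n z) : ℝ) : ℂ) := by
    rw [← integral_complex_ofReal]
    congr 1; funext z
    rw [LL_one]
    show _ * ((u n z : ℂ) * (g n z : ℂ) * _) = _
    push_cast; ring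
  have a2 : ∫ z, (φ z : ℂ) * (opR (hh lam) F (LL (p2 (WW lam u) (WW mu g)) (1 : A2)) n z *
      (k n z : ℂ)) = ((∫ z, φ z * (ER F (hh lam) u g n z * k n z) : ℝ) : ℂ) := by
    rw [← integral_complex_ofReal]
    congr 1; funext z
    by_cases hz : z ∈ Ω
    · have := Eo_re T.D T.D' (hh lam) F n hz
      unfold Eo at this
      rw [this]
      push_cast; ring
    · have : φ z = 0 := TF.zero hφ hz
      rw [this]; simp
  simp only [Function.comp_def]
  rw [a1, a2, ← Complex.ofReal_mul, ← Complex.ofReal_sub, ← Complex.ofReal_pow,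
    ← Complex.ofReal_div, Complex.ofReal_re]

end

end Pool.Agent.Run7.h9.TC
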