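import Pool.Agent.Run7.h9.TC.Seq
import Pool.Agent.R314.JN.Null
import Pool.Agent.Y265.HY.PS2

/-! Error classes: bounded multipliers, two scales. -/
set_option autoImplicit false
open MeasureTheory Filter Topology Complex Set
open scoped ContDiff Real Manifold

namespace Pool.Agent.Run7.h9.TC

open Pool.Agent.W745.RW Pool.Agent.TH294.RS Pool.Agent.Y265.HY Pool.Agent.Y265.HY.PS
open Pool.Agent.TH294.RG (sL sL_eq lap_cg lap_lin)

noncomputable section

variable {B : Set ℂ} {h κ : ℕ → ℝ} {w v : ℤ → ℕ → ℂ → ℂ}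

lemma LB_bmul {p : ℕ} {f : ℕ → ℂ → ℂ} (hf : LB B p f) {c : ℕ → ℝ} {C : ℝ}
    (hc : ∀ n, |c n| ≤ C) : LB B p (fun n z => (c n : ℂ) * f n z) := by
  refine ⟨fun n => contDiffOn_const.mul (hf.sm n), fun K hK hKB => ?_⟩
  obtain ⟨D, hD⟩ := hf.bd K hK hKB
  refine ⟨C ^ p * D, hD.mono fun n hn => ?_⟩
  have e : ∀ z, ‖(c n : ℂ) * f n z‖ ^ p = |c n| ^ p * ‖f n z‖ ^ p := fun z => by
    rw [norm_mul, mul_pow, Complex.norm_real, Real.norm_eq_abs]
  simp only [e]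
  rw [integral_const_mul]
  exact mul_le_mul (pow_le_pow_left₀ (abs_nonneg _) (hc n) p) hn
    (integral_nonneg fun z => by positivity) (pow_nonneg ((abs_nonneg _).trans (hc n)) p)

lemma M2_bmul (hB : IsOpen B) {c : ℕ → ℝ} {C : ℝ} (hc : ∀ n, |c n| ≤ C) {k : ℕ} :
    ∀ {f : ℕ → ℂ → ℂ}, M2 B h k f → M2 B h k (fun n z => (c n : ℂ) * f n z) := by
  induction k with
  | zero => intro f H; exact LB_bmul H hc
  | succ k ih =>
    intro f H
    have e : ∀ v, ∀ n, ∀ z ∈ B, hd h v (fun n z => (c n : ℂ) * f n z) n z =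
        (c n : ℂ) * hd h v f n z := by
      intro v n z hz
      simp only [hd]
      rw [fderiv_const_mul (fda hB (H.1.sm n) hz)]
      simp only [smul_apply, smul_eq_mul]
      ring
    exact ⟨LB_bmul H.1 hc, (ih H.2.1).congr hB (e 1), (ih H.2.2).congr hB (e I)⟩

lemma M2C_bmul (hB : IsOpen B) {f : ℕ → ℂ → ℂ} (H : M2C B h f) {c : ℕ → ℝ} {C : ℝ}
    (hc : ∀ n, |c n| ≤ C) : M2C B h (fun n z => (c n : ℂ) * f n z) := fun k => M2_bmul hB hc (H k)

/-- change of the scale -/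
lemma M2_cmp (hB : IsOpen B) (hp : ∀ n, 0 < h n) (kp : ∀ n, 0 < κ n) {C : ℝ}
    (hC : ∀ n, h n ≤ C * κ n) {k : ℕ} : ∀ {f : ℕ → ℂ → ℂ}, M2 B κ k f → M2 B h k f := by
  induction k with
  | zero => intro f H; exact H
  | succ k ih =>
    intro f H
    have hc : ∀ n, |h n / κ n| ≤ C := fun n => by
      rw [abs_of_pos (div_pos (hp n) (kp n)), div_le_iff₀ (kp n)]
      exact hC n
    have e : ∀ v, ∀ n, ∀ z ∈ B, hd h v f n z = ((h n / κ n : ℝ) : ℂ) * hd κ v f n z := by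
      intro v n z _
      have : (κ n : ℂ) ≠ 0 := by exact_mod_cast (kp n).ne'
      simp only [hd]
      push_cast
      field_simp
    exact ⟨H.1, (M2_bmul hB hc (ih H.2.1)).congr hB (e 1), (M2_bmul hB hc (ih H.2.2)).congr hB (e I)⟩

lemma M2C_cmp (hB : IsOpen B) (hp : ∀ n, 0 < h n) (kp : ∀ n, 0 < κ n) {C : ℝ}
    (hC : ∀ n, h n ≤ C * κ n) {f : ℕ → ℂ → ℂ} (H : M2C B κ f) : M2C B h f :=
  fun k => M2_cmp hB hp kp hC (H k)

lemma QE_bmul (H : SY B Complex.im h w) {f : ℕ → ℂ → ℂ} (hf : QE B h w f) {c : ℕ → ℝ} {C : ℝ}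
    (hc : ∀ n, |c n| ≤ C) : QE B h w (fun n z => (c n : ℂ) * f n z) := by
  induction hf with
  | mul he hg => exact (QE.mul (M2C_bmul H.op he hc) hg).cg fun n z _ => by ring
  | add _ _ ih1 ih2 => exact (ih1.add ih2).cg fun n z _ => by ring
  | cg _ e ih => exact ih.cg fun n z hz => by rw [e n z hz]

/-- mixed quartic errors vanish -/
theorem hE6 (H : SY B Complex.im h w) (H' : SY B Complex.im κ v) (hBU : B ⊆ UH) {C0 : ℝ}
    (hC0 : ∀ n, h n ≤ C0 * κ n) {R f g : ℕ → ℂ → ℂ} (hR : LB B 1 R)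
    (hf : RP B h w f) (hg : RP B κ v g) :
    WN B (fun n z => (h n : ℂ) * (R n z * (f n z * g n z))) := by
  refine ⟨fun n => continuousOn_const.mul ((hR.co n).mul ((((hf.dec.m H).co n)).mul
    ((hg.dec.m H').co n))), fun φ hφ => ?_⟩
  have hK : IsCompact (tsupport φ) := hφ.2.1
  obtain ⟨C, hC⟩ := l1b_of hR (tsupport φ) hK hφ.2.2
  obtain ⟨M', hM'⟩ := hK.exists_bound_of_continuousOn hφ.1.continuous.continuousOn
  obtain ⟨M, hM⟩ : ∃ M, M = max M' 0 := ⟨_, rfl⟩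
  have hM0 : 0 ≤ M := by rw [hM]; exact le_max_right _ _
  have hb : ∀ z ∈ tsupport φ, ‖φ z‖ ≤ M := fun z hz => by
    rw [hM]; exact (hM' z hz).trans (le_max_left _ _)
  obtain ⟨D, hD⟩ : ∃ D, D = max C0 1 := ⟨_, rfl⟩
  have D1 : 1 ≤ D := by rw [hD]; exact le_max_right _ _
  have hD' : ∀ n, h n ≤ D * κ n := fun n => (hC0 n).trans (by
    have := (H'.hpos n).le
    rw [hD]
    exact mul_le_mul_of_nonneg_right (le_max_left _ _) this)
  show Tendsto _ atTop (𝓝 0)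
  rw [Metric.tendsto_atTop']
  intro ε hε
  obtain ⟨η, hη⟩ : ∃ η, η = ε / (2 * (M * D * (|C| + 1) + 1)) := ⟨_, rfl⟩
  have hpos : 0 < η := by rw [hη]; positivity
  have := ((sup_rp H hBU hf hK hφ.2.2 hpos).and (sup_rp H' hBU hg hK hφ.2.2 hpos)).and hC
  rw [eventually_atTop] at this
  obtain ⟨N, hN⟩ := this
  refine ⟨N, fun n hn => ?_⟩
  obtain ⟨⟨h1, h1'⟩, h2⟩ := hN n hn.le
  rw [dist_zero_right]
  have ip : IntegrableOn (fun z => ‖R n z‖) (tsupport φ) :=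
    ContinuousOn.integrableOn_compact hK (((hR.co n).mono hφ.2.2).norm)
  have e : ∫ z, (φ z : ℂ) * ((h n : ℂ) * (R n z * (f n z * g n z))) =
      ∫ z in tsupport φ, (φ z : ℂ) * ((h n : ℂ) * (R n z * (f n z * g n z))) := by
    refine (setIntegral_eq_integral_of_forall_compl_eq_zero (fun z hz => ?_)).symm
    rw [image_eq_zero_of_notMem_tsupport hz]; simp
  rw [e]
  have bb : ‖∫ z in tsupport φ, (φ z : ℂ) * ((h n : ℂ) * (R n z * (f n z * g n z)))‖ ≤
      ∫ z in tsupport φ, (M * (D * η)) * ‖R n z‖ := by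
    refine norm_integral_le_of_norm_le (ip.const_mul _) ?_
    refine (ae_restrict_iff' hK.measurableSet).2 (Eventually.of_forall fun z hz => ?_)
    have hp := (H.hpos n).le
    rw [norm_mul, norm_mul, norm_mul (R n z), norm_mul (f n z), Complex.norm_real,
      Complex.norm_real, Real.norm_eq_abs (h n), abs_of_nonneg hp]
    have a1 := hb z hz
    have a2 := h1 z hz
    have a3 : h n * ‖g n z‖ ^ 2 ≤ D * η := by
      calc h n * ‖g n z‖ ^ 2 ≤ (D * κ n) * ‖g n z‖ ^ 2 :=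
            mul_le_mul_of_nonneg_right (hD' n) (sq_nonneg _)
        _ = D * (κ n * ‖g n z‖ ^ 2) := by ring
        _ ≤ D * η := mul_le_mul_of_nonneg_left (h1' z hz) (by linarith)
    have a2' : h n * ‖f n z‖ ^ 2 ≤ D * η := a2.trans (le_mul_of_one_le_left hpos.le D1)
    have a4 : h n * (‖f n z‖ * ‖g n z‖) ≤ D * η := by
      have : ‖f n z‖ * ‖g n z‖ ≤ (‖f n z‖ ^ 2 + ‖g n z‖ ^ 2) / 2 := by
        nlinarith [sq_nonneg (‖f n z‖ - ‖g n z‖)]
      calc h n * (‖f n z‖ * ‖g n z‖) ≤ h n * ((‖f n z‖ ^ 2 + ‖g n z‖ ^ 2) / 2) := by gcongr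
        _ ≤ D * η := by linarith
    calc ‖φ z‖ * (h n * (‖R n z‖ * (‖f n z‖ * ‖g n z‖))) =
          ‖φ z‖ * (h n * (‖f n z‖ * ‖g n z‖)) * ‖R n z‖ := by ring
      _ ≤ M * (D * η) * ‖R n z‖ := by gcongr
  refine bb.trans_lt ?_
  rw [integral_const_mul]
  have hC' : ∫ z in tsupport φ, ‖R n z‖ ≤ |C| + 1 := h2.trans (by linarith [le_abs_self C])
  calc M * (D * η) * ∫ z in tsupport φ, ‖R n z‖
      ≤ M * (D * η) * (|C| + 1) := by gcongr
    _ = (M * D * (|C| + 1)) / (M * D * (|C| + 1) + 1) * (ε / 2) := by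
        rw [hη]; field_simp
    _ ≤ 1 * (ε / 2) := by
        gcongr
        rw [div_le_one (by positivity)]; linarith
    _ < ε := by linarith

end

end Pool.Agent.Run7.h9.TC
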