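import Pool.Agent.Run7.h9.TC.Core
import Pool.Agent.Y265.HY.JC6

/-! Triple correlations: the limit. -/
set_option autoImplicit false
open MeasureTheory Filter Topology Complex Set
open scoped ContDiff Real Manifold

namespace Pool.Agent.Run7.h9.TC

open Pool.Agent.W745.RW Pool.Agent.TH294.RS Pool.Agent.Y265.HY Pool.Agent.Y265.HY.PS
open Pool.Agent.Y265.HY.JC

noncomputable section

variable {Ω : Set ℂ} {lam mu nu : ℕ → ℝ} {u g k : ℕ → ℂ → ℝ} {C : ℝ}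

/-- the triple correlation -/
def JT (φ u g k : ℂ → ℝ) : ℝ := ∫ z, φ z * (u z * g z * k z)

/-- the limit of the upper bound for the mean square -/
def LU (I0 : ℝ) (G : Polynomial ℝ) (σ : ℝ) : ℝ :=
  I0 * WI (qP σ * G) σ + 1 / 2 * (√(gI PP * I0) * √(gI (RQ G σ) * I0))

lemma PP0 : (PP : Polynomial ℝ).eval 0 = 0 := by unfold PP; simp
lemma PP4 : (PP : Polynomial ℝ).eval 4 = 0 := by
  have e : (4 : Polynomial ℝ) = Polynomial.C 4 := (map_ofNat Polynomial.C 4).symm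
  unfold PP; rw [e]; simp

theorem T3.ub (T : T3 Ω lam mu nu u g k C) {φ : ℂ → ℝ} (hφ : TF Ω φ) (h0 : ∀ z, 0 ≤ φ z)
    (G : Polynomial ℝ) {σ : ℝ} (hσ : Tendsto (sg lam mu) atTop (𝓝 σ)) :
    ∃ U : ℕ → ℝ, Tendsto U atTop (𝓝 (LU (∫ z, φ z) G σ)) ∧
      ∀ n, ∫ z, φ z * ER (FP T.S.s G) (hh lam) u g n z ^ 2 ≤ U n := by
  obtain ⟨I0, hI⟩ : ∃ I0, I0 = ∫ z, φ z := ⟨_, rfl⟩
  obtain ⟨X, hX⟩ : ∃ X : ℕ → ℝ, ∀ n, X n = ∫ z, φ z * PF PP (hh lam n) (u n) z ^ 2 :=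
    ⟨_, fun _ => rfl⟩
  obtain ⟨Y, hY⟩ : ∃ Y : ℕ → ℝ, ∀ n, Y n =
    ∫ z, φ z * PF (RQ G (sg lam mu n)) (hh mu n) (g n) z ^ 2 := ⟨_, fun _ => rfl⟩
  obtain ⟨Z, hZ⟩ : ∃ Z : ℕ → ℝ, ∀ n, Z n =
    ∫ z, φ z * ER (FP T.S.s G) (hh lam) u g n z ^ 2 := ⟨_, fun _ => rfl⟩
  obtain ⟨W, hW⟩ : ∃ W : ℕ → ℝ, ∀ n, W n = ∫ z, φ z * (PF PP (hh lam n) (u n) z *
    PF (RQ G (sg lam mu n)) (hh mu n) (g n) z) := ⟨_, fun _ => rfl⟩
  have x1 : Tendsto X atTop (𝓝 (gI PP * I0)) := by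
    have := T.D.f1 hφ PP
    rw [PP0, PP4] at this
    simp only [← hI, ← hX] at this
    simpa using this
  have y1 : Tendsto Y atTop (𝓝 (gI (RQ G σ) * I0)) := by
    have e : ∀ n, (Rs T.S.s (QQ T.S.s * EM T.S.s (Polynomial.X ^ 4 * (G.map cst) ^ 2))).map
        (evn n) = RQ G (sg lam mu n) := fun n => Rs_map T.S.s G n
    have k1 := f1R T.D' hφ (Rs T.S.s (QQ T.S.s * EM T.S.s (Polynomial.X ^ 4 * (G.map cst) ^ 2)))
      (fun n => by rw [e, RQ_0]) (fun n => by rw [e, RQ_4])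
    simp only [e, ← hI, ← hY] at k1
    have k2 := ((((gI_RQ_cont G).tendsto σ).comp hσ).mul_const I0)
    have k3 := k1.add k2
    rw [zero_add] at k3
    refine k3.congr fun n => ?_
    simp only [Function.comp_def]; ring
  have w1 : Tendsto (fun n => I0 * WI (qP (sg lam mu n) * G) (sg lam mu n)) atTop
      (𝓝 (I0 * WI (qP σ * G) σ)) := (((WI_cont G).tendsto σ).comp hσ).const_mul I0
  have sp := spec_re T hφ G
  simp only [← hI, ← hW, ← hZ] at sp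
  refine ⟨fun n => I0 * WI (qP (sg lam mu n) * G) (sg lam mu n) + 1 / 2 * (√(X n) * √(Y n)) +
    1 / 2 * (2 * Z n - 2 * (I0 * WI (qP (sg lam mu n) * G) (sg lam mu n)) - W n), ?_, fun n => ?_⟩
  · have k1 := (w1.add ((x1.sqrt.mul y1.sqrt).const_mul (1 / 2))).add (sp.const_mul (1 / 2))
    rw [mul_zero, add_zero] at k1
    rw [← hI]
    exact k1
  · have X0 : 0 ≤ X n := by
      rw [hX]; exact integral_nonneg fun z => mul_nonneg (h0 z) (sq_nonneg _)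
    have cs1 := cs T.D.op hφ h0 (T.D.PFc PP n) (T.D'.PFc (RQ G (sg lam mu n)) n)
    rw [← hX, ← hY, ← hW] at cs1
    have h1 : W n ≤ √(X n) * √(Y n) := by
      rw [← Real.sqrt_mul X0]
      exact (le_abs_self _).trans (Real.abs_le_sqrt cs1)
    rw [← hZ]
    linarith

/-- nonexceptional limits of the parameters -/
theorem T3.lim (T : T3 Ω lam mu nu u g k C) {φ : ℂ → ℝ} (hφ : TF Ω φ) (h0 : ∀ z, 0 ≤ φ z)
    {σ R : ℝ} (hσ : Tendsto (sg lam mu) atTop (𝓝 σ)) (σ0 : 0 < σ) (σ1 : σ ≤ 1)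
    (hR : Tendsto (fun n => nu n / lam n) atTop (𝓝 R)) (hq : (qP σ).eval R ≠ 0) :
    Tendsto (fun n => JT φ (u n) (g n) (k n)) atTop (𝓝 0) := by
  have R0 : 0 ≤ R := ge_of_tendsto hR (Eventually.of_forall fun n =>
    div_nonneg (T.D.mp n).le (T.D.lp n).le)
  obtain ⟨C1, hC0, hC⟩ := T.D.f5 hφ
  obtain ⟨I0, hI⟩ : ∃ I0, I0 = ∫ z, φ z := ⟨_, rfl⟩
  obtain ⟨q, hqd⟩ : ∃ q, q = (qP σ).eval R := ⟨_, rfl⟩
  rw [← hqd] at hq
  have q2 : 0 < q ^ 2 := by positivity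
  -- the limit for `K → ∞`
  have LK : Tendsto (fun K : ℕ => 2 * C1 * LU I0 (g0 R ^ K) σ) atTop (𝓝 0) := by
    have k1 := (WI_lim (s := σ) (R := R) σ0 σ1 R0).const_mul I0
    have k2 := (((gI_RQ_lim (s := σ) (R := R) σ0 σ1 R0).mul_const I0).sqrt).const_mul
      (√(gI PP * I0))
    have k3 := ((k1.add (k2.const_mul (1 / 2))).const_mul (2 * C1))
    simp only [zero_mul, mul_zero, Real.sqrt_zero, add_zero] at k3
    exact k3
  rw [Metric.tendsto_atTop']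
  intro ε hε
  obtain ⟨K, hK⟩ := (LK.eventually (gt_mem_nhds (show 0 < q ^ 2 / 2 * ε ^ 2 by
    positivity))).exists
  obtain ⟨U, hU, hU2⟩ := T.ub hφ h0 (g0 R ^ K) hσ
  rw [← hI] at hU
  obtain ⟨F, hF⟩ : ∃ F : ℕ → ℝ, ∀ n, F n = (qP (sg lam mu n) * g0 R ^ K).eval (nu n / lam n) :=
    ⟨_, fun _ => rfl⟩
  have Fl : Tendsto F atTop (𝓝 q) := by
    have c : Continuous fun p : ℝ × ℝ => (qP p.1 * g0 R ^ K).eval p.2 := by
      have c2 : Continuous fun p : ℝ × ℝ => (g0 R ^ K).eval p.2 :=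
        (g0 R ^ K).continuous.comp continuous_snd
      simp only [Polynomial.eval_mul, qP_ev]
      fun_prop
    have k1 := (c.tendsto (σ, R)).comp (hσ.prodMk_nhds hR)
    have e : (qP σ * g0 R ^ K).eval R = q := by
      rw [Polynomial.eval_mul, Polynomial.eval_pow, g0_R, one_pow, mul_one, hqd]
    rw [e] at k1
    exact k1.congr fun n => (hF n).symm
  obtain ⟨A, hA⟩ : ∃ A : ℕ → ℝ, ∀ n, A n = F n * JT φ (u n) (g n) (k n) -
      ∫ z, φ z * (ER (FP T.S.s (g0 R ^ K)) (hh lam) u g n z * k n z) := ⟨_, fun _ => rfl⟩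
  have Al : Tendsto A atTop (𝓝 0) := by
    have k1 := (pair_re T hφ (FP T.S.s (g0 R ^ K))).mul
      ((hR.const_add 1).pow (FP T.S.s (g0 R ^ K)).natDegree)
    rw [zero_mul] at k1
    refine k1.congr fun n => ?_
    have hp : (1 + nu n / lam n) ^ (FP T.S.s (g0 R ^ K)).natDegree ≠ 0 := by
      have := div_nonneg (T.D.mp n).le (T.D.lp n).le
      positivity
    rw [div_mul_cancel₀ _ hp, FP_map, hA, hF]
    rfl
  have bl : Tendsto (fun n => 2 * C1 * U n + 2 * A n ^ 2) atTop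
      (𝓝 (2 * C1 * LU I0 (g0 R ^ K) σ)) := by
    have := (hU.const_mul (2 * C1)).add ((Al.pow 2).const_mul 2)
    simpa using this
  have E1 := bl.eventually (gt_mem_nhds hK)
  have E2 := (Fl.pow 2).eventually (lt_mem_nhds (show q ^ 2 / 2 < q ^ 2 by linarith))
  have E3 := (E1.and E2).and hC
  rw [eventually_atTop] at E3
  obtain ⟨N, hN⟩ := E3
  refine ⟨N, fun n hn => ?_⟩
  obtain ⟨⟨e1, e2⟩, e3⟩ := hN n hn.le
  rw [dist_zero_right, Real.norm_eq_abs]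
  refine abs_lt_of_sq_lt_sq ?_ hε.le
  have p1 := cs T.D.op hφ h0 (ER_co T (FP T.S.s (g0 R ^ K)) n) (T.D.gs n).continuousOn
  have z0 : 0 ≤ ∫ z, φ z * ER (FP T.S.s (g0 R ^ K)) (hh lam) u g n z ^ 2 :=
    integral_nonneg fun z => mul_nonneg (h0 z) (sq_nonneg _)
  have u0 := z0.trans (hU2 n)
  have p2 : (∫ z, φ z * (ER (FP T.S.s (g0 R ^ K)) (hh lam) u g n z * k n z)) ^ 2 ≤ U n * C1 :=
    p1.trans (mul_le_mul (hU2 n) e3 (integral_nonneg fun z => mul_nonneg (h0 z) (sq_nonneg _)) u0)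
  have a1 := hA n
  obtain ⟨P, hP⟩ : ∃ P, P = ∫ z, φ z * (ER (FP T.S.s (g0 R ^ K)) (hh lam) u g n z * k n z) :=
    ⟨_, rfl⟩
  rw [← hP] at a1 p2
  obtain ⟨J, hJ⟩ : ∃ J, J = JT φ (u n) (g n) (k n) := ⟨_, rfl⟩
  rw [← hJ] at a1 ⊢
  have b1 : (F n * J) ^ 2 ≤ 2 * C1 * U n + 2 * A n ^ 2 := by
    have : F n * J = A n + P := by linarith
    rw [this]
    nlinarith [sq_nonneg (A n - P)]
  have b2 : q ^ 2 / 2 * J ^ 2 ≤ (F n * J) ^ 2 := by
    rw [mul_pow]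
    exact mul_le_mul_of_nonneg_right e2.le (sq_nonneg _)
  have b3 : q ^ 2 / 2 * J ^ 2 < q ^ 2 / 2 * ε ^ 2 := by linarith
  exact lt_of_mul_lt_mul_left b3 (by positivity)

open Polynomial in
lemma qP_deg (s : Rb) : (qP s).natDegree ≤ 4 := by
  unfold qP; compute_degree

/-- the third sequence has much higher eigenvalues -/
theorem T3.inf (T : T3 Ω lam mu nu u g k C) {φ : ℂ → ℝ} (hφ : TF Ω φ) (h0 : ∀ z, 0 ≤ φ z)
    {σ : ℝ} (hσ : Tendsto (sg lam mu) atTop (𝓝 σ))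
    (hR : Tendsto (fun n => nu n / lam n) atTop atTop) :
    Tendsto (fun n => JT φ (u n) (g n) (k n)) atTop (𝓝 0) := by
  obtain ⟨C1, hC0, hC⟩ := T.D.f5 hφ
  obtain ⟨U, hU, hU2⟩ := T.ub hφ h0 1 hσ
  have r0 : ∀ n, 0 ≤ nu n / lam n := fun n => div_nonneg (T.D.mp n).le (T.D.lp n).le
  obtain ⟨d, hd⟩ : ∃ d, d = (FP T.S.s 1).natDegree := ⟨_, rfl⟩
  have d4 : d ≤ 4 := by
    have e : FP T.S.s 1 = qP T.S.s := by unfold FP; simp
    rw [hd, e]; exact qP_deg _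
  obtain ⟨x, hx⟩ : ∃ x : ℕ → ℝ, ∀ n, x n = (1 + nu n / lam n)⁻¹ := ⟨_, fun _ => rfl⟩
  have xl : Tendsto x atTop (𝓝 0) := by
    have rl : Tendsto (fun n => 1 + nu n / lam n) atTop atTop :=
      tendsto_atTop_add_const_left _ _ hR
    exact rl.inv_tendsto_atTop.congr fun n => (hx n).symm
  have x0 : ∀ n, 0 < x n := fun n => by rw [hx]; have := r0 n; positivity
  have x1 : ∀ n, x n ≤ 1 := fun n => by
    rw [hx]; exact inv_le_one_of_one_le₀ (by have := r0 n; linarith)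
  obtain ⟨P, hP⟩ : ∃ P : ℕ → ℝ, ∀ n, P n =
    ∫ z, φ z * (ER (FP T.S.s 1) (hh lam) u g n z * k n z) := ⟨_, fun _ => rfl⟩
  obtain ⟨J, hJ⟩ : ∃ J : ℕ → ℝ, ∀ n, J n = JT φ (u n) (g n) (k n) := ⟨_, fun _ => rfl⟩
  -- pairing
  have k1 : Tendsto (fun n => ((qP (sg lam mu n)).eval (nu n / lam n) * J n - P n) * x n ^ 4)
      atTop (𝓝 0) := by
    have k1 := mul_nullR (pair_re T hφ (FP T.S.s 1)) (c := fun n => x n ^ (4 - d)) (C := 1)
      (fun n => by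
        rw [abs_of_pos (pow_pos (x0 n) _)]
        exact pow_le_one₀ (x0 n).le (x1 n))
    refine k1.congr fun n => ?_
    have e4 : x n ^ 4 = x n ^ (4 - d) * x n ^ d := by rw [← pow_add, Nat.sub_add_cancel d4]
    have e5 : x n ^ d = 1 / (1 + nu n / lam n) ^ d := by rw [hx, inv_pow, one_div]
    rw [FP_map, e4, e5, hJ, hP, ← hd]
    show x n ^ (4 - d) * (((qP (sg lam mu n) * 1).eval (nu n / lam n) * JT φ (u n) (g n) (k n) -
      _) / _) = _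
    rw [mul_one]; ring
  -- the pairing is bounded
  have Pb : ∀ᶠ n in atTop, |P n| ≤ √((LU (∫ z, φ z) 1 σ + 1) * C1) := by
    filter_upwards [hU.eventually (gt_mem_nhds (lt_add_one _)), hC] with n n1 n2
    have p1 := cs T.D.op hφ h0 (ER_co T (FP T.S.s 1) n) (T.D.gs n).continuousOn
    rw [← hP] at p1
    have z0 : 0 ≤ ∫ z, φ z * ER (FP T.S.s 1) (hh lam) u g n z ^ 2 :=
      integral_nonneg fun z => mul_nonneg (h0 z) (sq_nonneg _)
    have u0 := z0.trans (hU2 n)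
    refine Real.abs_le_sqrt (p1.trans (mul_le_mul ((hU2 n).trans n1.le) n2
      (integral_nonneg fun z => mul_nonneg (h0 z) (sq_nonneg _)) (u0.trans n1.le)))
  have k2 : Tendsto (fun n => P n * x n ^ 4) atTop (𝓝 0) := by
    have k4 : Tendsto (fun n => √((LU (∫ z, φ z) 1 σ + 1) * C1) * |x n ^ 4|) atTop (𝓝 0) := by
      have := ((xl.pow 4).abs).const_mul (√((LU (∫ z, φ z) 1 σ + 1) * C1))
      simpa using this
    refine squeeze_zero_norm' (Pb.mono fun n hn => ?_) k4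
    rw [Real.norm_eq_abs, abs_mul]
    exact mul_le_mul_of_nonneg_right hn (abs_nonneg _)
  have k3 : Tendsto (fun n => (qP (sg lam mu n)).eval (nu n / lam n) * x n ^ 4) atTop (𝓝 1) := by
    have e : ∀ n, (qP (sg lam mu n)).eval (nu n / lam n) * x n ^ 4 =
        ((1 - x n) ^ 2 - (2 + 2 * sg lam mu n ^ 2) * ((1 - x n) * x n) +
          (1 - sg lam mu n ^ 2) ^ 2 * x n ^ 2) *
        ((1 - x n) ^ 2 - (1 - sg lam mu n ^ 2) ^ 2 * x n ^ 2) := by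
      intro n
      have e1 : nu n / lam n * x n = 1 - x n := by
        rw [hx]
        have : 1 + nu n / lam n ≠ 0 := by have := r0 n; positivity
        field_simp
        ring
      rw [qP_ev, ← e1]; ring
    simp only [e]
    have c : Continuous fun p : ℝ × ℝ => ((1 - p.1) ^ 2 - (2 + 2 * p.2 ^ 2) * ((1 - p.1) * p.1) +
          (1 - p.2 ^ 2) ^ 2 * p.1 ^ 2) * ((1 - p.1) ^ 2 - (1 - p.2 ^ 2) ^ 2 * p.1 ^ 2) := by
      fun_prop
    have k := (c.tendsto (0, σ)).comp (xl.prodMk_nhds hσ)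
    simp only [Function.comp_def] at k
    norm_num at k
    exact k
  have k6 := (k1.add k2).mul (k3.inv₀ one_ne_zero)
  simp only [add_zero, zero_mul] at k6
  refine k6.congr' ?_
  filter_upwards [k3.eventually_ne one_ne_zero] with n hn
  rw [← hJ]
  have e : ((qP (sg lam mu n)).eval (nu n / lam n) * J n - P n) * x n ^ 4 + P n * x n ^ 4 =
      J n * ((qP (sg lam mu n)).eval (nu n / lam n) * x n ^ 4) := by ring
  rw [e, mul_assoc, mul_inv_cancel₀ hn, mul_one]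

end

end Pool.Agent.Run7.h9.TC
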