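import Pool.Agent.Run7.h9.TC.Gen

/-! Triple correlations: the triangle condition. -/
set_option autoImplicit false
open MeasureTheory Filter Topology Complex Set
open scoped ContDiff Real Manifold

namespace Pool.Agent.Run7.h9.TC

open Pool.Agent.W745.RW Pool.Agent.TH294.RS Pool.Agent.Y265.HY Pool.Agent.Y265.HY.PS
open Pool.Agent.Y265.HY.JC

noncomputable section

variable {Ω : Set ℂ} {lam mu nu : ℕ → ℝ} {u g k : ℕ → ℂ → ℝ} {C : ℝ}

/-- sixteen times the square of the area of the triangle with sides `√a`, `√b`, `√c` -/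
def her (a b c : ℝ) : ℝ := 2 * (a * b + b * c + c * a) - (a ^ 2 + b ^ 2 + c ^ 2)

lemma her_pol (a b c : ℝ) (ha : a ≠ 0) :
    (qP (√(b / a))).eval (c / a) = - her a b c * (c ^ 2 - (a - b) ^ 2) / a ^ 4 ∨ b / a < 0 := by
  by_cases h : b / a < 0
  · exact Or.inr h
  · left
    push Not at h
    rw [qP_ev, Real.sq_sqrt h]
    unfold her
    field_simp
    ring

/-- **Two quantum ergodic sequences.** -/
theorem two (D : JD Ω lam nu u k) (D' : JD Ω mu nu g k) {δ : ℝ} (hδ : 0 < δ)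
    (h1 : ∀ᶠ n in atTop, δ * lam n ≤ mu n ∧ δ * mu n ≤ lam n)
    (h2 : ∀ᶠ n in atTop, δ * (lam n + mu n + nu n) ^ 2 ≤ |her (lam n) (mu n) (nu n)|)
    (h3 : ∀ᶠ n in atTop, δ * (lam n + mu n + nu n) ≤ |nu n - (|lam n - mu n|)|)
    {ψ : ℂ → ℝ} (hψ : TF Ω ψ) :
    Tendsto (fun n => JT ψ (u n) (g n) (k n)) atTop (𝓝 0) := by
  have hall := (h1.and h2).and h3
  rw [eventually_atTop] at hall
  obtain ⟨N, hN⟩ := hall
  rw [← tendsto_add_atTop_iff_nat N]
  have hs : Tendsto (fun n : ℕ => n + N) atTop atTop := tendsto_add_atTop_nat N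
  have T : T3 Ω (fun n => lam (n + N)) (fun n => mu (n + N)) (fun n => nu (n + N))
      (fun n => u (n + N)) (fun n => g (n + N)) (fun n => k (n + N)) (1 / δ) := by
    refine ⟨D.cmp hs, D'.cmp hs, fun n => ?_, fun n => ?_⟩
    · have := ((hN (n + N) (Nat.le_add_left _ _)).1.1).1
      rw [div_mul_eq_mul_div, one_mul, le_div_iff₀ hδ]; linarith
    · have := ((hN (n + N) (Nat.le_add_left _ _)).1.1).2
      rw [div_mul_eq_mul_div, one_mul, le_div_iff₀ hδ]; linarith
  refine T.off hψ (δ := δ ^ 3) (by positivity) (Eventually.of_forall fun n => ?_)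
  obtain ⟨⟨-, e2⟩, e3⟩ := hN (n + N) (Nat.le_add_left _ _)
  obtain ⟨a, ha⟩ : ∃ a, a = lam (n + N) := ⟨_, rfl⟩
  obtain ⟨b, hb⟩ : ∃ b, b = mu (n + N) := ⟨_, rfl⟩
  obtain ⟨c, hc⟩ : ∃ c, c = nu (n + N) := ⟨_, rfl⟩
  have a0 : 0 < a := by rw [ha]; exact D.lp _
  have b0 : 0 < b := by rw [hb]; exact D'.lp _
  have c0 : 0 < c := by rw [hc]; exact D.mp _
  have q1 := T.sg2 n
  have q0 := T.sg0 n
  have q2 : sg (fun n => lam (n + N)) (fun n => mu (n + N)) n = √(b / a) := by
    rw [hb, ha, ← q1, Real.sqrt_sq q0.le]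
  rw [← ha, ← hb, ← hc] at e2 e3
  show δ ^ 3 * (1 + nu (n + N) / lam (n + N)) ^ 4 ≤
    |(qP (sg (fun n => lam (n + N)) (fun n => mu (n + N)) n)).eval (nu (n + N) / lam (n + N))|
  rw [q2, ← ha, ← hc]
  rcases her_pol a b c a0.ne' with e | e
  · rw [e, abs_div, abs_mul, abs_neg, abs_of_pos (pow_pos a0 4)]
    have f1 : 0 ≤ |a - b| := abs_nonneg _
    have f2 : |c - (|a - b|)| ≤ c + |a - b| := by
      rw [abs_le]; constructor <;> linarith
    have f3 : |c ^ 2 - (a - b) ^ 2| = |c - (|a - b|)| * (c + |a - b|) := by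
      have : c ^ 2 - (a - b) ^ 2 = (c - |a - b|) * (c + |a - b|) := by
        rw [← sq_abs (a - b)]; ring
      rw [this, abs_mul, abs_of_pos (show 0 < c + |a - b| by linarith)]
    obtain ⟨S, hS⟩ : ∃ S, S = a + b + c := ⟨_, rfl⟩
    rw [← hS] at e2 e3
    have S0 : 0 < S := by rw [hS]; positivity
    have f4 : (δ * S) * (δ * S) ≤ |c ^ 2 - (a - b) ^ 2| := by
      rw [f3]
      exact mul_le_mul e3 (e3.trans f2) (by positivity) (abs_nonneg _)
    have f5 : (δ * S ^ 2) * ((δ * S) * (δ * S)) ≤ |her a b c| * |c ^ 2 - (a - b) ^ 2| :=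
      mul_le_mul e2 f4 (by positivity) (abs_nonneg _)
    rw [le_div_iff₀ (pow_pos a0 4)]
    refine le_trans ?_ f5
    have f6 : (1 + c / a) * a ≤ S := by
      rw [hS]
      have : (1 + c / a) * a = a + c := by field_simp
      rw [this]; linarith
    have f7 : ((1 + c / a) * a) ^ 4 ≤ S ^ 4 := pow_le_pow_left₀ (by positivity) f6 4
    calc δ ^ 3 * (1 + c / a) ^ 4 * a ^ 4 = δ ^ 3 * ((1 + c / a) * a) ^ 4 := by ring
      _ ≤ δ ^ 3 * S ^ 4 := mul_le_mul_of_nonneg_left f7 (by positivity)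
      _ = (δ * S ^ 2) * ((δ * S) * (δ * S)) := by ring
  · exact absurd e (not_lt.2 (div_nonneg b0.le a0.le))

lemma her_symm1 (a b c : ℝ) : her b c a = her a b c := by unfold her; ring
lemma her_symm2 (a b c : ℝ) : her a c b = her a b c := by unfold her; ring
lemma her_symm3 (a b c : ℝ) : her b a c = her a b c := by unfold her; ring

/-- near a right angle the other pair is nonexceptional -/
lemma right_angle {a b c δ : ℝ} (ha : 0 < a) (hb : 0 < b) (hc : 0 < c) (hδ : 0 < δ) (hδ1 : δ ≤ 1)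
    (h2 : δ * (a + b + c) ^ 2 ≤ |her a b c|) (h3 : |c - (a - b)| < δ / 8 * (a + b + c)) :
    δ / 8 * b ≤ c ∧ δ / 8 * c ≤ b ∧ δ / 8 * (a + b + c) ≤ |a - (|b - c|)| := by
  obtain ⟨S, hS⟩ : ∃ S, S = a + b + c := ⟨_, rfl⟩
  rw [← hS] at h2 h3 ⊢
  have S0 : 0 < S := by rw [hS]; positivity
  obtain ⟨x1, x2⟩ := abs_lt.1 h3
  have e1 : her a b c = 4 * (b * c) - (c - (a - b)) ^ 2 := by unfold her; ring
  have e2 : (c - (a - b)) ^ 2 ≤ (δ / 8 * S) ^ 2 := by
    rw [← sq_abs]; exact pow_le_pow_left₀ (abs_nonneg _) h3.le 2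
  have e3 : |her a b c| ≤ 4 * (b * c) + (δ / 8 * S) ^ 2 := by
    rw [e1, abs_le]
    have := sq_nonneg (c - (a - b))
    have h5 : 0 < b * c := mul_pos hb hc
    constructor <;> nlinarith
  have e4 : (δ / 8 * S) ^ 2 ≤ δ / 2 * S ^ 2 := by
    have : δ * δ ≤ δ * 1 := mul_le_mul_of_nonneg_left hδ1 hδ.le
    have s2 : 0 < S ^ 2 := by positivity
    nlinarith
  have e5 : δ / 8 * S ^ 2 ≤ b * c := by nlinarith
  have cS : c ≤ S := by rw [hS]; linarith
  have bS : b ≤ S := by rw [hS]; linarith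
  have e6 : δ / 8 * S ≤ b := by
    have : b * c ≤ b * S := mul_le_mul_of_nonneg_left cS hb.le
    have : (δ / 8 * S) * S ≤ b * S := by nlinarith
    exact le_of_mul_le_mul_right this S0
  have e7 : δ / 8 * S ≤ c := by
    have : b * c ≤ S * c := mul_le_mul_of_nonneg_right bS hc.le
    have : (δ / 8 * S) * S ≤ c * S := by nlinarith
    exact le_of_mul_le_mul_right this S0
  refine ⟨?_, ?_, ?_⟩
  · have : δ / 8 * b ≤ δ / 8 * S := mul_le_mul_of_nonneg_left bS (by positivity)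
    linarith
  · have : δ / 8 * c ≤ δ / 8 * S := mul_le_mul_of_nonneg_left cS (by positivity)
    linarith
  · have f1 : |b - c| ≤ b + c - 2 * (δ / 8 * S) := by
      rw [abs_le]; constructor <;> linarith
    refine le_trans ?_ (le_abs_self _)
    linarith

/-- **Three quantum ergodic sequences.** -/
theorem three (D : JD Ω lam nu u k) (D' : JD Ω mu nu g k) (D1 : JD Ω mu lam g u)
    (D2 : JD Ω nu lam k u) (D3 : JD Ω lam mu u g) (D4 : JD Ω nu mu k g)
    {δ : ℝ} (hδ : 0 < δ)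
    (h1 : ∀ᶠ n in atTop, δ * lam n ≤ mu n ∧ δ * mu n ≤ lam n)
    (h2 : ∀ᶠ n in atTop, δ * (lam n + mu n + nu n) ^ 2 ≤ |her (lam n) (mu n) (nu n)|)
    {ψ : ℂ → ℝ} (hψ : TF Ω ψ) :
    Tendsto (fun n => JT ψ (u n) (g n) (k n)) atTop (𝓝 0) := by
  obtain ⟨d, hd⟩ : ∃ d, d = min δ 1 := ⟨_, rfl⟩
  have d0 : 0 < d := by rw [hd]; positivity
  have d1 : d ≤ 1 := by rw [hd]; exact min_le_right _ _
  have dδ : d ≤ δ := by rw [hd]; exact min_le_left _ _
  have d8 : d / 8 ≤ δ := by linarith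
  by_contra hcon
  rw [Filter.not_tendsto_iff_exists_frequently_notMem] at hcon
  obtain ⟨s, hs, hf⟩ := hcon
  have hall : ∀ᶠ n in atTop, (d / 8 * lam n ≤ mu n ∧ d / 8 * mu n ≤ lam n) ∧
      d * (lam n + mu n + nu n) ^ 2 ≤ |her (lam n) (mu n) (nu n)| := by
    filter_upwards [h1, h2] with n n1 n2
    have a0 := D.lp n
    have b0 := D'.lp n
    refine ⟨⟨?_, ?_⟩, ?_⟩
    · exact (mul_le_mul_of_nonneg_right d8 a0.le).trans n1.1
    · exact (mul_le_mul_of_nonneg_right d8 b0.le).trans n1.2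
    · exact (mul_le_mul_of_nonneg_right dδ (sq_nonneg _)).trans n2
  have hf2 := hf.and_eventually hall
  -- three classes of indices
  have cls : ∀ n, d / 8 * (lam n + mu n + nu n) ≤ |nu n - (|lam n - mu n|)| ∨
      |nu n - (lam n - mu n)| < d / 8 * (lam n + mu n + nu n) ∨
      |nu n - (mu n - lam n)| < d / 8 * (lam n + mu n + nu n) := by
    intro n
    by_cases c1 : d / 8 * (lam n + mu n + nu n) ≤ |nu n - (|lam n - mu n|)|
    · exact Or.inl c1
    · push Not at c1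
      right
      rcases le_total (mu n) (lam n) with h | h
      · left; rwa [abs_of_nonneg (show 0 ≤ lam n - mu n by linarith)] at c1
      · right
        rw [abs_of_nonpos (show lam n - mu n ≤ 0 by linarith)] at c1
        rwa [neg_sub] at c1
  have dw : ∀ n, d / 8 * (lam n + mu n + nu n) ^ 2 ≤ d * (lam n + mu n + nu n) ^ 2 := fun n =>
    mul_le_mul_of_nonneg_right (by linarith) (sq_nonneg _)
  have split : (∃ᶠ n in atTop, ((JT ψ (u n) (g n) (k n) ∉ s ∧
      ((d / 8 * lam n ≤ mu n ∧ d / 8 * mu n ≤ lam n) ∧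
      d * (lam n + mu n + nu n) ^ 2 ≤ |her (lam n) (mu n) (nu n)|)) ∧
      d / 8 * (lam n + mu n + nu n) ≤ |nu n - (|lam n - mu n|)|)) ∨
      (∃ᶠ n in atTop, ((JT ψ (u n) (g n) (k n) ∉ s ∧
      ((d / 8 * lam n ≤ mu n ∧ d / 8 * mu n ≤ lam n) ∧
      d * (lam n + mu n + nu n) ^ 2 ≤ |her (lam n) (mu n) (nu n)|)) ∧
      |nu n - (lam n - mu n)| < d / 8 * (lam n + mu n + nu n))) ∨
      (∃ᶠ n in atTop, ((JT ψ (u n) (g n) (k n) ∉ s ∧
      ((d / 8 * lam n ≤ mu n ∧ d / 8 * mu n ≤ lam n) ∧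
      d * (lam n + mu n + nu n) ^ 2 ≤ |her (lam n) (mu n) (nu n)|)) ∧
      |nu n - (mu n - lam n)| < d / 8 * (lam n + mu n + nu n))) := by
    rw [← frequently_or_distrib, ← frequently_or_distrib]
    refine hf2.mono fun n hn => ?_
    rcases cls n with h | h | h
    · exact Or.inl ⟨hn, h⟩
    · exact Or.inr (Or.inl ⟨hn, h⟩)
    · exact Or.inr (Or.inr ⟨hn, h⟩)
  rcases split with hF | hF | hF
  · obtain ⟨σ, hσ', hσ⟩ := extraction_of_frequently_atTop hF
    have hσ2 := hσ'.tendsto_atTop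
    have key := two (D.cmp hσ2) (D'.cmp hσ2) (δ := d / 8) (by positivity)
      (Eventually.of_forall fun n => (hσ n).1.2.1)
      (Eventually.of_forall fun n => (dw _).trans (hσ n).1.2.2)
      (Eventually.of_forall fun n => (hσ n).2) hψ
    obtain ⟨n, hn⟩ := (key.eventually hs).exists
    exact (hσ n).1.1 hn
  · obtain ⟨σ, hσ', hσ⟩ := extraction_of_frequently_atTop hF
    have hσ2 := hσ'.tendsto_atTop
    have ra : ∀ n, _ := fun n => right_angle (D.lp (σ n)) (D'.lp (σ n)) (D.mp (σ n)) d0 d1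
      (hσ n).1.2.2 (hσ n).2
    have key := two (D1.cmp hσ2) (D2.cmp hσ2) (δ := d / 8) (by positivity)
      (Eventually.of_forall fun n => ⟨(ra n).1, (ra n).2.1⟩)
      (Eventually.of_forall fun n => by
        have e := (dw (σ n)).trans (hσ n).1.2.2
        rw [her_symm1, show mu (σ n) + nu (σ n) + lam (σ n) = lam (σ n) + mu (σ n) + nu (σ n) by
          ring]
        exact e)
      (Eventually.of_forall fun n => by
        rw [show mu (σ n) + nu (σ n) + lam (σ n) = lam (σ n) + mu (σ n) + nu (σ n) by ring]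
        exact (ra n).2.2) hψ
    obtain ⟨n, hn⟩ := (key.eventually hs).exists
    refine (hσ n).1.1 ?_
    have e : JT ψ (u (σ n)) (g (σ n)) (k (σ n)) = JT ψ (g (σ n)) (k (σ n)) (u (σ n)) := by
      unfold JT; congr 1; funext z; ring
    rw [e]; exact hn
  · obtain ⟨σ, hσ', hσ⟩ := extraction_of_frequently_atTop hF
    have hσ2 := hσ'.tendsto_atTop
    have ra : ∀ n, _ := fun n => right_angle (a := mu (σ n)) (b := lam (σ n)) (c := nu (σ n))
      (D'.lp (σ n)) (D.lp (σ n)) (D.mp (σ n)) d0 d1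
      (by
        rw [her_symm3, show mu (σ n) + lam (σ n) + nu (σ n) = lam (σ n) + mu (σ n) + nu (σ n) by
          ring]
        exact (hσ n).1.2.2)
      (by
        rw [show mu (σ n) + lam (σ n) + nu (σ n) = lam (σ n) + mu (σ n) + nu (σ n) by ring]
        exact (hσ n).2)
    have key := two (D3.cmp hσ2) (D4.cmp hσ2) (δ := d / 8) (by positivity)
      (Eventually.of_forall fun n => ⟨(ra n).1, (ra n).2.1⟩)
      (Eventually.of_forall fun n => by
        have e := (dw (σ n)).trans (hσ n).1.2.2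
        rw [her_symm2, show lam (σ n) + nu (σ n) + mu (σ n) = lam (σ n) + mu (σ n) + nu (σ n) by
          ring]
        exact e)
      (Eventually.of_forall fun n => by
        have := (ra n).2.2
        rw [show lam (σ n) + nu (σ n) + mu (σ n) = mu (σ n) + lam (σ n) + nu (σ n) by ring]
        exact this) hψ
    obtain ⟨n, hn⟩ := (key.eventually hs).exists
    refine (hσ n).1.1 ?_
    have e : JT ψ (u (σ n)) (g (σ n)) (k (σ n)) = JT ψ (u (σ n)) (k (σ n)) (g (σ n)) := by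
      unfold JT; congr 1; funext z; ring
    rw [e]; exact hn

/-- a nondegenerate triangle has comparable sides -/
lemma tri_cmp {a b c δ : ℝ} (ha : 0 < a) (hb : 0 < b) (hc : 0 < c) (hδ : 0 < δ)
    (h : δ * (a + b + c) ^ 2 ≤ her a b c) : δ / 4 * a ≤ b ∧ δ / 4 * b ≤ a := by
  obtain ⟨S, hS⟩ : ∃ S, S = a + b + c := ⟨_, rfl⟩
  rw [← hS] at h
  have S0 : 0 < S := by rw [hS]; positivity
  have e1 : her a b c = 4 * (a * b) - (c - a - b) ^ 2 := by unfold her; ring
  have e2 : δ * S ^ 2 ≤ 4 * (a * b) := by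
    rw [e1] at h; nlinarith [sq_nonneg (c - a - b)]
  have aS : a ≤ S := by rw [hS]; linarith
  have bS : b ≤ S := by rw [hS]; linarith
  have e6 : δ / 4 * S ≤ b := by
    have : a * b ≤ S * b := mul_le_mul_of_nonneg_right aS hb.le
    have : (δ / 4 * S) * S ≤ b * S := by nlinarith
    exact le_of_mul_le_mul_right this S0
  have e7 : δ / 4 * S ≤ a := by
    have : a * b ≤ a * S := mul_le_mul_of_nonneg_left bS ha.le
    have : (δ / 4 * S) * S ≤ a * S := by nlinarith
    exact le_of_mul_le_mul_right this S0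
  constructor
  · exact (mul_le_mul_of_nonneg_left aS (by positivity)).trans e6
  · exact (mul_le_mul_of_nonneg_left bS (by positivity)).trans e7

end

end Pool.Agent.Run7.h9.TC
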