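import Pool.Agent.Run7.h9.TC.Lap

/-! Quadratic expressions in two ladders with coefficients in the bounded sequences. -/
set_option autoImplicit false
open MeasureTheory Filter Topology Complex Set
open scoped ContDiff Real Manifold

namespace Pool.Agent.Run7.h9.TC

open Pool.Agent.W745.RW Pool.Agent.TH294.RS Pool.Agent.Y265.HY Pool.Agent.Y265.HY.PS
open Pool.Agent.Y265.HY.JC Pool.Agent.R314.JN AddMonoidAlgebra
open Pool.Agent.TH294.RG (sL sL_eq lap_cg lap_lin)

noncomputable section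

variable {B : Set ℂ} {h κ : ℕ → ℝ} {w v : ℤ → ℕ → ℂ → ℂ} {C0 : ℝ}

/-- quadratic Laurent polynomials -/
abbrev A2 := AddMonoidAlgebra Rb (ℤ × ℤ)

/-- products of two ladders -/
def p2 (w v : ℤ → ℕ → ℂ → ℂ) (m : ℤ × ℤ) (n : ℕ) (z : ℂ) : ℂ := w m.1 n z * v m.2 n z

lemma p2_sm (S : Sys2 B h κ w v C0) (m : ℤ × ℤ) (n : ℕ) : ContDiffOn ℝ ∞ (p2 w v m n) B :=
  ((S.H.bd m.1).sm n).mul ((S.H'.bd m.2).sm n)

lemma LL_sm (S : Sys2 B h κ w v C0) (P : A2) (n : ℕ) : ContDiffOn ℝ ∞ (LL (p2 w v) P n) B := by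
  induction P using AddMonoidAlgebra.induction_linear with
  | zero => rw [map_zero]; exact contDiffOn_const
  | add p q hp hq => rw [map_add]; exact hp.add hq
  | single m r =>
    rw [LL_single]
    refine (contDiffOn_const (c := ((r.1 n : ℝ) : ℂ))).mul (p2_sm S m n) |>.congr fun z _ => ?_
    rw [smul_fld]

/-- the symbol of the Laplacian -/
def rr (s : Rb) : A2 := single 0 (1 + s * s) + single (1, -1) s + single (-1, 1) s

/-- `E` is the quadratic expression `P` up to `O(h)` -/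
def Good (B : Set ℂ) (h κ : ℕ → ℝ) (w v : ℤ → ℕ → ℂ → ℂ) (E : ℕ → ℂ → ℂ) (P : A2) : Prop :=
  ∃ Q, QM B h κ w v Q ∧ ∀ n, ∀ z ∈ B, E n z = LL (p2 w v) P n z + (h n : ℂ) * Q n z

variable (S : Sys2 B h κ w v C0)

lemma Good.cg {E E' : ℕ → ℂ → ℂ} {P P' : A2} (H : Good B h κ w v E P)
    (e : ∀ n, ∀ z ∈ B, E' n z = E n z) (e' : P' = P) : Good B h κ w v E' P' := by
  obtain ⟨Q, hQ, hQ'⟩ := H
  exact ⟨Q, hQ, fun n z hz => by rw [e n z hz, hQ' n z hz, e']⟩

lemma Good.add {E E' : ℕ → ℂ → ℂ} {P P' : A2} (H : Good B h κ w v E P)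
    (H' : Good B h κ w v E' P') : Good B h κ w v (fun n z => E n z + E' n z) (P + P') := by
  obtain ⟨Q, hQ, hQ'⟩ := H
  obtain ⟨R, hR, hR'⟩ := H'
  refine ⟨_, hQ.add hR, fun n z hz => ?_⟩
  beta_reduce
  rw [hQ' n z hz, hR' n z hz, map_add]
  show _ = LL (p2 w v) P n z + LL (p2 w v) P' n z + _
  ring

include S in
lemma Good.bmul {E : ℕ → ℂ → ℂ} {P : A2} (H : Good B h κ w v E P) (c : Rb) :
    Good B h κ w v (fun n z => (c.1 n : ℂ) * E n z) (c • P) := by
  obtain ⟨Q, hQ, hQ'⟩ := H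
  obtain ⟨C, hC⟩ := c.2
  refine ⟨_, hQ.bmul S hC, fun n z hz => ?_⟩
  beta_reduce
  rw [hQ' n z hz, map_smul, smul_fld]
  ring

lemma Good.hq {Q : ℕ → ℂ → ℂ} (hQ : QM B h κ w v Q) :
    Good B h κ w v (fun n z => (h n : ℂ) * Q n z) 0 :=
  ⟨Q, hQ, fun n z _ => by rw [map_zero]; simp⟩

include S in
lemma good_p (P : A2) : Good B h κ w v (LL (p2 w v) P) P :=
  ⟨_, QM.zero S, fun n z _ => by simp⟩

lemma sL_zero (n : ℕ) (z : ℂ) : TH294.RG.sL Complex.im h (fun _ _ => 0) n z = 0 := by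
  have e2 : lap (fun _ : ℂ => (0 : ℂ)) z = 0 := by
    have e0 : lap (fun _ : ℂ => (0 : ℂ)) z =
      fderiv ℝ (fun w => fderiv ℝ (fun _ : ℂ => (0 : ℂ)) w 1) z 1 +
      fderiv ℝ (fun w => fderiv ℝ (fun _ : ℂ => (0 : ℂ)) w I) z I := rfl
    rw [e0]; simp
  simp only [TH294.RG.sL, e2]; ring

include S in
lemma good_sLp (m : ℤ × ℤ) : Good B h κ w v (TH294.RG.sL Complex.im h (p2 w v m))
    (rr S.s * single m 1) := by
  obtain ⟨i, j⟩ := m
  obtain ⟨Q, hQ, hQ'⟩ := sL_prod2 S i j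
  refine ⟨Q, hQ, fun n z hz => ?_⟩
  have e : rr S.s * single (i, j) 1 = single (i, j) (1 + S.s * S.s) + single (i + 1, j - 1) S.s +
      single (i - 1, j + 1) S.s := by
    unfold rr
    rw [add_mul, add_mul, single_mul_single, single_mul_single, single_mul_single]
    simp only [mul_one, zero_add, Prod.mk_add_mk, add_comm (1 : ℤ), add_comm (-1 : ℤ),
      ← sub_eq_add_neg]
  have h1 := hQ' n z hz
  rw [e, map_add, map_add, LL_single, LL_single, LL_single]
  show TH294.RG.sL Complex.im h (fun n z => w i n z * v j n z) n z = _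
  rw [h1]
  show _ = (((1 + S.s * S.s) • p2 w v (i, j)) n z + (S.s • p2 w v (i + 1, j - 1)) n z +
    (S.s • p2 w v (i - 1, j + 1)) n z) + _
  rw [smul_fld, smul_fld, smul_fld]
  have e1 : ((S.s : Rb) : ℕ → ℝ) n = h n / κ n := rfl
  have e2 : ((1 + S.s * S.s : Rb) : ℕ → ℝ) n = 1 + (h n / κ n) * (h n / κ n) := rfl
  rw [e1, e2]
  simp only [p2]
  push_cast
  ring

include S in
lemma good_sLL (P : A2) : Good B h κ w v (TH294.RG.sL Complex.im h (LL (p2 w v) P))
    (rr S.s * P) := by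
  induction P using AddMonoidAlgebra.induction_linear with
  | zero =>
    refine (Good.hq (QM.zero S)).cg (fun n z _ => ?_) (by rw [mul_zero])
    rw [map_zero]
    show TH294.RG.sL Complex.im h (fun _ _ => 0) n z = _
    rw [sL_zero]; simp
  | add p q hp hq =>
    refine (hp.add hq).cg (fun n z hz => ?_) (by rw [mul_add])
    have e : LL (p2 w v) (p + q) n = fun z => 1 * LL (p2 w v) p n z + 1 * LL (p2 w v) q n z := by
      rw [map_add]; funext z
      show LL (p2 w v) p n z + LL (p2 w v) q n z = _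
      ring
    simp only [TH294.RG.sL]
    rw [e, lap_lin S.H.op (LL_sm S p n) (LL_sm S q n) 1 1 hz]
    ring
  | single m r =>
    refine ((good_sLp S m).bmul S r).cg (fun n z hz => ?_) ?_
    · have e : LL (p2 w v) (single m r) n = fun z => ((r.1 n : ℝ) : ℂ) * p2 w v m n z +
          0 * p2 w v m n z := by
        rw [LL_single]; funext z
        rw [smul_fld]; ring
      simp only [TH294.RG.sL]
      rw [e, lap_lin S.H.op (p2_sm S m n) (p2_sm S m n) _ _ hz]
      ring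
    · rw [← mul_smul_comm, smul_single', mul_one]

include S in
lemma Good.sL {E : ℕ → ℂ → ℂ} {P : A2} (H : Good B h κ w v E P) :
    Good B h κ w v (TH294.RG.sL Complex.im h E) (rr S.s * P) := by
  obtain ⟨Q, hQ, hQ'⟩ := H
  refine ((good_sLL S P).add (Good.hq (hQ.sL S))).cg (fun n z hz => ?_) (by rw [add_zero])
  have e : ∀ z ∈ B, E n z = 1 * LL (p2 w v) P n z + (h n : ℂ) * Q n z := fun z hz => by
    rw [hQ' n z hz, one_mul]
  simp only [TH294.RG.sL]
  rw [lap_cg S.H.op e hz, lap_lin S.H.op (LL_sm S P n) ((hQ.lb S).sm n) _ _ hz]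
  ring

include S in
lemma Good.it {E : ℕ → ℂ → ℂ} {P : A2} (H : Good B h κ w v E P) (i : ℕ) :
    Good B h κ w v ((TH294.RG.sL Complex.im h)^[i] E) (rr S.s ^ i * P) := by
  induction i with
  | zero => exact H.cg (fun _ _ _ => rfl) (by rw [pow_zero, one_mul])
  | succ i ih =>
    rw [Function.iterate_succ_apply']
    exact (Good.sL S ih).cg (fun _ _ _ => rfl) (by rw [pow_succ']; ring)

include S in
lemma Good.sum {ι : Type*} (t : Finset ι) {E : ι → ℕ → ℂ → ℂ} {P : ι → A2}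
    (H : ∀ i, Good B h κ w v (E i) (P i)) :
    Good B h κ w v (fun n z => ∑ i ∈ t, E i n z) (∑ i ∈ t, P i) := by
  classical
  induction t using Finset.induction_on with
  | empty => exact (Good.hq (QM.zero S)).cg (fun n z _ => by simp) (by simp)
  | insert i t hi ih =>
    refine ((H i).add ih).cg (fun n z _ => ?_) ?_
    · rw [Finset.sum_insert hi]
    · rw [Finset.sum_insert hi]

open Polynomial in
/-- a polynomial in the Laplacian -/
def opR (h : ℕ → ℝ) (F : Rb[X]) (E : ℕ → ℂ → ℂ) (n : ℕ) (z : ℂ) : ℂ :=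
  ∑ i ∈ F.support, (((F.coeff i).1 n : ℝ) : ℂ) * (TH294.RG.sL Complex.im h)^[i] E n z

open Polynomial in
include S in
lemma Good.op {E : ℕ → ℂ → ℂ} {P : A2} (H : Good B h κ w v E P) (F : Rb[X]) :
    Good B h κ w v (opR h F E) (Polynomial.aeval (rr S.s) F * P) := by
  refine (Good.sum S F.support fun i => (H.it S i).bmul S (F.coeff i)).cg (fun n z _ => rfl) ?_
  rw [Polynomial.aeval_eq_sum_range' (n := F.natDegree + 1) (Nat.lt_succ_self _), Finset.sum_mul]
  rw [Finset.sum_subset (s₁ := F.support) (s₂ := Finset.range (F.natDegree + 1))]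
  · refine Finset.sum_congr rfl fun i _ => ?_
    rw [smul_mul_assoc]
  · intro i hi
    exact Finset.mem_range_succ_iff.2 (Polynomial.le_natDegree_of_mem_supp i hi)
  · intro i _ hi
    rw [Polynomial.notMem_support_iff.1 hi, zero_smul]

include S in
lemma Good.sm {E : ℕ → ℂ → ℂ} {P : A2} (H : Good B h κ w v E P) (n : ℕ) :
    ContDiffOn ℝ ∞ (E n) B := by
  obtain ⟨Q, hQ, hQ'⟩ := H
  exact ((LL_sm S P n).add (contDiffOn_const.mul ((hQ.lb S).sm n))).congr fun z hz => hQ' n z hz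

end

end Pool.Agent.Run7.h9.TC
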