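import Pool.Agent.Run7.h9.TC.Err
import Pool.Agent.Y265.HY.JC2

/-! The Laplacian of products of two ladders. -/
set_option autoImplicit false
open MeasureTheory Filter Topology Complex Set
open scoped ContDiff Real Manifold

namespace Pool.Agent.Run7.h9.TC

open Pool.Agent.W745.RW Pool.Agent.TH294.RS Pool.Agent.Y265.HY Pool.Agent.Y265.HY.PS
open Pool.Agent.Y265.HY.JC Pool.Agent.R314.JN
open Pool.Agent.TH294.RG (sL sL_eq lap_cg lap_lin)

noncomputable section

variable {B : Set ℂ} {h κ : ℕ → ℝ} {w v : ℤ → ℕ → ℂ → ℂ} {C0 : ℝ}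

/-- quadratic error terms of two ladders -/
inductive QM (B : Set ℂ) (h κ : ℕ → ℝ) (w v : ℤ → ℕ → ℂ → ℂ) : (ℕ → ℂ → ℂ) → Prop
  | m1 {e f : ℕ → ℂ → ℂ} (he : M2C B h e) (hf : RP B h w f) :
      QM B h κ w v (fun n z => e n z * f n z)
  | m2 {e f : ℕ → ℂ → ℂ} (he : M2C B h e) (hf : RP B κ v f) :
      QM B h κ w v (fun n z => e n z * f n z)
  | add {f g : ℕ → ℂ → ℂ} (hf : QM B h κ w v f) (hg : QM B h κ w v g) :
      QM B h κ w v (fun n z => f n z + g n z)
  | cg {f g : ℕ → ℂ → ℂ} (hf : QM B h κ w v f) (e : ∀ n, ∀ z ∈ B, g n z = f n z) : QM B h κ w v g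

/-- the two systems, comparable scales -/
structure Sys2 (B : Set ℂ) (h κ : ℕ → ℝ) (w v : ℤ → ℕ → ℂ → ℂ) (C0 : ℝ) : Prop where
  H : SY B Complex.im h w
  H' : SY B Complex.im κ v
  BU : B ⊆ UH
  h0 : EX B h w (w 0)
  k0 : EX B κ v (v 0)
  hC : ∀ n, h n ≤ C0 * κ n
  hC' : ∀ n, κ n ≤ C0 * h n

lemma Sys2.rat (S : Sys2 B h κ w v C0) (n : ℕ) : |h n / κ n| ≤ C0 := by
  rw [abs_of_pos (div_pos (S.H.hpos n) (S.H'.hpos n)), div_le_iff₀ (S.H'.hpos n)]
  exact S.hC n

lemma Sys2.diag (S : Sys2 B h κ w v C0) : Sys2 B h h w w 1 where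
  H := S.H
  H' := S.H
  BU := S.BU
  h0 := S.h0
  k0 := S.h0
  hC := fun n => by rw [one_mul]
  hC' := fun n => by rw [one_mul]

lemma Sys2.symm (S : Sys2 B h κ w v C0) : Sys2 B κ h v w C0 where
  H := S.H'
  H' := S.H
  BU := S.BU
  h0 := S.k0
  k0 := S.h0
  hC := S.hC'
  hC' := S.hC

/-- the ratio of the scales -/
def Sys2.s (S : Sys2 B h κ w v C0) : Rb := ⟨fun n => h n / κ n, C0, S.rat⟩

variable (S : Sys2 B h κ w v C0)

include S in
lemma QM.lb {f : ℕ → ℂ → ℂ} (hf : QM B h κ w v f) : LB B 1 f := by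
  induction hf with
  | m1 he hf => exact LB.mul2 he.lb ((hf.dec.m S.H).lb)
  | m2 he hf => exact LB.mul2 he.lb ((hf.dec.m S.H').lb)
  | add _ _ ih1 ih2 => exact ih1.add ih2
  | cg _ e ih => exact ih.congr e

include S in
lemma QM.smulc {f : ℕ → ℂ → ℂ} (hf : QM B h κ w v f) {c : ℂ → ℂ}
    (hc : ContDiffOn ℝ ∞ c B) : QM B h κ w v (fun n z => c z * f n z) := by
  induction hf with
  | m1 he hg => exact (QM.m1 (he.smulc S.H.op S.H.hlim hc) hg).cg fun n z _ => by ring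
  | m2 he hg => exact (QM.m2 (he.smulc S.H.op S.H.hlim hc) hg).cg fun n z _ => by ring
  | add _ _ ih1 ih2 => exact (ih1.add ih2).cg fun n z _ => by ring
  | cg _ e ih => exact ih.cg fun n z hz => by rw [e n z hz]

include S in
lemma QM.cmul {f : ℕ → ℂ → ℂ} (hf : QM B h κ w v f) (c : ℂ) :
    QM B h κ w v (fun n z => c * f n z) := hf.smulc S (c := fun _ => c) contDiffOn_const

include S in
lemma QM.hmul {f : ℕ → ℂ → ℂ} (hf : QM B h κ w v f) :
    QM B h κ w v (fun n z => (h n : ℂ) * f n z) := by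
  induction hf with
  | m1 he hg => exact (QM.m1 (he.hmul S.H.op S.H.hlim) hg).cg fun n z _ => by ring
  | m2 he hg => exact (QM.m2 (he.hmul S.H.op S.H.hlim) hg).cg fun n z _ => by ring
  | add _ _ ih1 ih2 => exact (ih1.add ih2).cg fun n z _ => by ring
  | cg _ e ih => exact ih.cg fun n z hz => by rw [e n z hz]

include S in
lemma QM.bmul {f : ℕ → ℂ → ℂ} (hf : QM B h κ w v f) {c : ℕ → ℝ} {C : ℝ}
    (hc : ∀ n, |c n| ≤ C) : QM B h κ w v (fun n z => (c n : ℂ) * f n z) := by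
  induction hf with
  | m1 he hg => exact (QM.m1 (M2C_bmul S.H.op he hc) hg).cg fun n z _ => by ring
  | m2 he hg => exact (QM.m2 (M2C_bmul S.H.op he hc) hg).cg fun n z _ => by ring
  | add _ _ ih1 ih2 => exact (ih1.add ih2).cg fun n z _ => by ring
  | cg _ e ih => exact ih.cg fun n z hz => by rw [e n z hz]

include S in
lemma QM.sub {f g : ℕ → ℂ → ℂ} (hf : QM B h κ w v f) (hg : QM B h κ w v g) :
    QM B h κ w v (fun n z => f n z - g n z) :=
  (hf.add (hg.cmul S (-1))).cg fun n z _ => by ring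

include S in
lemma QM.sP {f : ℕ → ℂ → ℂ} (hf : QM B h κ w v f) :
    QM B h κ w v (TH294.RS.sP Complex.im h f) := by
  have hB := S.H.op
  induction hf with
  | m1 he hg =>
    refine ((QM.m1 (he.sP hB S.H.hlim S.H.sa) hg).add (QM.m1 he (hg.sP S.H))).cg fun n z hz => ?_
    simp only [TH294.RS.sP, DP]
    rw [dd_mul (fda hB (he.sm n) hz) (fda hB ((hg.dec.m S.H).sm n) hz)]
    ring
  | m2 he hg =>
    refine ((QM.m2 (he.sP hB S.H.hlim S.H.sa) hg).add
      (QM.m2 (M2C_bmul hB he S.rat) (hg.sP S.H'))).cg fun n z hz => ?_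
    have hk : (κ n : ℂ) ≠ 0 := by exact_mod_cast (S.H'.hpos n).ne'
    simp only [TH294.RS.sP, DP]
    rw [dd_mul (fda hB (he.sm n) hz) (fda hB ((hg.dec.m S.H').sm n) hz)]
    push_cast
    field_simp
  | add hf hg ih1 ih2 =>
    refine (ih1.add ih2).cg fun n z hz => ?_
    simp only [TH294.RS.sP, DP]
    rw [Pool.Agent.Y265.HY.dd_add (fda hB ((hf.lb S).sm n) hz) (fda hB ((hg.lb S).sm n) hz)]
    ring
  | cg _ e ih =>
    refine ih.cg fun n z hz => ?_
    simp only [TH294.RS.sP]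
    exact DP_cg hB (h n) (e n) hz

include S in
lemma QM.sM {f : ℕ → ℂ → ℂ} (hf : QM B h κ w v f) :
    QM B h κ w v (TH294.RS.sM Complex.im h f) := by
  have hB := S.H.op
  induction hf with
  | m1 he hg =>
    refine ((QM.m1 (he.sM hB S.H.hlim S.H.sa) hg).add (QM.m1 he (hg.sM S.H))).cg fun n z hz => ?_
    simp only [TH294.RS.sM, DM]
    rw [db_mul (fda hB (he.sm n) hz) (fda hB ((hg.dec.m S.H).sm n) hz)]
    ring
  | m2 he hg =>
    refine ((QM.m2 (he.sM hB S.H.hlim S.H.sa) hg).add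
      (QM.m2 (M2C_bmul hB he S.rat) (hg.sM S.H'))).cg fun n z hz => ?_
    have hk : (κ n : ℂ) ≠ 0 := by exact_mod_cast (S.H'.hpos n).ne'
    simp only [TH294.RS.sM, DM]
    rw [db_mul (fda hB (he.sm n) hz) (fda hB ((hg.dec.m S.H').sm n) hz)]
    push_cast
    field_simp
  | add hf hg ih1 ih2 =>
    refine (ih1.add ih2).cg fun n z hz => ?_
    simp only [TH294.RS.sM, DM]
    rw [Pool.Agent.Y265.HY.db_add (fda hB ((hf.lb S).sm n) hz) (fda hB ((hg.lb S).sm n) hz)]
    ring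
  | cg _ e ih =>
    refine ih.cg fun n z hz => ?_
    simp only [TH294.RS.sM]
    exact DM_cg hB (h n) (e n) hz

include S in
lemma QM.sL {f : ℕ → ℂ → ℂ} (hf : QM B h κ w v f) :
    QM B h κ w v (TH294.RG.sL Complex.im h f) := by
  refine ((((hf.sP S).sM S).cmul S (-1)).add
    (((hf.sP S).smulc S (ab_sm S.H.op S.H.sa)).hmul S)).cg fun n z hz => ?_
  rw [sL_eq S.H.op S.H.sa (hf.lb S).sm n hz]; ring

include S in
lemma QM.zero : QM B h κ w v (fun _ _ => 0) :=
  ((QM.m1 (S.H.bd 0) (RP.W S.H S.h0 0)).cmul S 0).cg fun n z _ => by ring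

include S in
/-- `-h² y² Δ` of a product of two ladders -/
lemma sL_prod2 (i j : ℤ) :
    ∃ Q, QM B h κ w v Q ∧ ∀ n, ∀ z ∈ B, TH294.RG.sL Complex.im h (fun n z => w i n z * v j n z) n z =
      (1 + ((h n / κ n : ℝ) : ℂ) ^ 2) * (w i n z * v j n z) + ((h n / κ n : ℝ) : ℂ) *
      (w (i + 1) n z * v (j - 1) n z + w (i - 1) n z * v (j + 1) n z) +
      (h n : ℂ) * Q n z := by
  have H := S.H
  have H' := S.H'
  have hB := H.op
  have rp : ∀ k, RP B h w (w k) := fun k => RP.W H S.h0 k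
  have rq : ∀ k, RP B κ v (v k) := fun k => RP.W H' S.k0 k
  obtain ⟨e1, he1, g1⟩ := H.up i
  obtain ⟨e2, he2', g2'⟩ := H'.up j
  obtain ⟨f1, hf1, k1⟩ := H.dn (i + 1)
  obtain ⟨f2, hf2', k2'⟩ := H'.dn j
  obtain ⟨f3, hf3, k3⟩ := H.dn i
  obtain ⟨f4, hf4', k4'⟩ := H'.dn (j + 1)
  have cmp : ∀ {e : ℕ → ℂ → ℂ}, M2C B κ e → M2C B h e := fun he =>
    M2C_cmp hB H.hpos H'.hpos S.hC he
  have he2 := cmp he2'
  have hf2 := cmp hf2'
  have hf4 := cmp hf4'
  have hk : ∀ n, (κ n : ℂ) ≠ 0 := fun n => by exact_mod_cast (H'.hpos n).ne'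
  have g2 : ∀ n, ∀ z ∈ B, DP Complex.im (h n) (v j n) z = ((h n / κ n : ℝ) : ℂ) * v (j + 1) n z +
      (h n : ℂ) * e2 n z := by
    intro n z hz
    have c := g2' n z hz
    have := hk n
    simp only [DP] at c ⊢
    push_cast
    field_simp
    linear_combination (h n : ℂ) * c
  have k2 : ∀ n, ∀ z ∈ B, DM Complex.im (h n) (v j n) z = -(((h n / κ n : ℝ) : ℂ) * v (j - 1) n z) +
      (h n : ℂ) * f2 n z := by
    intro n z hz
    have c := k2' n z hz
    have := hk n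
    simp only [DM] at c ⊢
    push_cast
    field_simp
    linear_combination (h n : ℂ) * c
  have k4 : ∀ n, ∀ z ∈ B, DM Complex.im (h n) (v (j + 1) n) z =
      -(((h n / κ n : ℝ) : ℂ) * v j n z) + (h n : ℂ) * f4 n z := by
    intro n z hz
    have c := k4' n z hz
    rw [add_sub_cancel_right] at c
    have := hk n
    simp only [DM] at c ⊢
    push_cast
    field_simp
    linear_combination (h n : ℂ) * c
  have cm1 : ∀ {e f : ℕ → ℂ → ℂ}, M2C B h e → RP B h w f →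
      QM B h κ w v (fun n z => f n z * e n z) :=
    fun he hf => (QM.m1 he hf).cg fun n z _ => by ring
  have q0 : QM B h κ w v (fun n z => w i n z * v j n z) := QM.m2 (H.bd i) (rq j)
  have q1 : QM B h κ w v (fun n z => e1 n z * v j n z + w i n z * e2 n z) :=
    (QM.m2 he1 (rq j)).add (cm1 he2 (rp i))
  have q2 : QM B h κ w v (fun n z => (f1 n z * v j n z + w (i + 1) n z * f2 n z) +
      ((h n / κ n : ℝ) : ℂ) * (f3 n z * v (j + 1) n z + w i n z * f4 n z)) :=
    ((QM.m2 hf1 (rq j)).add (cm1 hf2 (rp _))).add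
      (((QM.m2 hf3 (rq _)).add (cm1 hf4 (rp _))).bmul S S.rat)
  have q3 : QM B h κ w v (fun n z => ab Complex.im z *
      TH294.RS.sP Complex.im h (fun n z => w i n z * v j n z) n z) :=
    (q0.sP S).smulc S (ab_sm hB H.sa)
  have q4 := q1.sM S
  refine ⟨_, (q3.sub S q2).sub S q4, fun n z hz => ?_⟩
  have sw : ∀ k, ContDiffOn ℝ ∞ (w k n) B := fun k => (H.bd k).sm n
  have sv : ∀ k, ContDiffOn ℝ ∞ (v k n) B := fun k => (H'.bd k).sm n
  rw [sL_eq hB H.sa (q0.lb S).sm n hz]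
  obtain ⟨σ, hσ⟩ : ∃ σ : ℂ, σ = ((h n / κ n : ℝ) : ℂ) := ⟨_, rfl⟩
  -- `DP` of the product
  have eP : ∀ z ∈ B, TH294.RS.sP Complex.im h (fun n z => w i n z * v j n z) n z =
      (w (i + 1) n z * v j n z + σ * (w i n z * v (j + 1) n z)) +
      (h n : ℂ) * (e1 n z * v j n z + w i n z * e2 n z) := by
    intro z hz
    have c1 := g1 n z hz
    have c2 := g2 n z hz
    rw [← hσ] at c2
    simp only [TH294.RS.sP, DP] at c1 c2 ⊢
    rw [dd_mul (fda hB (sw i) hz) (fda hB (sv j) hz)]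
    linear_combination (v j n z) * c1 + (w i n z) * c2
  have eM : TH294.RS.sM Complex.im h (TH294.RS.sP Complex.im h (fun n z => w i n z * v j n z)) n z =
      DM Complex.im (h n) (fun z => (w (i + 1) n z * v j n z + σ * (w i n z * v (j + 1) n z)) +
      (h n : ℂ) * (e1 n z * v j n z + w i n z * e2 n z)) z := DM_cg hB (h n) eP hz
  have s1 := fda hB ((sw (i + 1)).mul (sv j)) hz
  have s2 := fda hB ((sw i).mul (sv (j + 1))) hz
  have s3 := fda hB ((q1.lb S).sm n) hz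
  have eM2 : DM Complex.im (h n) (fun z => (w (i + 1) n z * v j n z +
      σ * (w i n z * v (j + 1) n z)) +
      (h n : ℂ) * (e1 n z * v j n z + w i n z * e2 n z)) z =
      DM Complex.im (h n) (fun z => w (i + 1) n z * v j n z) z +
      σ * DM Complex.im (h n) (fun z => w i n z * v (j + 1) n z) z +
      (h n : ℂ) * TH294.RS.sM Complex.im h (fun n z => e1 n z * v j n z + w i n z * e2 n z) n z := by
    simp only [DM, TH294.RS.sM]
    rw [Pool.Agent.Y265.HY.db_add (f := fun z => w (i + 1) n z * v j n z + σ * (w i n z * v (j + 1) n z))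
      (g := fun z => (h n : ℂ) * (e1 n z * v j n z + w i n z * e2 n z)) (s1.add (s2.const_mul _))
      (s3.const_mul _), Pool.Agent.Y265.HY.db_add (f := fun z => w (i + 1) n z * v j n z)
      (g := fun z => σ * (w i n z * v (j + 1) n z)) s1 (s2.const_mul _), db_cm s3, db_cm s2]
    ring
  have m1 : DM Complex.im (h n) (fun z => w (i + 1) n z * v j n z) z =
      -(w i n z * v j n z) - σ * (w (i + 1) n z * v (j - 1) n z) +
      (h n : ℂ) * (f1 n z * v j n z + w (i + 1) n z * f2 n z) := by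
    have c1 := k1 n z hz
    have c2 := k2 n z hz
    rw [← hσ] at c2
    rw [add_sub_cancel_right] at c1
    simp only [DM] at c1 c2 ⊢
    rw [db_mul (fda hB (sw (i + 1)) hz) (fda hB (sv j) hz)]
    linear_combination (v j n z) * c1 + (w (i + 1) n z) * c2
  have m2 : DM Complex.im (h n) (fun z => w i n z * v (j + 1) n z) z =
      -(w (i - 1) n z * v (j + 1) n z) - σ * (w i n z * v j n z) +
      (h n : ℂ) * (f3 n z * v (j + 1) n z + w i n z * f4 n z) := by
    have c1 := k3 n z hz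
    have c2 := k4 n z hz
    rw [← hσ] at c2
    simp only [DM] at c1 c2 ⊢
    rw [db_mul (fda hB (sw i) hz) (fda hB (sv (j + 1)) hz)]
    linear_combination (v (j + 1) n z) * c1 + (w i n z) * c2
  rw [eM, eM2, m1, m2, ← hσ]
  ring

end

end Pool.Agent.Run7.h9.TC
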