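import Pool.Agent.Run7.h9.TC.Spec

/-! Pairing of quadratic expressions in two ladders with a third sequence. -/
set_option autoImplicit false
open MeasureTheory Filter Topology Complex Set
open scoped ContDiff Real Manifold

namespace Pool.Agent.Run7.h9.TC

open Pool.Agent.W745.RW Pool.Agent.TH294.RS Pool.Agent.Y265.HY Pool.Agent.Y265.HY.PS
open Pool.Agent.Y265.HY.JC Pool.Agent.R314.JN AddMonoidAlgebra
open Pool.Agent.TH294.RG (sL)

noncomputable section

variable {B : Set ℂ} {h κ : ℕ → ℝ} {w v : ℤ → ℕ → ℂ → ℂ} {C0 : ℝ}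
variable (S : Sys2 B h κ w v C0)

include S in
lemma qm_wn {Q G : ℕ → ℂ → ℂ} (hQ : QM B h κ w v Q)
    (hG : LB B 2 G) : WN B (fun n z => (h n : ℂ) * (Q n z * G n z)) := by
  induction hQ with
  | @m1 e f he hf =>
    exact (hE3 S.H S.BU (LB.mul2 he.lb hG) hf).congr fun n z _ => by ring
  | @m2 e f he hf =>
    refine (WN.bsc (hE3 S.H' S.BU (LB.mul2 he.lb hG) hf) S.rat).congr fun n z _ => ?_
    have : (κ n : ℂ) ≠ 0 := by exact_mod_cast (S.H'.hpos n).ne'
    push_cast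
    field_simp
  | add _ _ h1 h2 => exact (h1.add h2).congr fun n z _ => by ring
  | cg _ e h1 => exact h1.congr fun n z hz => by rw [e n z hz]

include S in
lemma qm_hd1 {Q : ℕ → ℂ → ℂ} (hQ : QM B h κ w v Q) : QM B h κ w v (hd h 1 Q) := by
  refine ((((hQ.sP S).add (hQ.sM S)).smulc S (inv_im S.BU)).cmul S (1 / 2)).cg fun n z hz => ?_
  have hz' : (z.im : ℂ) ≠ 0 := by
    have : 0 < z.im := S.BU hz
    exact_mod_cast this.ne'
  simp only [TH294.RS.sP, TH294.RS.sM, DP, DM, dd, db, dx, dy, hd]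
  field_simp
  ring

include S in
lemma qm_hdI {Q : ℕ → ℂ → ℂ} (hQ : QM B h κ w v Q) : QM B h κ w v (hd h I Q) := by
  refine ((((hQ.sM S).sub S (hQ.sP S)).smulc S (inv_im S.BU)).cmul S (-I / 2)).cg
    fun n z hz => ?_
  have hz' : (z.im : ℂ) ≠ 0 := by
    have : 0 < z.im := S.BU hz
    exact_mod_cast this.ne'
  simp only [TH294.RS.sP, TH294.RS.sM, DP, DM, dd, db, dx, dy, hd]
  field_simp
  linear_combination (2 * (h n : ℂ) * fderiv ℝ (Q n) z I) * Complex.I_sq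

include S in
/-- **Pairing.** -/
theorem pairQ {r : ℕ → ℝ} {G : ℕ → ℂ → ℂ}
    (hG : LB B 2 G)
    (eG : ∀ n, ∀ z ∈ B, (h n : ℂ) ^ 2 * ((z.im : ℂ) ^ 2 * lap (G n) z) = -((r n : ℂ) * G n z))
    {E : ℕ → ℂ → ℂ} (hE : QM B h κ w v E) {φ : ℂ → ℝ} (hφ : TF B φ) :
    Tendsto (fun n => (r n : ℂ) * (∫ z, (φ z : ℂ) * (E n z * G n z)) -
      ∫ z, (φ z : ℂ) * (sL Complex.im h E n z * G n z)) atTop (𝓝 0) := by
  have hB := S.H.op
  have hψ : TF B (fun z => φ z * z.im ^ 2) :=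
    TF.mulc hB hφ ((imCLM.contDiff.pow 2).contDiffOn)
  set ψ : ℂ → ℝ := fun z => φ z * z.im ^ 2 with hψd
  have t1 := fun v => Pool.Agent.W450.RW.T.tf_deriv hψ v
  have t2 := fun v => Pool.Agent.W450.RW.T.tf_deriv (t1 v) v
  have sE := (hE.lb S).sm
  have sG := hG.sm
  have n1 : ∀ v, Tendsto (fun n => ∫ z, ((fderiv ℝ (fun w => fderiv ℝ ψ w v) z v : ℝ) : ℂ) *
      ((h n : ℂ) * (((h n : ℂ) * E n z) * G n z))) atTop (𝓝 0) := fun v =>
    (qm_wn S (hE.hmul S) hG).nul _ (t2 v)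
  have n2 : Tendsto (fun n => ∫ z, ((fderiv ℝ ψ z 1 : ℝ) : ℂ) *
      ((h n : ℂ) * (hd h 1 E n z * G n z))) atTop (𝓝 0) :=
    (qm_wn S (qm_hd1 S hE) hG).nul _ (t1 1)
  have n3 : Tendsto (fun n => ∫ z, ((fderiv ℝ ψ z I : ℝ) : ℂ) *
      ((h n : ℂ) * (hd h I E n z * G n z))) atTop (𝓝 0) :=
    (qm_wn S (qm_hdI S hE) hG).nul _ (t1 I)
  have n4 := (((n1 1).add (n1 I)).add ((n2.add n3).const_mul 2)).const_mul (-1)
  simp only [add_zero, mul_zero] at n4
  refine n4.congr fun n => ?_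
  have g1 := green hB hψ (sE n) (sG n) 1
  have g2 := green hB hψ (sE n) (sG n) I
  -- the left side
  have dsm : ∀ {F : ℂ → ℂ} (_ : ContDiffOn ℝ ∞ F B) (v : ℂ),
      ContDiffOn ℝ ∞ (fun w => fderiv ℝ F w v) B := fun hF v =>
    (hF.fderiv_of_isOpen hB (by simp)).clm_apply contDiffOn_const
  have a1 : (r n : ℂ) * (∫ z, (φ z : ℂ) * (E n z * G n z)) = -(h n : ℂ) ^ 2 *
      ((∫ z, (ψ z : ℂ) * (E n z * fderiv ℝ (fun w => fderiv ℝ (G n) w 1) z 1)) +
       ∫ z, (ψ z : ℂ) * (E n z * fderiv ℝ (fun w => fderiv ℝ (G n) w I) z I)) := by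
    have i1 : Integrable (fun z => (ψ z : ℂ) *
        (E n z * fderiv ℝ (fun w => fderiv ℝ (G n) w 1) z 1)) :=
      TF.cint hψ ((sE n).mul (dsm (dsm (sG n) 1) 1)).continuousOn
    have i2 : Integrable (fun z => (ψ z : ℂ) *
        (E n z * fderiv ℝ (fun w => fderiv ℝ (G n) w I) z I)) :=
      TF.cint hψ ((sE n).mul (dsm (dsm (sG n) I) I)).continuousOn
    rw [← integral_add i1 i2, ← integral_const_mul, ← integral_const_mul]
    congr 1; funext z
    by_cases hz : z ∈ B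
    · have e1 := eG n z hz
      have e2 : lap (G n) z = fderiv ℝ (fun w => fderiv ℝ (G n) w 1) z 1 +
        fderiv ℝ (fun w => fderiv ℝ (G n) w I) z I := rfl
      rw [e2] at e1
      simp only [hψd]
      push_cast
      linear_combination ((φ z : ℂ) * E n z) * e1
    · rw [TF.zero hφ hz, TF.zero hψ hz]; simp
  have a2 : ∫ z, (φ z : ℂ) * (sL Complex.im h E n z * G n z) = -(h n : ℂ) ^ 2 *
      ((∫ z, (ψ z : ℂ) * (fderiv ℝ (fun w => fderiv ℝ (E n) w 1) z 1 * G n z)) +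
       ∫ z, (ψ z : ℂ) * (fderiv ℝ (fun w => fderiv ℝ (E n) w I) z I * G n z)) := by
    have i1 : Integrable (fun z => (ψ z : ℂ) *
        (fderiv ℝ (fun w => fderiv ℝ (E n) w 1) z 1 * G n z)) :=
      TF.cint hψ ((dsm (dsm (sE n) 1) 1).mul (sG n)).continuousOn
    have i2 : Integrable (fun z => (ψ z : ℂ) *
        (fderiv ℝ (fun w => fderiv ℝ (E n) w I) z I * G n z)) :=
      TF.cint hψ ((dsm (dsm (sE n) I) I).mul (sG n)).continuousOn
    rw [← integral_add i1 i2, ← integral_const_mul]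
    congr 1; funext z
    have e2 : lap (E n) z = fderiv ℝ (fun w => fderiv ℝ (E n) w 1) z 1 +
        fderiv ℝ (fun w => fderiv ℝ (E n) w I) z I := rfl
    simp only [sL, hψd, e2]
    push_cast
    ring
  have b1 : ∀ v, ∫ z, ((fderiv ℝ (fun w => fderiv ℝ ψ w v) z v : ℝ) : ℂ) *
      ((h n : ℂ) * (((h n : ℂ) * E n z) * G n z)) = (h n : ℂ) ^ 2 *
      ∫ z, ((fderiv ℝ (fun w => fderiv ℝ ψ w v) z v : ℝ) : ℂ) * (E n z * G n z) := by
    intro v
    rw [← integral_const_mul]; congr 1; funext z; ring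
  have b2 : ∀ v, ∫ z, ((fderiv ℝ ψ z v : ℝ) : ℂ) * ((h n : ℂ) * (hd h v E n z * G n z)) =
      (h n : ℂ) ^ 2 * ∫ z, ((fderiv ℝ ψ z v : ℝ) : ℂ) * (fderiv ℝ (E n) z v * G n z) := by
    intro v
    rw [← integral_const_mul]; congr 1; funext z
    simp only [hd]; ring
  rw [b1, b1, b2, b2, a1, a2, g1, g2]
  ring


include S in
lemma qm_it {E : ℕ → ℂ → ℂ} (hE : QM B h κ w v E) (i : ℕ) :
    QM B h κ w v ((sL Complex.im h)^[i] E) := by
  induction i with
  | zero => exact hE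
  | succ i ih =>
    rw [Function.iterate_succ_apply']
    exact ih.sL S

lemma mul_nullC {a : ℕ → ℂ} (ha : Tendsto a atTop (𝓝 0)) {c : ℕ → ℝ} {C : ℝ}
    (hc : ∀ n, |c n| ≤ C) : Tendsto (fun n => (c n : ℂ) * a n) atTop (𝓝 0) := by
  refine squeeze_zero_norm (fun n => ?_) (by simpa using ha.norm.const_mul C)
  rw [norm_mul, Complex.norm_real, Real.norm_eq_abs]
  exact mul_le_mul_of_nonneg_right (hc n) (norm_nonneg _)

variable {r : ℕ → ℝ} (r0 : ∀ n, 0 ≤ r n) {G : ℕ → ℂ → ℂ} (hG : LB B 2 G)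
  (eG : ∀ n, ∀ z ∈ B, (h n : ℂ) ^ 2 * ((z.im : ℂ) ^ 2 * lap (G n) z) = -((r n : ℂ) * G n z))

include S r0 hG eG in
/-- iterated pairing -/
theorem pairQI {E : ℕ → ℂ → ℂ} (hE : QM B h κ w v E) {φ : ℂ → ℝ} (hφ : TF B φ) (i : ℕ) :
    Tendsto (fun n => ((r n : ℂ) ^ i * (∫ z, (φ z : ℂ) * (E n z * G n z)) -
      ∫ z, (φ z : ℂ) * ((sL Complex.im h)^[i] E n z * G n z)) / ((1 + r n : ℝ) : ℂ) ^ i)
      atTop (𝓝 0) := by
  induction i with
  | zero => simp
  | succ i ih =>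
    have p := pairQ S hG eG (qm_it S hE i) hφ
    have b1 : ∀ n, ‖(r n : ℂ) / ((1 + r n : ℝ) : ℂ)‖ ≤ 1 := by
      intro n
      have := r0 n
      rw [norm_div, Complex.norm_real, Complex.norm_real, Real.norm_eq_abs, Real.norm_eq_abs,
        abs_of_nonneg this, abs_of_nonneg (by linarith : 0 ≤ 1 + r n),
        div_le_one (by linarith)]
      linarith
    have t := (mul_null ih b1).add (mul_null p fun n => nb1 (r0 n) (i + 1))
    rw [add_zero] at t
    refine t.congr fun n => ?_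
    rw [Function.iterate_succ_apply']
    have := nb (r0 n)
    field_simp
    ring

open Polynomial in
include S r0 hG eG in
/-- pairing with a polynomial in the Laplacian -/
theorem pairR {E : ℕ → ℂ → ℂ} (hE : QM B h κ w v E) {φ : ℂ → ℝ} (hφ : TF B φ) (F : Rb[X]) :
    Tendsto (fun n => ((((F.map (evn n)).eval (r n) : ℝ) : ℂ) * (∫ z, (φ z : ℂ) *
      (E n z * G n z)) - ∫ z, (φ z : ℂ) * (opR h F E n z * G n z)) /
        ((1 + r n : ℝ) : ℂ) ^ F.natDegree) atTop (𝓝 0) := by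
  have t : Tendsto (fun n => ∑ i ∈ F.support, (((F.coeff i).1 n : ℝ) : ℂ) *
      (1 / ((1 + r n : ℝ) : ℂ) ^ (F.natDegree - i) *
      (((r n : ℂ) ^ i * (∫ z, (φ z : ℂ) * (E n z * G n z)) -
      ∫ z, (φ z : ℂ) * ((sL Complex.im h)^[i] E n z * G n z)) /
        ((1 + r n : ℝ) : ℂ) ^ i))) atTop (𝓝 0) := by
    have := tendsto_finsetSum F.support fun i _ => mul_nullC (mul_null
      (pairQI S r0 hG eG hE hφ i) fun n => nb1 (r0 n) (F.natDegree - i)) (F.coeff i).2.choose_spec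
    simpa using this
  refine t.congr fun n => ?_
  have sm : ∀ i, ContDiffOn ℝ ∞ ((sL Complex.im h)^[i] E n) B := fun i =>
    ((qm_it S hE i).lb S).sm n
  have ii : ∀ i, Integrable (fun z => (φ z : ℂ) *
      ((((F.coeff i).1 n : ℝ) : ℂ) * (sL Complex.im h)^[i] E n z * G n z)) := fun i =>
    TF.cint hφ ((continuousOn_const.mul (sm i).continuousOn).mul (hG.sm n).continuousOn)
  have e1 : ∫ z, (φ z : ℂ) * (opR h F E n z * G n z) =
      ∑ i ∈ F.support, (((F.coeff i).1 n : ℝ) : ℂ) *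
        ∫ z, (φ z : ℂ) * ((sL Complex.im h)^[i] E n z * G n z) := by
    simp only [opR, ← integral_const_mul]
    rw [← integral_finsetSum _ fun i _ => ?_]
    · congr 1; funext z
      rw [Finset.sum_mul, Finset.mul_sum]
      refine Finset.sum_congr rfl fun i _ => ?_
      ring
    · exact (ii i).congr (Eventually.of_forall fun z => by simp only; ring)
  have e2 : (((F.map (evn n)).eval (r n) : ℝ) : ℂ) =
      ∑ i ∈ F.support, (((F.coeff i).1 n : ℝ) : ℂ) * (r n : ℂ) ^ i := by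
    rw [Polynomial.eval_map, Polynomial.eval₂_eq_sum, Polynomial.sum_def]
    push_cast; rfl
  rw [e1, e2, Finset.sum_mul, ← Finset.sum_sub_distrib, Finset.sum_div]
  refine Finset.sum_congr rfl fun i hi => ?_
  have hd : i ≤ F.natDegree := Polynomial.le_natDegree_of_mem_supp i hi
  have hb := nb (r0 n)
  have e3 : ((1 + r n : ℝ) : ℂ) ^ F.natDegree = ((1 + r n : ℝ) : ℂ) ^ (F.natDegree - i) *
      ((1 + r n : ℝ) : ℂ) ^ i := by
    rw [← pow_add, Nat.sub_add_cancel hd]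
  rw [e3]
  field_simp

end

end Pool.Agent.Run7.h9.TC
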