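import Pool.Agent.Run7.h9.TC.Pair
import Pool.Agent.Y265.HY.JC5

/-! The power spectrum of the square with varying polynomials. -/
set_option autoImplicit false
open MeasureTheory Filter Topology Complex Set
open scoped ContDiff Real Manifold

namespace Pool.Agent.Run7.h9.TC

open Pool.Agent.W745.RW Pool.Agent.TH294.RS Pool.Agent.Y265.HY Pool.Agent.Y265.HY.PS
open Pool.Agent.Y265.HY.JC
open Pool.Agent.TH294.RG (vv sL sL1 opP sL_it sR sL1_re)

noncomputable section

variable {Ω : Set ℂ} {lam mu : ℕ → ℝ} {u g : ℕ → ℂ → ℝ}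

lemma PF_add (F G : Polynomial ℝ) (t : ℝ) (f : ℂ → ℝ) (z : ℂ) :
    PF (F + G) t f z = PF F t f z + PF G t f z := by
  unfold PF
  exact Polynomial.sum_add_index F G _ (fun i => by simp) (fun a b c => by ring)

/-- the bilinear spectral integral -/
def gB (F G : Polynomial ℝ) : ℝ :=
  1 / Real.pi * ∫ θ in (0 : ℝ)..(2 * Real.pi), F.eval (2 - 2 * Real.cos θ) *
    G.eval (2 - 2 * Real.cos θ)

lemma ce (F : Polynomial ℝ) : Continuous fun θ : ℝ => F.eval (2 - 2 * Real.cos θ) :=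
  F.continuous.comp (continuous_const.sub (continuous_const.mul Real.continuous_cos))

lemma gI_add (F G : Polynomial ℝ) : gI (F + G) = gI F + gI G + 2 * gB F G := by
  unfold gI gB
  have i1 : IntervalIntegrable (fun θ : ℝ => F.eval (2 - 2 * Real.cos θ) ^ 2) volume 0
    (2 * Real.pi) := ((ce F).pow 2).intervalIntegrable _ _
  have i2 : IntervalIntegrable (fun θ : ℝ => G.eval (2 - 2 * Real.cos θ) ^ 2) volume 0
    (2 * Real.pi) := ((ce G).pow 2).intervalIntegrable _ _
  have i3 : IntervalIntegrable (fun θ : ℝ => 2 * (F.eval (2 - 2 * Real.cos θ) *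
    G.eval (2 - 2 * Real.cos θ))) volume 0 (2 * Real.pi) :=
    (continuous_const.mul ((ce F).mul (ce G))).intervalIntegrable _ _
  have e : ∫ θ in (0 : ℝ)..(2 * Real.pi), (F + G).eval (2 - 2 * Real.cos θ) ^ 2 =
      ∫ θ in (0 : ℝ)..(2 * Real.pi), (F.eval (2 - 2 * Real.cos θ) ^ 2 +
        G.eval (2 - 2 * Real.cos θ) ^ 2) + 2 * (F.eval (2 - 2 * Real.cos θ) *
        G.eval (2 - 2 * Real.cos θ)) := by
    congr 1; funext θ
    rw [Polynomial.eval_add]; ring
  rw [e, intervalIntegral.integral_add (i1.add i2) i3, intervalIntegral.integral_add i1 i2,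
    intervalIntegral.integral_const_mul]
  ring

theorem f1b (D : JD Ω lam mu u g) {φ : ℂ → ℝ} (hφ : TF Ω φ) (F G : Polynomial ℝ) :
    Tendsto (fun n => (∫ z, φ z * (PF F (hh lam n) (u n) z * PF G (hh lam n) (u n) z)) -
      (2 * (F.eval 0 * G.eval 0) + F.eval 4 * G.eval 4) / 3 *
      ((∫ z, φ z * u n z ^ 4) - 3 * ∫ z, φ z)) atTop
      (𝓝 ((F.eval 0 * G.eval 0 + gB F G) * ∫ z, φ z)) := by
  have k := (((D.f1 hφ (F + G)).sub (D.f1 hφ F)).sub (D.f1 hφ G)).const_mul (1 / 2)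
  rw [gI_add] at k
  have e0 : 1 / 2 * (((F + G).eval 0 ^ 2 + (gI F + gI G + 2 * gB F G)) * (∫ z, φ z) -
      (F.eval 0 ^ 2 + gI F) * (∫ z, φ z) - (G.eval 0 ^ 2 + gI G) * (∫ z, φ z)) =
      (F.eval 0 * G.eval 0 + gB F G) * ∫ z, φ z := by
    rw [Polynomial.eval_add]; ring
  rw [e0] at k
  refine k.congr fun n => ?_
  have cF := D.PFc F n
  have cG := D.PFc G n
  have i1 : Integrable (fun z => φ z * PF F (hh lam n) (u n) z ^ 2) :=
    Pool.Agent.W311.RW.int_mul D.op hφ (cF.pow 2)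
  have i2 : Integrable (fun z => φ z * PF G (hh lam n) (u n) z ^ 2) :=
    Pool.Agent.W311.RW.int_mul D.op hφ (cG.pow 2)
  have i3 : Integrable (fun z => φ z * (PF F (hh lam n) (u n) z * PF G (hh lam n) (u n) z)) :=
    Pool.Agent.W311.RW.int_mul D.op hφ (cF.mul cG)
  have e1 : ∫ z, φ z * PF (F + G) (hh lam n) (u n) z ^ 2 =
      (∫ z, φ z * PF F (hh lam n) (u n) z ^ 2) + (∫ z, φ z * PF G (hh lam n) (u n) z ^ 2) +
      2 * ∫ z, φ z * (PF F (hh lam n) (u n) z * PF G (hh lam n) (u n) z) := by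
    have i4 : Integrable (fun z => φ z * PF F (hh lam n) (u n) z ^ 2 +
        φ z * PF G (hh lam n) (u n) z ^ 2) := i1.add i2
    rw [← integral_const_mul, ← integral_add i1 i2, ← integral_add i4 (i3.const_mul 2)]
    congr 1; funext z
    rw [PF_add]; ring
  rw [e1, Polynomial.eval_add, Polynomial.eval_add]
  ring

lemma PF_mono (i : ℕ) (t : ℝ) (f : ℂ → ℝ) (z : ℂ) :
    PF (Polynomial.monomial i 1) t f z = (sR Complex.im t)^[i] (fun w => f w ^ 2) z := by
  unfold PF
  rw [Polynomial.sum_monomial_index _ _ (by simp), one_mul]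

open Polynomial in
lemma sum_map (F : Rb[X]) (n : ℕ) (a : ℕ → ℝ) :
    (F.map (evn n)).sum (fun i c => c * a i) = ∑ i ∈ F.support, (F.coeff i).1 n * a i := by
  rw [Polynomial.sum_def]
  rw [Finset.sum_subset (Polynomial.support_map_subset (evn n) F)]
  · refine Finset.sum_congr rfl fun i _ => ?_
    rw [Polynomial.coeff_map]; rfl
  · intro i _ hi
    rw [Polynomial.notMem_support_iff.1 hi, zero_mul]

open Polynomial in
lemma PF_map (F : Rb[X]) (n : ℕ) (t : ℝ) (f : ℂ → ℝ) (z : ℂ) :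
    PF (F.map (evn n)) t f z = ∑ i ∈ F.support, (F.coeff i).1 n * PF (Polynomial.monomial i 1) t f z := by
  unfold PF
  rw [sum_map]
  refine Finset.sum_congr rfl fun i _ => ?_
  rw [Polynomial.sum_monomial_index _ _ (by simp), one_mul]

open Polynomial in
lemma ev_map (F : Rb[X]) (n : ℕ) (x : ℝ) :
    (F.map (evn n)).eval x = ∑ i ∈ F.support, (F.coeff i).1 n * (Polynomial.monomial i (1 : ℝ)).eval x := by
  rw [Polynomial.eval_eq_sum, sum_map F n (fun i => x ^ i)]
  refine Finset.sum_congr rfl fun i _ => ?_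
  rw [Polynomial.eval_monomial, one_mul]

lemma sq_sum {ι : Type*} (N : Finset ι) (c a : ι → ℝ) :
    (∑ i ∈ N, c i * a i) ^ 2 = ∑ i ∈ N, ∑ j ∈ N, c i * c j * (a i * a j) := by
  rw [sq, Finset.sum_mul_sum]
  refine Finset.sum_congr rfl fun i _ => Finset.sum_congr rfl fun j _ => by ring

open Polynomial in
lemma gI_map (F : Rb[X]) (n : ℕ) : gI (F.map (evn n)) = ∑ i ∈ F.support, ∑ j ∈ F.support,
    (F.coeff i).1 n * (F.coeff j).1 n * gB (Polynomial.monomial i 1) (Polynomial.monomial j 1) := by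
  unfold gI gB
  simp only [ev_map, sq_sum]
  rw [intervalIntegral.integral_finsetSum, Finset.mul_sum]
  · refine Finset.sum_congr rfl fun i _ => ?_
    rw [intervalIntegral.integral_finsetSum, Finset.mul_sum]
    · refine Finset.sum_congr rfl fun j _ => ?_
      rw [intervalIntegral.integral_const_mul]; ring
    · intro j _
      exact (continuous_const.mul ((ce _).mul (ce _))).intervalIntegrable _ _
  · intro i _
    exact (continuous_finsetSum _ fun j _ =>
      continuous_const.mul ((ce _).mul (ce _))).intervalIntegrable _ _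

lemma mul_nullR {a : ℕ → ℝ} (ha : Tendsto a atTop (𝓝 0)) {c : ℕ → ℝ} {C : ℝ}
    (hc : ∀ n, |c n| ≤ C) : Tendsto (fun n => c n * a n) atTop (𝓝 0) := by
  refine squeeze_zero_norm (fun n => ?_) (by simpa using ha.norm.const_mul C)
  rw [norm_mul, Real.norm_eq_abs]
  exact mul_le_mul_of_nonneg_right (hc n) (norm_nonneg _)

open Polynomial in
/-- the power spectrum with varying polynomials vanishing at the exceptional frequencies -/
theorem f1R (D : JD Ω lam mu u g) {φ : ℂ → ℝ} (hφ : TF Ω φ) (F : Rb[X])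
    (h0 : ∀ n, (F.map (evn n)).eval 0 = 0) (h4 : ∀ n, (F.map (evn n)).eval 4 = 0) :
    Tendsto (fun n => (∫ z, φ z * PF (F.map (evn n)) (hh lam n) (u n) z ^ 2) -
      gI (F.map (evn n)) * ∫ z, φ z) atTop (𝓝 0) := by
  obtain ⟨m, hm⟩ : ∃ m : ℕ → Polynomial ℝ, ∀ i, m i = Polynomial.monomial i 1 := ⟨_, fun _ => rfl⟩
  have key : ∀ i j : ℕ, Tendsto (fun n => (∫ z, φ z * (PF (m i) (hh lam n) (u n) z *
      PF (m j) (hh lam n) (u n) z)) -
      (2 * ((m i).eval 0 * (m j).eval 0) + (m i).eval 4 * (m j).eval 4) / 3 *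
      ((∫ z, φ z * u n z ^ 4) - 3 * ∫ z, φ z) -
      (((m i).eval 0 * (m j).eval 0 + gB (m i) (m j)) * ∫ z, φ z)) atTop (𝓝 0) := by
    intro i j
    have := (f1b D hφ (m i) (m j)).sub_const
      (((m i).eval 0 * (m j).eval 0 + gB (m i) (m j)) * ∫ z, φ z)
    rwa [sub_self] at this
  have k := tendsto_finsetSum F.support fun i _ => tendsto_finsetSum F.support fun j _ =>
    mul_nullR (key i j) (Rb_bd (F.coeff i * F.coeff j)).choose_spec
  simp only [Finset.sum_const_zero] at k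
  refine k.congr fun n => ?_
  have cF := fun i => D.PFc (m i) n
  have e1 : ∫ z, φ z * PF (F.map (evn n)) (hh lam n) (u n) z ^ 2 = ∑ i ∈ F.support,
      ∑ j ∈ F.support, (F.coeff i).1 n * (F.coeff j).1 n *
      ∫ z, φ z * (PF (m i) (hh lam n) (u n) z * PF (m j) (hh lam n) (u n) z) := by
    have e2 : ∀ z, φ z * PF (F.map (evn n)) (hh lam n) (u n) z ^ 2 = ∑ i ∈ F.support,
        ∑ j ∈ F.support, (F.coeff i).1 n * (F.coeff j).1 n *
        (φ z * (PF (m i) (hh lam n) (u n) z * PF (m j) (hh lam n) (u n) z)) := by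
      intro z
      rw [PF_map, sq_sum, Finset.mul_sum]
      refine Finset.sum_congr rfl fun i _ => ?_
      rw [Finset.mul_sum]
      refine Finset.sum_congr rfl fun j _ => ?_
      rw [hm, hm]; ring
    simp only [e2]
    have ii : ∀ i j, Integrable (fun z => (F.coeff i).1 n * (F.coeff j).1 n *
        (φ z * (PF (m i) (hh lam n) (u n) z * PF (m j) (hh lam n) (u n) z))) := fun i j =>
      (Pool.Agent.W311.RW.int_mul D.op hφ ((cF i).mul (cF j))).const_mul _
    rw [integral_finsetSum _ fun i _ => integrable_finsetSum _ fun j _ => ii i j]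
    refine Finset.sum_congr rfl fun i _ => ?_
    rw [integral_finsetSum _ fun j _ => ii i j]
    refine Finset.sum_congr rfl fun j _ => ?_
    rw [integral_const_mul]
  have s : ∀ x, ∑ i ∈ F.support, ∑ j ∈ F.support, (F.coeff i).1 n * (F.coeff j).1 n *
      ((m i).eval x * (m j).eval x) = (F.map (evn n)).eval x ^ 2 := by
    intro x
    rw [ev_map, sq_sum]
    simp only [hm]
  have s0 := s 0
  have s4 := s 4
  rw [h0 n] at s0
  rw [h4 n] at s4
  rw [e1, gI_map]
  simp only [← hm]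
  obtain ⟨E, hE⟩ : ∃ E, E = (∫ z, φ z * u n z ^ 4) - 3 * ∫ z, φ z := ⟨_, rfl⟩
  obtain ⟨I0, hI⟩ : ∃ I0, I0 = ∫ z, φ z := ⟨_, rfl⟩
  rw [← hE, ← hI]
  have e3 : ∀ i j : ℕ, (F.coeff i * F.coeff j : Rb).1 n = (F.coeff i).1 n * (F.coeff j).1 n :=
    fun i j => rfl
  simp only [e3]
  have e4 : ∑ i ∈ F.support, ∑ j ∈ F.support, (F.coeff i).1 n * (F.coeff j).1 n *
      ((∫ z, φ z * (PF (m i) (hh lam n) (u n) z * PF (m j) (hh lam n) (u n) z)) -
      (2 * ((m i).eval 0 * (m j).eval 0) + (m i).eval 4 * (m j).eval 4) / 3 * E -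
      ((m i).eval 0 * (m j).eval 0 + gB (m i) (m j)) * I0) =
      (∑ i ∈ F.support, ∑ j ∈ F.support, (F.coeff i).1 n * (F.coeff j).1 n *
      ∫ z, φ z * (PF (m i) (hh lam n) (u n) z * PF (m j) (hh lam n) (u n) z)) -
      (2 / 3 * E + I0) * (∑ i ∈ F.support, ∑ j ∈ F.support, (F.coeff i).1 n * (F.coeff j).1 n *
      ((m i).eval 0 * (m j).eval 0)) -
      (1 / 3 * E) * (∑ i ∈ F.support, ∑ j ∈ F.support, (F.coeff i).1 n * (F.coeff j).1 n *
      ((m i).eval 4 * (m j).eval 4)) -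
      (∑ i ∈ F.support, ∑ j ∈ F.support, (F.coeff i).1 n * (F.coeff j).1 n * gB (m i) (m j)) * I0 := by
    simp only [Finset.mul_sum, Finset.sum_mul, ← Finset.sum_sub_distrib]
    refine Finset.sum_congr rfl fun i _ => Finset.sum_congr rfl fun j _ => ?_
    ring
  rw [e4, s0, s4]
  ring

end

end Pool.Agent.Run7.h9.TC
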