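import Pool.Agent.Run7.h9.TC.Good

/-! Integrals of products of two quadratic expressions. -/
set_option autoImplicit false
open MeasureTheory Filter Topology Complex Set
open scoped ContDiff Real Manifold

namespace Pool.Agent.Run7.h9.TC

open Pool.Agent.W745.RW Pool.Agent.TH294.RS Pool.Agent.Y265.HY Pool.Agent.Y265.HY.PS
open Pool.Agent.Y265.HY.JC Pool.Agent.R314.JN AddMonoidAlgebra

noncomputable section

variable {B : Set ℂ} {h κ : ℕ → ℝ} {w v : ℤ → ℕ → ℂ → ℂ} {C0 : ℝ}

/-- products of four -/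
def p4 (w v : ℤ → ℕ → ℂ → ℂ) (m : Ga) (n : ℕ) (z : ℂ) : ℂ :=
  w m.1 n z * w m.2.1 n z * (v m.2.2.1 n z * v m.2.2.2 n z)

/-- the joint moments -/
def JN (w v : ℤ → ℕ → ℂ → ℂ) (φ : ℂ → ℝ) (a b c d : ℤ) (n : ℕ) : ℂ :=
  ∫ z, (φ z : ℂ) * p4 w v (a, b, c, d) n z

lemma p4_co (S : Sys2 B h κ w v C0) (m : Ga) (n : ℕ) : ContinuousOn (p4 w v m n) B :=
  (((S.H.bd m.1).co n).mul ((S.H.bd m.2.1).co n)).mul
    (((S.H'.bd m.2.2.1).co n).mul ((S.H'.bd m.2.2.2).co n))

lemma LL4_co (S : Sys2 B h κ w v C0) (P : AddMonoidAlgebra Rb Ga) (n : ℕ) :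
    ContinuousOn (LL (p4 w v) P n) B := by
  induction P using AddMonoidAlgebra.induction_linear with
  | zero => rw [map_zero]; exact continuousOn_const
  | add p q hp hq => rw [map_add]; exact hp.add hq
  | single m r =>
    rw [LL_single]
    refine ((continuousOn_const (c := ((r.1 n : ℝ) : ℂ))).mul (p4_co S m n)).congr fun z _ => ?_
    rw [smul_fld]; rfl

/-- the functional of the joint moments -/
lemma LL_JN (S : Sys2 B h κ w v C0) {φ : ℂ → ℝ} (hφ : TF B φ) (P : AddMonoidAlgebra Rb Ga) (n : ℕ) :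
    LL (Du (JN w v φ)) P n = ∫ z, (φ z : ℂ) * LL (p4 w v) P n z := by
  induction P using AddMonoidAlgebra.induction_linear with
  | zero => rw [map_zero, map_zero]; simp
  | add p q hp hq =>
    rw [map_add, map_add, Pi.add_apply, hp, hq, ← integral_add (TF.cint hφ (LL4_co S p n))
      (TF.cint hφ (LL4_co S q n))]
    congr 1; funext z
    show _ = (φ z : ℂ) * (LL (p4 w v) p n z + LL (p4 w v) q n z)
    ring
  | single m r =>
    rw [LL_single, LL_single, smul_seq]
    show _ * JN w v φ m.1 m.2.1 m.2.2.1 m.2.2.2 n = _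
    unfold JN
    rw [← integral_const_mul]
    congr 1; funext z
    rw [smul_fld]; ring

/-- products of quadratic expressions -/
lemma LL_mul {G G1 G2 : Type*} [AddMonoid G] [AddMonoid G1] [AddMonoid G2] (i : G1 →+ G)
    (j : G2 →+ G) {p : G1 → ℕ → ℂ → ℂ} {q : G2 → ℕ → ℂ → ℂ} {r : G → ℕ → ℂ → ℂ}
    (h : ∀ a b n z, r (i a + j b) n z = p a n z * q b n z)
    (P : AddMonoidAlgebra Rb G1) (Q : AddMonoidAlgebra Rb G2) (n : ℕ) (z : ℂ) :
    LL r (mapDomainRingHom Rb i P * mapDomainRingHom Rb j Q) n z = LL p P n z * LL q Q n z := by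
  induction P using AddMonoidAlgebra.induction_linear with
  | zero => rw [map_zero, zero_mul, map_zero, map_zero]; simp
  | add p1 p2 h1 h2 =>
    rw [map_add, add_mul, map_add, map_add]
    show LL r _ n z + LL r _ n z = (LL p p1 n z + LL p p2 n z) * LL q Q n z
    rw [h1, h2, add_mul]
  | single a c =>
    induction Q using AddMonoidAlgebra.induction_linear with
    | zero => rw [map_zero, mul_zero, map_zero, map_zero]; simp
    | add q1 q2 h1 h2 =>
      rw [map_add, mul_add, map_add, map_add]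
      show LL r _ n z + LL r _ n z = LL p _ n z * (LL q q1 n z + LL q q2 n z)
      rw [h1, h2, mul_add]
    | single b d =>
      have e1 : mapDomainRingHom Rb i (single a c) = single (i a) c := by
        show mapDomain i (single a c) = _
        rw [mapDomain_single]
      have e2 : mapDomainRingHom Rb j (single b d) = single (j b) d := by
        show mapDomain j (single b d) = _
        rw [mapDomain_single]
      rw [e1, e2, single_mul_single, LL_single, LL_single, LL_single, smul_fld, smul_fld, smul_fld,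
        h]
      have e3 : ((c * d : Rb) : ℕ → ℝ) n = c.1 n * d.1 n := rfl
      rw [e3]
      push_cast
      ring

/-- embeddings of the exponents -/
def ixu : ℤ × ℤ →+ Ga where
  toFun m := (m.1, 0, m.2, 0)
  map_zero' := rfl
  map_add' _ _ := by simp
def iyw : ℤ × ℤ →+ Ga where
  toFun m := (0, m.1, 0, m.2)
  map_zero' := rfl
  map_add' _ _ := by simp
def ixy : ℤ × ℤ →+ Ga where
  toFun m := (m.1, m.2, 0, 0)
  map_zero' := rfl
  map_add' _ _ := by simp
def iuw : ℤ × ℤ →+ Ga where
  toFun m := (0, 0, m.1, m.2)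
  map_zero' := rfl
  map_add' _ _ := by simp; rfl

lemma mul_mixed (P Q : A2) (n : ℕ) (z : ℂ) :
    LL (p4 w v) (mapDomainRingHom Rb ixu P * mapDomainRingHom Rb iyw Q) n z =
      LL (p2 w v) P n z * LL (p2 w v) Q n z := by
  refine LL_mul ixu iyw (fun a b n z => ?_) P Q n z
  simp only [ixu, iyw, AddMonoidHom.coe_mk, ZeroHom.coe_mk, Prod.mk_add_mk, add_zero, zero_add, p4,
    p2]
  ring

lemma mul_sq (P Q : A2) (n : ℕ) (z : ℂ) :
    LL (p4 w v) (mapDomainRingHom Rb ixy P * mapDomainRingHom Rb iuw Q) n z =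
      LL (p2 w w) P n z * LL (p2 v v) Q n z := by
  refine LL_mul ixy iuw (fun a b n z => ?_) P Q n z
  simp only [ixy, iuw, AddMonoidHom.coe_mk, ZeroHom.coe_mk, Prod.mk_add_mk, add_zero, zero_add, p4,
    p2]

/-- errors against a finite combination -/
lemma wn_LL {G : Type*} {p : G → ℕ → ℂ → ℂ} {c : ℕ → ℝ} {Q : ℕ → ℂ → ℂ}
    (hm : ∀ m, WN B (fun n z => (c n : ℂ) * (p m n z * Q n z))) (P : AddMonoidAlgebra Rb G) :
    WN B (fun n z => (c n : ℂ) * (LL p P n z * Q n z)) := by
  induction P using AddMonoidAlgebra.induction_linear with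
  | zero =>
    rw [map_zero]
    refine ⟨fun n => by simpa using continuousOn_const, fun φ hφ => ?_⟩
    simp only [Pi.zero_apply, zero_mul, mul_zero, integral_zero]
    exact tendsto_const_nhds
  | add p1 p2 h1 h2 =>
    refine (h1.add h2).congr fun n z _ => ?_
    rw [map_add]
    show _ = _ + _
    show (c n : ℂ) * ((LL p p1 n z + LL p p2 n z) * Q n z) = _
    ring
  | single m r =>
    obtain ⟨C, hC⟩ := r.2
    refine (WN.bsc (hm m) hC).congr fun n z _ => ?_
    rw [LL_single, smul_fld]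
    ring

variable (S : Sys2 B h κ w v C0)

include S in
lemma cr1 {Q : ℕ → ℂ → ℂ} (hQ : QM B h κ w v Q) (m : ℤ × ℤ) :
    WN B (fun n z => (h n : ℂ) * (p2 w v m n z * Q n z)) := by
  induction hQ with
  | @m1 e f he hf =>
    exact (hE4 S.H S.BU (LB.mul2 he.lb (S.H'.bd m.2).lb) (RP.W S.H S.h0 m.1) hf).congr
      fun n z _ => by simp only [p2]; ring
  | @m2 e f he hf =>
    exact (hE5 S.H S.H' S.BU S.hC (LB.mul2 he.lb (S.H.bd m.1).lb) (RP.W S.H' S.k0 m.2) hf).congr
      fun n z _ => by simp only [p2]; ring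
  | add _ _ h1 h2 => exact (h1.add h2).congr fun n z _ => by ring
  | cg _ e h1 => exact h1.congr fun n z hz => by rw [e n z hz]

include S in
lemma cr2 {Q Q' : ℕ → ℂ → ℂ} (hQ : QM B h κ w v Q) (hQ' : QM B h κ w v Q') :
    WN B (fun n z => (h n : ℂ) * ((h n : ℂ) * (Q n z * Q' n z))) := by
  induction hQ with
  | @m1 e f he hf =>
    induction hQ' with
    | @m1 e' f' he' hf' =>
      exact (hE4 S.H S.BU ((LB.mul2 he.lb he'.lb).hmul S.H.hlim) hf hf').congr
        fun n z _ => by ring
    | @m2 e' f' he' hf' =>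
      exact (hE6 S.H S.H' S.BU S.hC ((LB.mul2 he.lb he'.lb).hmul S.H.hlim) hf hf').congr
        fun n z _ => by ring
    | add _ _ h1 h2 => exact (h1.add h2).congr fun n z _ => by ring
    | cg _ e h1 => exact h1.congr fun n z hz => by rw [e n z hz]
  | @m2 e f he hf =>
    induction hQ' with
    | @m1 e' f' he' hf' =>
      exact (hE6 S.H S.H' S.BU S.hC ((LB.mul2 he.lb he'.lb).hmul S.H.hlim) hf' hf).congr
        fun n z _ => by ring
    | @m2 e' f' he' hf' =>
      exact (hE5 S.H S.H' S.BU S.hC ((LB.mul2 he.lb he'.lb).hmul S.H.hlim) hf hf').congr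
        fun n z _ => by ring
    | add _ _ h1 h2 => exact (h1.add h2).congr fun n z _ => by ring
    | cg _ e h1 => exact h1.congr fun n z hz => by rw [e n z hz]
  | add _ _ h1 h2 => exact (h1.add h2).congr fun n z _ => by ring
  | cg _ e h1 => exact h1.congr fun n z hz => by rw [e n z hz]

include S in
/-- errors of the first system against the second -/
lemma cr3 {Q : ℕ → ℂ → ℂ} (hQ : QM B h h w w Q) (m : ℤ × ℤ) :
    WN B (fun n z => (h n : ℂ) * (p2 v v m n z * Q n z)) := by
  have key : ∀ {e f : ℕ → ℂ → ℂ}, M2C B h e → RP B h w f →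
      WN B (fun n z => (h n : ℂ) * (p2 v v m n z * (e n z * f n z))) := fun {e f} he hf =>
    (hE5 S.H S.H' S.BU S.hC (LB.mul2 he.lb (hf.dec.m S.H).lb) (RP.W S.H' S.k0 m.1)
      (RP.W S.H' S.k0 m.2)).congr fun n z _ => by simp only [p2]; ring
  induction hQ with
  | m1 he hf => exact key he hf
  | m2 he hf => exact key he hf
  | add _ _ h1 h2 => exact (h1.add h2).congr fun n z _ => by ring
  | cg _ e h1 => exact h1.congr fun n z hz => by rw [e n z hz]

include S in
lemma cr4 {Q Q' : ℕ → ℂ → ℂ} (hQ : QM B h h w w Q) (hQ' : QM B κ κ v v Q') :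
    WN B (fun n z => (h n : ℂ) * ((κ n : ℂ) * (Q n z * Q' n z))) := by
  have key : ∀ {e f e' f' : ℕ → ℂ → ℂ}, M2C B h e → RP B h w f → M2C B κ e' → RP B κ v f' →
      WN B (fun n z => (h n : ℂ) * ((κ n : ℂ) * ((e n z * f n z) * (e' n z * f' n z)))) :=
    fun {e f e' f'} he hf he' hf' =>
      (hE6 S.H S.H' S.BU S.hC ((LB.mul2 he.lb he'.lb).hmul S.H'.hlim) hf hf').congr
        fun n z _ => by ring
  induction hQ with
  | m1 he hf =>
    induction hQ' with
    | m1 he' hf' => exact key he hf he' hf'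
    | m2 he' hf' => exact key he hf he' hf'
    | add _ _ h1 h2 => exact (h1.add h2).congr fun n z _ => by ring
    | cg _ e h1 => exact h1.congr fun n z hz => by rw [e n z hz]
  | m2 he hf =>
    induction hQ' with
    | m1 he' hf' => exact key he hf he' hf'
    | m2 he' hf' => exact key he hf he' hf'
    | add _ _ h1 h2 => exact (h1.add h2).congr fun n z _ => by ring
    | cg _ e h1 => exact h1.congr fun n z hz => by rw [e n z hz]
  | add _ _ h1 h2 => exact (h1.add h2).congr fun n z _ => by ring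
  | cg _ e h1 => exact h1.congr fun n z hz => by rw [e n z hz]

include S in
/-- integrals of products of two mixed expressions -/
theorem int_mixed {φ : ℂ → ℝ} (hφ : TF B φ) {E E' : ℕ → ℂ → ℂ} {P P' : A2}
    (g : Good B h κ w v E P) (g' : Good B h κ w v E' P') :
    Tendsto (fun n => (∫ z, (φ z : ℂ) * (E n z * E' n z)) -
      LL (Du (JN w v φ)) (mapDomainRingHom Rb ixu P * mapDomainRingHom Rb iyw P') n) atTop
      (𝓝 0) := by
  have sE := g.sm S
  have sE' := g'.sm S
  obtain ⟨Q, hQ, e⟩ := g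
  obtain ⟨Q', hQ', e'⟩ := g'
  have w1 := wn_LL (fun m => cr1 S hQ' m) P
  have w2 := wn_LL (fun m => cr1 S hQ m) P'
  have w3 := cr2 S hQ hQ'
  have k := ((w1.add w2).add w3).nul φ hφ
  refine Tendsto.congr (fun n => ?_) k
  have i1 : Integrable (fun z => (φ z : ℂ) * (E n z * E' n z)) :=
    TF.cint hφ ((sE n).continuousOn.mul (sE' n).continuousOn)
  rw [LL_JN S hφ, ← integral_sub i1 (TF.cint hφ (LL4_co S _ n))]
  congr 1; funext z
  by_cases hz : z ∈ B
  · rw [mul_mixed, e n z hz, e' n z hz]; ring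
  · rw [TF.zero hφ hz]; simp

include S in
/-- integrals of products of an expression in the first and one in the second ladder -/
theorem int_sq {φ : ℂ → ℝ} (hφ : TF B φ) {E E' : ℕ → ℂ → ℂ} {P P' : A2}
    (g : Good B h h w w E P) (g' : Good B κ κ v v E' P') :
    Tendsto (fun n => (∫ z, (φ z : ℂ) * (E n z * E' n z)) -
      LL (Du (JN w v φ)) (mapDomainRingHom Rb ixy P * mapDomainRingHom Rb iuw P') n) atTop
      (𝓝 0) := by
  have sE := g.sm S.diag
  have sE' := g'.sm S.symm.diag
  obtain ⟨Q, hQ, e⟩ := g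
  obtain ⟨Q', hQ', e'⟩ := g'
  have w1 := wn_LL (fun m => cr3 S.symm hQ' m) P
  have w2 := wn_LL (fun m => cr3 S hQ m) P'
  have w3 := cr4 S hQ hQ'
  have k := ((w1.add w2).add w3).nul φ hφ
  refine Tendsto.congr (fun n => ?_) k
  have i1 : Integrable (fun z => (φ z : ℂ) * (E n z * E' n z)) :=
    TF.cint hφ ((sE n).continuousOn.mul (sE' n).continuousOn)
  rw [LL_JN S hφ, ← integral_sub i1 (TF.cint hφ (LL4_co S _ n))]
  congr 1; funext z
  by_cases hz : z ∈ B
  · rw [mul_sq, e n z hz, e' n z hz]; ring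
  · rw [TF.zero hφ hz]; simp

end

end Pool.Agent.Run7.h9.TC
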