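import Pool.Agent.Run7.h9.TC.Prod

/-! The relations of the centred joint moments, and the Wick values. -/
set_option autoImplicit false
open MeasureTheory Filter Topology Complex Set
open scoped ContDiff Real Manifold

namespace Pool.Agent.Run7.h9.TC

open Pool.Agent.W745.RW Pool.Agent.TH294.RS Pool.Agent.Y265.HY Pool.Agent.Y265.HY.PS
open Pool.Agent.Y265.HY.JC Pool.Agent.R314.JN AddMonoidAlgebra

noncomputable section

variable {B : Set ℂ} {h κ : ℕ → ℝ} {w v : ℤ → ℕ → ℂ → ℂ} {C0 : ℝ}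

/-- the Wick values -/
def Wk (a b c d : ℤ) (_ : ℕ) : ℂ := CC a b * CC c d

/-- the centred joint moments -/
def DN (w v : ℤ → ℕ → ℂ → ℂ) (φ : ℂ → ℝ) (a b c d : ℤ) (n : ℕ) : ℂ :=
  JN w v φ a b c d n - ((∫ z, φ z : ℝ) : ℂ) * Wk a b c d n

lemma JN_conj (S : Sys2 B h κ w v C0) {φ : ℂ → ℝ} (hφ : TF B φ) (a b c d : ℤ) (n : ℕ) :
    (starRingEnd ℂ) (JN w v φ a b c d n) = (-1) ^ a.natAbs * (-1) ^ b.natAbs *
      ((-1) ^ c.natAbs * (-1) ^ d.natAbs) * JN w v φ (-a) (-b) (-c) (-d) n := by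
  unfold JN
  rw [← integral_conj, ← integral_const_mul]
  congr 1; funext z
  by_cases hz : z ∈ B
  · simp only [p4]
    rw [map_mul, map_mul, map_mul, map_mul, conj_ofReal, S.H.cj a n z hz, S.H.cj b n z hz,
      S.H'.cj c n z hz, S.H'.cj d n z hz]
    ring
  · rw [TF.zero hφ hz]; simp

lemma p4i (S : Sys2 B h κ w v C0) {φ : ℂ → ℝ} (hφ : TF B φ) (m : Ga) (n : ℕ) :
    Integrable (fun z => (φ z : ℂ) * p4 w v m n z) := TF.cint hφ (p4_co S m n)

lemma LL_p4 (a b c d : ℤ) (n : ℕ) (z : ℂ) :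
    LL (p4 w v) (mn a b c d : AddMonoidAlgebra Rb Ga) n z = p4 w v (a, b, c, d) n z := by
  unfold mn
  rw [LL_single, one_smul]

/-- translation relation of the joint moments -/
lemma JN_T (S : Sys2 B h κ w v C0) {φ : ℂ → ℝ} (hφ : TF B φ) (a b c d : ℤ) :
    Tendsto (fun n => JN w v φ (a + 1) b c d n + JN w v φ a (b + 1) c d n +
    (S.s.1 n : ℂ) * (JN w v φ a b (c + 1) d n + JN w v φ a b c (d + 1) n)) atTop (𝓝 0) := by
  have k := (tr5 S.H S.H' S.BU S.hC S.h0 S.k0 a b c d).nul φ hφ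
  refine Tendsto.congr (fun n => ?_) k
  have e := LL_JN S hφ (mn (a + 1) b c d + mn a (b + 1) c d +
      S.s • (mn a b (c + 1) d + mn a b c (d + 1))) n
  rw [map_add, map_add, map_smul, map_add, LL_mn, LL_mn, LL_mn, LL_mn] at e
  simp only [Pi.add_apply, smul_seq] at e
  rw [e]
  congr 1; funext z
  rw [map_add, map_add, map_smul, map_add]
  simp only [Pi.add_apply, smul_fld, LL_p4, p4]
  show _ = _ * (_ + ((h n / κ n : ℝ) : ℂ) * _)
  ring

lemma sgn_dn (a : ℤ) : ((-1 : ℂ)) ^ (a - 1).natAbs = - (-1) ^ a.natAbs := by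
  have := sgn_succ (a - 1)
  rw [sub_add_cancel] at this
  rw [this, neg_neg]

lemma JN_T' (S : Sys2 B h κ w v C0) {φ : ℂ → ℝ} (hφ : TF B φ) (a b c d : ℤ) :
    Tendsto (fun n => JN w v φ (a - 1) b c d n + JN w v φ a (b - 1) c d n +
    (S.s.1 n : ℂ) * (JN w v φ a b (c - 1) d n + JN w v φ a b c (d - 1) n)) atTop (𝓝 0) := by
  have k := (Complex.continuous_conj.tendsto _).comp (JN_T S hφ (-a) (-b) (-c) (-d))
  have k2 := k.const_mul (-((-1) ^ a.natAbs * (-1) ^ b.natAbs *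
    ((-1) ^ c.natAbs * (-1) ^ d.natAbs)))
  rw [map_zero, mul_zero] at k2
  refine Tendsto.congr (fun n => ?_) k2
  simp only [Function.comp_def]
  rw [map_add, map_add, map_mul, map_add, conj_ofReal, JN_conj S hφ, JN_conj S hφ, JN_conj S hφ,
    JN_conj S hφ]
  rw [show -(-a + 1) = a - 1 by ring, show -(-b + 1) = b - 1 by ring,
    show -(-c + 1) = c - 1 by ring, show -(-d + 1) = d - 1 by ring, neg_neg, neg_neg, neg_neg,
    neg_neg, sgn_succ, sgn_succ, sgn_succ, sgn_succ, Int.natAbs_neg, Int.natAbs_neg,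
    Int.natAbs_neg, Int.natAbs_neg]
  have e : ∀ x : ℤ, ((-1 : ℂ)) ^ x.natAbs * (-1) ^ x.natAbs = 1 := fun x => by
    rw [← mul_pow]; simp
  obtain ⟨A, hA⟩ : ∃ A, A = ((-1 : ℂ)) ^ a.natAbs := ⟨_, rfl⟩
  obtain ⟨A2, hA2⟩ : ∃ A, A = ((-1 : ℂ)) ^ b.natAbs := ⟨_, rfl⟩
  obtain ⟨A3, hA3⟩ : ∃ A, A = ((-1 : ℂ)) ^ c.natAbs := ⟨_, rfl⟩
  obtain ⟨A4, hA4⟩ : ∃ A, A = ((-1 : ℂ)) ^ d.natAbs := ⟨_, rfl⟩
  have a1 := e a
  have a2 := e b
  have a3 := e c
  have a4 := e d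
  rw [← hA] at a1
  rw [← hA2] at a2
  rw [← hA3] at a3
  rw [← hA4] at a4
  rw [← hA, ← hA2, ← hA3, ← hA4]
  have k1 : A * A2 * (A3 * A4) * (A * A2 * (A3 * A4)) = 1 := by
    calc A * A2 * (A3 * A4) * (A * A2 * (A3 * A4)) = (A * A) * (A2 * A2) * ((A3 * A3) * (A4 * A4)) := by
          ring
      _ = 1 := by rw [a1, a2, a3, a4]; ring
  linear_combination (JN w v φ (a - 1) b c d n + JN w v φ a (b - 1) c d n +
    (S.s.1 n : ℂ) * (JN w v φ a b (c - 1) d n + JN w v φ a b c (d - 1) n)) * k1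

lemma JN_N (S : Sys2 B h κ w v C0) {φ : ℂ → ℝ} (hφ : TF B φ) (a b c d : ℤ) :
    Tendsto (fun n => DN w v φ (a + 1) (b + 1) (c - 1) (d - 1) n +
    DN w v φ (a - 1) (b - 1) (c + 1) (d + 1) n - 2 * DN w v φ a b c d n) atTop (𝓝 0) := by
  have k := (nWJ S.H S.H' S.BU S.hC S.hC' S.h0 S.k0 a b c d).nul φ hφ
  refine Tendsto.congr (fun n => ?_) k
  have IJ : Integrable (fun z => (φ z : ℂ)) :=
    (hφ.1.continuous.integrable_of_hasCompactSupport hφ.2.1).ofReal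
  have e1 : ∀ c : ℂ, ∫ z, (φ z : ℂ) * c = ((∫ z, φ z : ℝ) : ℂ) * c := fun c => by
    rw [integral_mul_const, integral_complex_ofReal]
  have e := LL_JN S hφ (mn (a + 1) (b + 1) (c - 1) (d - 1) + mn (a - 1) (b - 1) (c + 1) (d + 1) -
      (2 : Rb) • mn a b c d) n
  have e2 : ((2 : Rb) : ℕ → ℝ) n = 2 := rfl
  rw [map_sub, map_add, map_smul, LL_mn, LL_mn, LL_mn] at e
  simp only [Pi.add_apply, Pi.sub_apply, smul_seq, e2] at e
  have e3 : ∫ z, (φ z : ℂ) * (w (a + 1) n z * w (b + 1) n z * v (c - 1) n z * v (d - 1) n z +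
              w (a - 1) n z * w (b - 1) n z * v (c + 1) n z * v (d + 1) n z -
            2 * (w a n z * w b n z * v c n z * v d n z) -
          (CC (a + 1) (b + 1) * CC (c - 1) (d - 1) + CC (a - 1) (b - 1) * CC (c + 1) (d + 1) -
            2 * CC a b * CC c d)) = (∫ z, (φ z : ℂ) * LL (p4 w v) (mn (a + 1) (b + 1) (c - 1) (d - 1) +
            mn (a - 1) (b - 1) (c + 1) (d + 1) - (2 : Rb) • mn a b c d : AddMonoidAlgebra Rb Ga)
            n z) -
          ∫ z, (φ z : ℂ) * (CC (a + 1) (b + 1) * CC (c - 1) (d - 1) +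
            CC (a - 1) (b - 1) * CC (c + 1) (d + 1) - 2 * CC a b * CC c d) := by
    rw [← integral_sub (TF.cint hφ (LL4_co S _ n)) (IJ.mul_const _)]
    congr 1; funext z
    rw [map_sub, map_add, map_smul]
    simp only [Pi.add_apply, Pi.sub_apply, smul_fld, LL_p4, p4, e2]
    push_cast
    ring
  rw [e3, ← e, e1]
  unfold DN Wk
  push_cast
  ring

/-- the relations -/
theorem DN_rel (S : Sys2 B h κ w v C0) {φ : ℂ → ℝ} (hφ : TF B φ) : RelS S.s (DN w v φ) where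
  sy := fun a b c d => by
    funext n
    unfold DN JN Wk
    rw [CC_symm c d]
    congr 2; funext z
    simp only [p4]; ring
  T := fun a b c d => by
    refine (JN_T S hφ a b c d).congr fun n => ?_
    unfold DN Wk
    rw [CC_up a b, CC_up c d]; ring
  T' := fun a b c d => by
    refine (JN_T' S hφ a b c d).congr fun n => ?_
    unfold DN Wk
    rw [CC_dn a b, CC_dn c d]; ring
  N := fun a b c d => JN_N S hφ a b c d

lemma LL_DN (φ : ℂ → ℝ) (P : AddMonoidAlgebra Rb Ga) (n : ℕ) :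
    LL (Du (DN w v φ)) P n = LL (Du (JN w v φ)) P n - ((∫ z, φ z : ℝ) : ℂ) * LL (Du Wk) P n := by
  induction P using AddMonoidAlgebra.induction_linear with
  | zero => simp
  | add p q hp hq =>
    rw [map_add, map_add, map_add, Pi.add_apply, Pi.add_apply, Pi.add_apply, hp, hq]; ring
  | single m r =>
    rw [LL_single, LL_single, LL_single, smul_seq, smul_seq, smul_seq]
    show _ * (DN w v φ m.1 m.2.1 m.2.2.1 m.2.2.2 n) = _ * (JN w v φ m.1 m.2.1 m.2.2.1 m.2.2.2 n) -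
      _ * (_ * (Wk m.1 m.2.1 m.2.2.1 m.2.2.2 n))
    unfold DN; ring

end

end Pool.Agent.Run7.h9.TC
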