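import Pool.Agent.Run7.h9.TC.Alg

/-! Bounded sequences as scalars. -/

set_option autoImplicit false
open Filter Topology

namespace Pool.Agent.Run7.h9.TC

noncomputable section

/-- bounded real sequences -/
def Rb : Subring (ℕ → ℝ) where
  carrier := {c | ∃ C, ∀ n, |c n| ≤ C}
  mul_mem' := by
    rintro a b ⟨C, hC⟩ ⟨D, hD⟩
    exact ⟨C * D, fun n => by
      rw [Pi.mul_apply, abs_mul]
      exact mul_le_mul (hC n) (hD n) (abs_nonneg _) ((abs_nonneg _).trans (hC n))⟩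
  one_mem' := ⟨1, fun n => by simp⟩
  add_mem' := by
    rintro a b ⟨C, hC⟩ ⟨D, hD⟩
    exact ⟨C + D, fun n => (abs_add_le _ _).trans (add_le_add (hC n) (hD n))⟩
  zero_mem' := ⟨0, fun n => by simp⟩
  neg_mem' := by
    rintro a ⟨C, hC⟩
    exact ⟨C, fun n => by rw [Pi.neg_apply, abs_neg]; exact hC n⟩

lemma Rb_bd (c : Rb) : ∃ C, ∀ n, |c.1 n| ≤ C := c.2

/-- evaluation at an index -/
def evn (n : ℕ) : Rb →+* ℝ := (Pi.evalRingHom (fun _ => ℝ) n).comp Rb.subtype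

@[simp] lemma evn_apply (n : ℕ) (c : Rb) : evn n c = c.1 n := rfl

/-- constants -/
def cst : ℝ →+* Rb where
  toFun x := ⟨fun _ => x, |x|, fun _ => le_rfl⟩
  map_one' := rfl
  map_mul' _ _ := rfl
  map_zero' := rfl
  map_add' _ _ := rfl

@[simp] lemma evn_cst (n : ℕ) (x : ℝ) : evn n (cst x) = x := rfl

lemma smul_seq (c : Rb) (x : ℕ → ℂ) (n : ℕ) : (c • x) n = ((c.1 n : ℝ) : ℂ) * x n := by
  show (c.1 n) • x n = _
  rw [Complex.real_smul]

lemma smul_fld (c : Rb) (x : ℕ → ℂ → ℂ) (n : ℕ) (z : ℂ) :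
    (c • x) n z = ((c.1 n : ℝ) : ℂ) * x n z := by
  show (c.1 n) • x n z = _
  rw [Complex.real_smul]

/-- null sequences -/
def nul : Submodule Rb (ℕ → ℂ) where
  carrier := {x | Tendsto x atTop (𝓝 0)}
  add_mem' := fun {a b} ha hb => by
    have := Tendsto.add ha hb
    rw [add_zero] at this
    exact this
  zero_mem' := tendsto_const_nhds
  smul_mem' := fun c x hx => by
    obtain ⟨C, hC⟩ := c.2
    have hx' : Tendsto x atTop (𝓝 0) := hx
    show Tendsto (c • x) atTop (𝓝 0)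
    rw [tendsto_zero_iff_norm_tendsto_zero] at hx' ⊢
    refine squeeze_zero (fun n => norm_nonneg _) (fun n => ?_) (by simpa using hx'.const_mul C)
    rw [smul_seq, norm_mul, Complex.norm_real, Real.norm_eq_abs]
    exact mul_le_mul_of_nonneg_right (hC n) (norm_nonneg _)

lemma mem_nul {x : ℕ → ℂ} : x ∈ nul ↔ Tendsto x atTop (𝓝 0) := Iff.rfl

/-- the relations up to null sequences -/
structure RelS (s : Rb) (D : ℤ → ℤ → ℤ → ℤ → ℕ → ℂ) : Prop where
  sy : ∀ a b c d, D a b c d = D a b d c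
  T : ∀ a b c d, Tendsto (fun n => D (a + 1) b c d n + D a (b + 1) c d n +
    (s.1 n : ℂ) * (D a b (c + 1) d n + D a b c (d + 1) n)) atTop (𝓝 0)
  T' : ∀ a b c d, Tendsto (fun n => D (a - 1) b c d n + D a (b - 1) c d n +
    (s.1 n : ℂ) * (D a b (c - 1) d n + D a b c (d - 1) n)) atTop (𝓝 0)
  N : ∀ a b c d, Tendsto (fun n => D (a + 1) (b + 1) (c - 1) (d - 1) n +
    D (a - 1) (b - 1) (c + 1) (d + 1) n - 2 * D a b c d n) atTop (𝓝 0)

lemma mkQ0 {x : ℕ → ℂ} (h : Tendsto x atTop (𝓝 0)) : nul.mkQ x = 0 :=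
  (Submodule.Quotient.mk_eq_zero _).2 h

lemma RelS.rel {s : Rb} {D : ℤ → ℤ → ℤ → ℤ → ℕ → ℂ} (h : RelS s D) :
    Rel (R := Rb) (V := (ℕ → ℂ) ⧸ nul) s (fun a b c d => nul.mkQ (D a b c d)) where
  sy := fun a b c d => by
    show nul.mkQ (D a b c d) = nul.mkQ (D a b d c)
    rw [h.sy]
  T := fun a b c d => by
    show nul.mkQ (D (a + 1) b c d) + nul.mkQ (D a (b + 1) c d) +
      s • (nul.mkQ (D a b (c + 1) d) + nul.mkQ (D a b c (d + 1))) = 0
    rw [← map_add, ← map_add, ← map_smul, ← map_add]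
    refine mkQ0 ((h.T a b c d).congr fun n => ?_)
    simp only [Pi.add_apply, smul_seq]
  T' := fun a b c d => by
    show nul.mkQ (D (a - 1) b c d) + nul.mkQ (D a (b - 1) c d) +
      s • (nul.mkQ (D a b (c - 1) d) + nul.mkQ (D a b c (d - 1))) = 0
    rw [← map_add, ← map_add, ← map_smul, ← map_add]
    refine mkQ0 ((h.T' a b c d).congr fun n => ?_)
    simp only [Pi.add_apply, smul_seq]
  N := fun a b c d => by
    show nul.mkQ (D (a + 1) (b + 1) (c - 1) (d - 1)) + nul.mkQ (D (a - 1) (b - 1) (c + 1) (d + 1)) =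
      (2 : Rb) • nul.mkQ (D a b c d)
    rw [← map_add, ← map_smul, ← sub_eq_zero, ← map_sub]
    refine mkQ0 ((h.N a b c d).congr fun n => ?_)
    have e : ((2 : Rb) : ℕ → ℝ) n = 2 := rfl
    simp only [Pi.add_apply, Pi.sub_apply, smul_seq]
    rw [e]; norm_num

open Polynomial in
/-- **The joint power spectrum, sequence form** -/
theorem main_seq {s : Rb} {D : ℤ → ℤ → ℤ → ℤ → ℕ → ℂ} (h : RelS s D) (G : Rb[X]) :
    Tendsto (fun n => 2 * LL (Du D) (Polynomial.aeval (e1 s) (qP s * G) *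
      Polynomial.aeval (e2 s) (qP s * G)) n -
      LL (Du D) (Polynomial.aeval eX (PP : Rb[X]) *
      Polynomial.aeval (eY s) (QQ s * EM s (Polynomial.X ^ 4 * G ^ 2))) n) atTop (𝓝 0) := by
  have k := main_alg h.rel G
  have e : ∀ P, LL (Du (fun a b c d => nul.mkQ (D a b c d))) P = nul.mkQ (LL (Du D) P) := fun P =>
    LL_comp nul.mkQ (Du D) P
  rw [e, e, ← map_smul, ← sub_eq_zero, ← map_sub] at k
  have k2 := (Submodule.Quotient.mk_eq_zero _).1 k
  refine (mem_nul.1 k2).congr fun n => ?_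
  have e : ((2 : Rb) : ℕ → ℝ) n = 2 := rfl
  simp only [Pi.sub_apply, smul_seq]
  rw [e]; norm_num

end

end Pool.Agent.Run7.h9.TC
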