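import Pool.Agent.Run7.h9.TC.Wick

/-! The joint power spectrum of the product of two eigenfunctions. -/
set_option autoImplicit false
open MeasureTheory Filter Topology Complex Set
open scoped ContDiff Real Manifold

namespace Pool.Agent.Run7.h9.TC

open Pool.Agent.W745.RW Pool.Agent.TH294.RS Pool.Agent.Y265.HY Pool.Agent.Y265.HY.PS
open Pool.Agent.Y265.HY.JC Pool.Agent.R314.JN AddMonoidAlgebra

noncomputable section

variable {B : Set ℂ} {h κ : ℕ → ℝ} {w v : ℤ → ℕ → ℂ → ℂ} {C0 : ℝ}

lemma map_single' {G G' : Type*} [AddCommMonoid G] [AddCommMonoid G'] (i : G →+ G') (k : G)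
    (c : Rb) : mapDomainRingHom Rb i (single k c) = single (i k) c := by
  show mapDomain i (single k c) = _
  rw [mapDomain_single]

lemma e_aux (s : Rb) (a b c d : AddMonoidAlgebra Rb Ga) (hab : a * b = 1) (hcd : c * d = 1) :
    (a + sc s * c) * (b + sc s * d) = sc (1 + s * s) + sc s * (a * d) + sc s * (b * c) := by
  have h1 : (a + sc s * c) * (b + sc s * d) = a * b + sc s * sc s * (c * d) +
    sc s * (a * d) + sc s * (b * c) := by ring
  rw [h1, hab, hcd, mul_one]
  have h3 : (sc (1 + s * s) : AddMonoidAlgebra Rb Ga) = 1 + sc s * sc s := by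
    unfold sc
    rw [single_mul_single, single_add]
    rfl
  rw [h3]

lemma sc_mn (s : Rb) (a b c d : ℤ) :
    sc s * (mn a b c d : AddMonoidAlgebra Rb Ga) = single (a, b, c, d) s := by
  unfold sc mn
  rw [single_mul_single, zero_add, mul_one]

lemma ixu_rr (s : Rb) : mapDomainRingHom Rb ixu (rr s) = e1 s := by
  unfold rr e1
  rw [e_aux s _ _ _ _ xx uu, map_add, map_add, map_single', map_single', map_single']
  unfold vx vu' vx' vu
  rw [mn_mul, mn_mul, sc_mn, sc_mn]
  simp only [zero_add, add_zero]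
  rfl

lemma iyw_rr (s : Rb) : mapDomainRingHom Rb iyw (rr s) = e2 s := by
  unfold rr e2
  rw [e_aux s _ _ _ _ yy ww, map_add, map_add, map_single', map_single', map_single']
  unfold vy vw' vy' vw
  rw [mn_mul, mn_mul, sc_mn, sc_mn]
  simp only [zero_add, add_zero]
  rfl

lemma sc_one : (sc 1 : AddMonoidAlgebra Rb Ga) = 1 := rfl

lemma ixy_rr : mapDomainRingHom Rb ixy (rr 1) = eX := by
  unfold rr eX
  have h := e_aux 1 (vx) vx' vy vy' xx yy
  rw [sc_one, one_mul, one_mul, one_mul, one_mul] at h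
  rw [h, map_add, map_add, map_single', map_single', map_single']
  unfold vx vy' vx' vy
  rw [mn_mul, mn_mul]
  simp only [zero_add, add_zero, one_mul]
  rfl

lemma iuw_rr (s : Rb) : sc s * sc s * mapDomainRingHom Rb iuw (rr 1) = eY s := by
  unfold rr eY
  have h := e_aux 1 (vu) vu' vw vw' uu ww
  rw [sc_one, one_mul, one_mul, one_mul, one_mul] at h
  rw [h, map_add, map_add, map_single', map_single', map_single']
  unfold vu vw' vu' vw
  rw [mn_mul, mn_mul]
  simp only [zero_add, add_zero, one_mul]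
  rfl

lemma diag_s (S : Sys2 B h κ w v C0) : S.diag.s = 1 := by
  refine Subtype.ext (funext fun n => ?_)
  show h n / h n = 1
  exact div_self (S.H.hpos n).ne'

open Polynomial in
/-- the expression `F(L)(f g)` -/
def Eo (h : ℕ → ℝ) (F : Rb[X]) (w v : ℤ → ℕ → ℂ → ℂ) : ℕ → ℂ → ℂ := opR h F (LL (p2 w v) (1 : A2))

open Polynomial in
lemma good_Eo (S : Sys2 B h κ w v C0) (F : Rb[X]) :
    Good B h κ w v (Eo h F w v) (Polynomial.aeval (rr S.s) F) :=
  (Good.op S (good_p S 1) F).cg (fun _ _ _ => rfl) (by rw [mul_one])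

open Polynomial in
/-- the second polynomial in the own scale of the second function -/
def Rs (s : Rb) (F : Rb[X]) : Rb[X] := F.comp (Polynomial.C (s * s) * Polynomial.X)

open Polynomial in
lemma Rs_aeval (s : Rb) (F : Rb[X]) :
    mapDomainRingHom Rb iuw (Polynomial.aeval (rr 1) (Rs s F)) = Polynomial.aeval (eY s) F := by
  have e : Polynomial.aeval (rr 1) (Polynomial.C (s * s) * Polynomial.X) =
      (single 0 (s * s) : A2) * rr 1 := by
    rw [map_mul, Polynomial.aeval_C, Polynomial.aeval_X]; rfl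
  unfold Rs
  rw [Polynomial.aeval_comp, e, ← aeval_map, map_mul, map_single', ← iuw_rr]
  congr 2
  unfold sc
  rw [single_mul_single]
  simp only [map_zero, add_zero]

open Polynomial in
/-- **The joint power spectrum** -/
theorem spec (S : Sys2 B h κ w v C0) {φ : ℂ → ℝ} (hφ : TF B φ) (G : Rb[X]) :
    Tendsto (fun n => 2 * (∫ z, (φ z : ℂ) * (Eo h (qP S.s * G) w v n z *
        Eo h (qP S.s * G) w v n z)) -
      2 * (((∫ z, φ z : ℝ) : ℂ) * ((WI ((qP S.s * G).map (evn n)) (S.s.1 n) : ℝ) : ℂ)) -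
      ∫ z, (φ z : ℂ) * (Eo h PP w w n z *
        Eo κ (Rs S.s (QQ S.s * EM S.s (Polynomial.X ^ 4 * G ^ 2))) v v n z)) atTop (𝓝 0) := by
  have i1 := (int_mixed S hφ (good_Eo S (qP S.s * G)) (good_Eo S (qP S.s * G))).const_mul 2
  have g1 := good_Eo S.diag PP
  have g2 := good_Eo S.symm.diag (Rs S.s (QQ S.s * EM S.s (Polynomial.X ^ 4 * G ^ 2)))
  rw [diag_s S] at g1
  rw [diag_s S.symm] at g2
  have i2 := int_sq S hφ g1 g2
  have i3 := main_seq (DN_rel S hφ) G
  simp only [LL_DN, wick_eval, wk_PP] at i3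
  rw [← aeval_map, ← aeval_map, ixu_rr, iyw_rr] at i1
  rw [← aeval_map, ixy_rr, Rs_aeval] at i2
  have k := (i1.sub i2).add i3
  rw [mul_zero, sub_zero, add_zero] at k
  refine k.congr fun n => ?_
  simp only [Pi.zero_apply, mul_zero, sub_zero]
  ring

end

end Pool.Agent.Run7.h9.TC
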