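import Pool.Agent.Run7.h9.TC.Rel4

/-! Evaluation of the Wick functional. -/
set_option autoImplicit false
open MeasureTheory Filter Topology Complex Set
open scoped ContDiff Real Manifold

namespace Pool.Agent.Run7.h9.TC

open Pool.Agent.W745.RW Pool.Agent.TH294.RS Pool.Agent.Y265.HY Pool.Agent.Y265.HY.PS
open Pool.Agent.Y265.HY.JC Pool.Agent.R314.JN AddMonoidAlgebra

noncomputable section

lemma aeval_map {G G' : Type*} [AddCommMonoid G] [AddCommMonoid G'] (i : G →+ G')
    (x : AddMonoidAlgebra Rb G) (F : Polynomial Rb) :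
    Polynomial.aeval (mapDomainRingHom Rb i x) F = mapDomainRingHom Rb i (Polynomial.aeval x F) := by
  rw [Polynomial.aeval_def, Polynomial.aeval_def, Polynomial.hom_eval₂]
  congr 1
  ext r : 1
  show single 0 r = mapDomain i (single 0 r)
  rw [mapDomain_single, map_zero]

section kers

variable {a : AddMonoidAlgebra Rb Ga}

lemma wk1 : (vx + vy : AddMonoidAlgebra Rb Ga) ∈ ker' (Du Wk) := by
  refine ker_of fun m => ?_
  obtain ⟨a, b, c, d⟩ := m
  have e : (vx + vy : AddMonoidAlgebra Rb Ga) * mn a b c d = mn (a + 1) b c d + mn a (b + 1) c d := by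
    unfold vx vy
    rw [add_mul, mn_mul, mn_mul]
    simp only [zero_add, add_comm (1 : ℤ)]
  show LL (Du Wk) ((vx + vy : AddMonoidAlgebra Rb Ga) * mn a b c d) = 0
  rw [e, map_add, LL_mn, LL_mn]
  funext n
  simp only [Pi.add_apply, Wk, Pi.zero_apply]
  rw [CC_up]; ring

lemma wk2 : (vx' + vy' : AddMonoidAlgebra Rb Ga) ∈ ker' (Du Wk) := by
  refine ker_of fun m => ?_
  obtain ⟨a, b, c, d⟩ := m
  have e : (vx' + vy' : AddMonoidAlgebra Rb Ga) * mn a b c d =
      mn (a - 1) b c d + mn a (b - 1) c d := by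
    unfold vx' vy'
    rw [add_mul, mn_mul, mn_mul]
    simp only [zero_add, add_comm (-1 : ℤ), sub_eq_add_neg]
  show LL (Du Wk) ((vx' + vy' : AddMonoidAlgebra Rb Ga) * mn a b c d) = 0
  rw [e, map_add, LL_mn, LL_mn]
  funext n
  simp only [Pi.add_apply, Wk, Pi.zero_apply]
  rw [CC_dn]; ring

lemma wk3 : (vu + vw : AddMonoidAlgebra Rb Ga) ∈ ker' (Du Wk) := by
  refine ker_of fun m => ?_
  obtain ⟨a, b, c, d⟩ := m
  have e : (vu + vw : AddMonoidAlgebra Rb Ga) * mn a b c d =
      mn a b (c + 1) d + mn a b c (d + 1) := by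
    unfold vu vw
    rw [add_mul, mn_mul, mn_mul]
    simp only [zero_add, add_comm (1 : ℤ)]
  show LL (Du Wk) ((vu + vw : AddMonoidAlgebra Rb Ga) * mn a b c d) = 0
  rw [e, map_add, LL_mn, LL_mn]
  funext n
  simp only [Pi.add_apply, Wk, Pi.zero_apply]
  rw [CC_up c]; ring

lemma wk4 : (vu' + vw' : AddMonoidAlgebra Rb Ga) ∈ ker' (Du Wk) := by
  refine ker_of fun m => ?_
  obtain ⟨a, b, c, d⟩ := m
  have e : (vu' + vw' : AddMonoidAlgebra Rb Ga) * mn a b c d =
      mn a b (c - 1) d + mn a b c (d - 1) := by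
    unfold vu' vw'
    rw [add_mul, mn_mul, mn_mul]
    simp only [zero_add, add_comm (-1 : ℤ), sub_eq_add_neg]
  show LL (Du Wk) ((vu' + vw' : AddMonoidAlgebra Rb Ga) * mn a b c d) = 0
  rw [e, map_add, LL_mn, LL_mn]
  funext n
  simp only [Pi.add_apply, Wk, Pi.zero_apply]
  rw [CC_dn c]; ring

end kers

/-- the square spectrum does not see the Wick part -/
lemma wk_PP (Z : AddMonoidAlgebra Rb Ga) :
    LL (Du Wk) (Polynomial.aeval eX (PP : Polynomial Rb) * Z) = 0 := by
  have e : Polynomial.aeval (eX : AddMonoidAlgebra Rb Ga) (PP : Polynomial Rb) * Z =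
      (vx + vy) * ((vx' + vy') * ((4 - eX) * Z)) := by
    unfold PP
    rw [map_mul, map_sub, Polynomial.aeval_X, map_ofNat]
    unfold eX
    ring
  rw [e]
  exact wk1 _

lemma wk_e12 (s : Rb) : e2 s - e1 s ∈ ker' (Du Wk) := by
  have e : e2 s - e1 s = (vx' + vy') * (-(vx + sc s * vu) + (vx + vy) + sc s * (vu + vw)) +
      (vu' + vw') * (sc s * (-(vx + sc s * vu) + (vx + vy) + sc s * (vu + vw))) -
      (vx + vy) * (vx' + sc s * vu') - (vu + vw) * (sc s * (vx' + sc s * vu')) := by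
    unfold e1 e2; ring
  rw [e]
  exact Ideal.sub_mem _ (Ideal.sub_mem _ (Ideal.add_mem _ (Ideal.mul_mem_right _ _ wk2)
    (Ideal.mul_mem_right _ _ wk4)) (Ideal.mul_mem_right _ _ wk1)) (Ideal.mul_mem_right _ _ wk3)

/-- embedding of one variable -/
def iz : ℤ →+ Ga where
  toFun k := (k, 0, -k, 0)
  map_zero' := rfl
  map_add' _ _ := by simp; ring

/-- the one-variable frequency -/
def rz (s : Rb) : AddMonoidAlgebra Rb ℤ := single 0 (1 + s * s) + single 1 s + single (-1) s

lemma iz_rz (s : Rb) : mapDomainRingHom Rb iz (rz s) = e1 s := by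
  have e : ∀ (k : ℤ) (c : Rb), mapDomainRingHom Rb iz (single k c) = single (k, 0, -k, 0) c := by
    intro k c
    show mapDomain iz (single k c) = _
    rw [mapDomain_single]; rfl
  unfold rz
  rw [map_add, map_add, e, e, e]
  unfold e1
  have h1 : (vx + sc s * vu) * (vx' + sc s * vu') = vx * vx' + sc s * sc s * (vu * vu') +
    sc s * (vx * vu') + sc s * (vx' * vu) := by ring
  rw [h1, xx, uu]
  unfold vx vu' vx' vu
  rw [mn_mul, mn_mul, mul_one]
  unfold sc mn
  rw [single_mul_single, single_mul_single, single_mul_single]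
  have h2 : (1 : AddMonoidAlgebra Rb Ga) = single 0 1 := rfl
  rw [h2]
  have h3 : (single (0 : Ga) (1 + s * s) : AddMonoidAlgebra Rb Ga) = single 0 1 + single 0 (s * s) :=
    single_add _ _ _
  simp only [zero_add, add_zero, mul_one, neg_zero, neg_neg]
  rw [← h3]
  rfl

/-- characters of one variable -/
def chz (θ : ℝ) : Multiplicative ℤ →* ℂ where
  toFun m := Complex.exp ((((Multiplicative.toAdd m : ℤ) : ℂ) * I) * θ)
  map_one' := by simp
  map_mul' x y := by
    rw [← Complex.exp_add]; congr 1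
    rw [toAdd_mul]; push_cast; ring

/-- evaluation at a point of the circle -/
def ez (θ : ℝ) (n : ℕ) : AddMonoidAlgebra Rb ℤ →+* ℂ :=
  liftNCRingHom (Complex.ofRealHom.comp (evn n)) (chz θ) fun _ _ => mul_comm _ _

lemma ez_single (θ : ℝ) (n : ℕ) (k : ℤ) (c : Rb) :
    ez θ n (single k c) = ((c.1 n : ℝ) : ℂ) * Complex.exp (((k : ℂ) * I) * θ) := by
  show liftNC _ _ _ = _
  rw [liftNC_single]
  rfl

lemma ez_rz (θ : ℝ) (n : ℕ) (s : Rb) :
    ez θ n (rz s) = ((1 + s.1 n ^ 2 + 2 * s.1 n * Real.cos θ : ℝ) : ℂ) := by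
  unfold rz
  rw [map_add, map_add, ez_single, ez_single, ez_single]
  have e1 : ((1 + s * s : Rb) : ℕ → ℝ) n = 1 + s.1 n * s.1 n := rfl
  rw [e1]
  push_cast
  rw [Complex.cos]
  simp only [zero_mul, Complex.exp_zero, one_mul, neg_mul, mul_one]
  rw [mul_comm (θ : ℂ) I]
  ring

lemma ez_cont (n : ℕ) (P : AddMonoidAlgebra Rb ℤ) : Continuous fun θ : ℝ => ez θ n P := by
  induction P using AddMonoidAlgebra.induction_linear with
  | zero => simp only [map_zero]; exact continuous_const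
  | add p q hp hq => simp only [map_add]; exact hp.add hq
  | single k c => simp only [ez_single]; fun_prop

lemma int_exp (k : ℤ) : ∫ θ in (0 : ℝ)..(2 * π), Complex.exp (((k : ℂ) * I) * θ) =
    if k = 0 then (2 * π : ℂ) else 0 := by
  split_ifs with h
  · rw [h]; simp
  · have hc : ((k : ℂ) * I) ≠ 0 := mul_ne_zero (by exact_mod_cast h) I_ne_zero
    rw [integral_exp_mul_complex hc]
    have e : (k : ℂ) * I * ((2 * π : ℝ) : ℂ) = k * (2 * π * I) := by push_cast; ring
    rw [e, Complex.exp_int_mul_two_pi_mul_I]; simp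

/-- the values at the constant exponent -/
def dz (k : ℤ) (_ : ℕ) : ℂ := if k = 0 then 1 else 0

lemma LL_dz (P : AddMonoidAlgebra Rb ℤ) (n : ℕ) :
    LL dz P n = 1 / (2 * π) * ∫ θ in (0 : ℝ)..(2 * π), ez θ n P := by
  induction P using AddMonoidAlgebra.induction_linear with
  | zero => simp
  | add p q hp hq =>
    rw [map_add, Pi.add_apply, hp, hq]
    simp only [map_add]
    rw [intervalIntegral.integral_add ((ez_cont n p).intervalIntegrable _ _)
      ((ez_cont n q).intervalIntegrable _ _)]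
    ring
  | single k c =>
    simp only [ez_single]
    rw [LL_single, smul_seq, intervalIntegral.integral_const_mul, int_exp]
    unfold dz
    have hp : (π : ℂ) ≠ 0 := by exact_mod_cast Real.pi_ne_zero
    split_ifs
    · field_simp
    · simp

open Polynomial in
lemma ez_aeval (θ : ℝ) (n : ℕ) (x : AddMonoidAlgebra Rb ℤ) (F : Rb[X]) (t : ℝ)
    (ht : ez θ n x = (t : ℂ)) :
    ez θ n (Polynomial.aeval x F) = (((F.map (evn n)).eval t : ℝ) : ℂ) := by
  rw [Polynomial.aeval_def, Polynomial.hom_eval₂, ht, Polynomial.eval_map]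
  have e : ((Polynomial.eval₂ (evn n) t F : ℝ) : ℂ) =
      Complex.ofRealHom (Polynomial.eval₂ (evn n) t F) := rfl
  rw [e, Polynomial.hom_eval₂]
  congr 1
  ext r : 1
  show ez θ n (single 0 r) = _
  rw [ez_single]
  simp

/-- the Wick part of the joint power spectrum -/
def WI (F : Polynomial ℝ) (s : ℝ) : ℝ :=
  1 / (2 * π) * ∫ θ in (0 : ℝ)..(2 * π), F.eval (1 + s ^ 2 + 2 * s * Real.cos θ) ^ 2

open Polynomial in
theorem wick_eval (s : Rb) (F : Rb[X]) (n : ℕ) :
    LL (Du Wk) (Polynomial.aeval (e1 s) F * Polynomial.aeval (e2 s) F) n =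
      ((WI (F.map (evn n)) (s.1 n) : ℝ) : ℂ) := by
  have k1 : pr Wk (Polynomial.aeval (e1 s) F * Polynomial.aeval (e2 s) F) =
      pr Wk (Polynomial.aeval (e1 s) (F ^ 2)) := by
    have q : pr Wk (e2 s) = pr Wk (e1 s) := Ideal.Quotient.eq.2 (wk_e12 s)
    have q12 : pr Wk (Polynomial.aeval (e2 s) F) = pr Wk (Polynomial.aeval (e1 s) F) := by
      rw [Polynomial.aeval_def, Polynomial.aeval_def, Polynomial.hom_eval₂, Polynomial.hom_eval₂, q]
    rw [map_mul, q12, ← map_mul, ← sq, map_pow (Polynomial.aeval (e1 s))]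
  rw [LL_pr k1, ← iz_rz, aeval_map, LL_map]
  have e : (fun m => Du Wk (iz m)) = dz := by
    funext k m
    show Pool.Agent.W745.RW.CC k 0 * Pool.Agent.W745.RW.CC (-k) 0 = _
    unfold Pool.Agent.W745.RW.CC dz
    by_cases h : k = 0
    · rw [h]; simp
    · rw [if_neg (by omega), if_neg (by omega), if_neg h]; simp
  rw [e, LL_dz]
  have e2 : ∀ θ : ℝ, ez θ n (Polynomial.aeval (rz s) (F ^ 2)) =
      (((F.map (evn n)).eval (1 + s.1 n ^ 2 + 2 * s.1 n * Real.cos θ) ^ 2 : ℝ) : ℂ) := by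
    intro θ
    rw [ez_aeval θ n (rz s) (F ^ 2) _ (ez_rz θ n s), Polynomial.map_pow, Polynomial.eval_pow]
  simp only [e2]
  unfold WI
  rw [intervalIntegral.integral_ofReal]
  push_cast
  ring

end

end Pool.Agent.Run7.h9.TC
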